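import Mathlib

set_option autoImplicit false
open MeasureTheory ProbabilityTheory Filter Topology
open scoped NNReal ENNReal

namespace Pool.Agent.helper97.GUE

variable {Ω : Type*} [MeasurableSpace Ω]

theorem integrable_of_osc {α : Type*} [MeasurableSpace α] (μ : Measure α) [IsProbabilityMeasure μ]
    (g : α → ℝ) (hg : Measurable g) (M : ℝ) (hM : ∀ x y, |g x - g y| ≤ M) : Integrable g μ := by
  have hne : Nonempty α := by
    by_contra h
    rw [not_nonempty_iff] at h
    have := measure_univ (μ := μ)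
    rw [Set.univ_eq_empty_iff.mpr h] at this
    simp at this
  obtain ⟨x0⟩ := hne
  refine Integrable.of_bound hg.aestronglyMeasurable (|g x0| + M) (ae_of_all _ fun x => ?_)
  have := hM x x0
  rw [Real.norm_eq_abs]
  calc |g x| = |g x0 + (g x - g x0)| := by ring_nf
    _ ≤ |g x0| + |g x - g x0| := abs_add_le _ _
    _ ≤ _ := by linarith

theorem osc_integral {α β : Type*} [MeasurableSpace α] [MeasurableSpace β] (ν : Measure β)
    [IsProbabilityMeasure ν] (g : α → β → ℝ) (hg : ∀ a, Integrable (g a) ν) (M : ℝ)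
    (hM : ∀ a a' b, |g a b - g a' b| ≤ M) (a a' : α) :
    |∫ b, g a b ∂ν - ∫ b, g a' b ∂ν| ≤ M := by
  rw [← integral_sub (hg a) (hg a')]
  calc |∫ b, (g a b - g a' b) ∂ν| ≤ ∫ b, |g a b - g a' b| ∂ν := abs_integral_le_integral_abs
    _ ≤ ∫ _, M ∂ν := by
      refine integral_mono ((hg a).sub (hg a')).abs (integrable_const _) fun b => hM a a' b
    _ = M := by simp

theorem hoeffding_osc {α : Type*} [MeasurableSpace α] (μ : Measure α) [IsProbabilityMeasure μ]
    (g : α → ℝ) (hg : Measurable g) (M : ℝ) (hM0 : 0 ≤ M) (hM : ∀ x y, |g x - g y| ≤ M) (t : ℝ) :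
    ∫ x, Real.exp (t * (g x - ∫ y, g y ∂μ)) ∂μ ≤ Real.exp (M ^ 2 * t ^ 2 / 2) := by
  have hI := integrable_of_osc μ g hg M hM
  have hb : ∀ x, g x ∈ Set.Icc ((∫ y, g y ∂μ) - M) ((∫ y, g y ∂μ) + M) := by
    intro x
    have h1 : |g x - ∫ y, g y ∂μ| ≤ M := by
      have : g x - ∫ y, g y ∂μ = ∫ y, (g x - g y) ∂μ := by
        rw [integral_sub (integrable_const _) hI]; simp
      rw [this]
      calc |∫ y, (g x - g y) ∂μ| ≤ ∫ y, |g x - g y| ∂μ := abs_integral_le_integral_abs
        _ ≤ ∫ _, M ∂μ := by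
          refine integral_mono ((integrable_const _).sub hI).abs (integrable_const _)
            fun y => hM x y
        _ = M := by simp
    rw [abs_le] at h1
    constructor <;> linarith [h1.1, h1.2]
  have h2 := hasSubgaussianMGF_of_mem_Icc (μ := μ) (X := g) hg.aemeasurable (ae_of_all _ hb)
  have h3 := h2.mgf_le t
  unfold mgf at h3
  refine h3.trans ?_
  apply Real.exp_le_exp.mpr
  have h4 : ((((‖(∫ y, g y ∂μ) + M - ((∫ y, g y ∂μ) - M)‖₊ / 2) ^ 2 : ℝ≥0)) : ℝ) = M ^ 2 := by
    push_cast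
    rw [Real.norm_eq_abs]
    have : (∫ y, g y ∂μ) + M - ((∫ y, g y ∂μ) - M) = 2 * M := by ring
    rw [this, abs_of_nonneg (by linarith)]
    ring
  rw [h4]

theorem mcdiarmid_aux (μ : Measure Ω) [IsProbabilityMeasure μ] (c : ℝ) (hc0 : 0 ≤ c) (N : ℕ) :
    ∀ f : (Fin N → Ω) → ℝ, Measurable f →
    (∀ (x : Fin N → Ω) (j : Fin N) (y : Ω), |f (Function.update x j y) - f x| ≤ c) →
    (∀ x y, |f x - f y| ≤ N * c) ∧
    ∀ t : ℝ, ∫ x, Real.exp (t * (f x - ∫ y, f y ∂(Measure.pi fun _ : Fin N => μ)))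
      ∂(Measure.pi fun _ : Fin N => μ) ≤ Real.exp (N * c ^ 2 * t ^ 2 / 2) := by
  induction N with
  | zero =>
    intro f hf hfc
    refine ⟨fun x y => ?_, fun t => ?_⟩
    · rw [Subsingleton.elim x y]; simp
    · have : ∀ x, f x = ∫ y, f y ∂(Measure.pi fun _ : Fin 0 => μ) := by
        intro x
        rw [integral_congr_ae (g := fun _ => f x) (ae_of_all _ fun y => by
          rw [Subsingleton.elim x y])]
        simp
      rw [integral_congr_ae (g := fun _ => (1 : ℝ)) (ae_of_all _ fun y => by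
        simp only
        rw [← this y]; simp)]
      simp
  | succ N ih =>
    intro f hf hfc
    set e := MeasurableEquiv.piFinSuccAbove (fun _ : Fin (N + 1) => Ω) 0 with he
    have hmp : MeasurePreserving e (Measure.pi fun _ : Fin (N + 1) => μ)
        (μ.prod (Measure.pi fun _ : Fin N => μ)) :=
      measurePreserving_piFinSuccAbove (fun _ : Fin (N + 1) => μ) 0
    set ν := Measure.pi fun _ : Fin N => μ with hν
    set f' : Ω → (Fin N → Ω) → ℝ := fun y x => f (e.symm (y, x)) with hf'
    have hsymm : ∀ (y : Ω) (x : Fin N → Ω), e.symm (y, x) = Fin.cons y x := by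
      intro y x
      rw [he]
      ext i
      simp [MeasurableEquiv.piFinSuccAbove, Fin.insertNthEquiv]
    have hf'm : Measurable (Function.uncurry f') := hf.comp e.symm.measurable
    have hf'y : ∀ y, Measurable (f' y) := fun y => hf'm.comp measurable_prodMk_left
    have hbd1 : ∀ y (x : Fin N → Ω) (j : Fin N) (z : Ω),
        |f' y (Function.update x j z) - f' y x| ≤ c := by
      intro y x j z
      have := hfc (Fin.cons y x) j.succ z
      simp only [hf', hsymm]
      rw [Fin.cons_update]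
      exact this
    have hbd2 : ∀ y y' x, |f' y x - f' y' x| ≤ c := by
      intro y y' x
      have := hfc (Fin.cons y' x) 0 y
      simp only [hf', hsymm]
      rw [Fin.update_cons_zero] at this
      exact this
    have hih := fun y => ih (f' y) (hf'y y) (hbd1 y)
    have hosc : ∀ y x y' x', |f' y x - f' y' x'| ≤ (N + 1 : ℕ) * c := by
      intro y x y' x'
      have h1 := (hih y).1 x x'
      have h2 := hbd2 y y' x'
      calc |f' y x - f' y' x'| = |(f' y x - f' y x') + (f' y x' - f' y' x')| := by ring_nf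
        _ ≤ |f' y x - f' y x'| + |f' y x' - f' y' x'| := abs_add_le _ _
        _ ≤ N * c + c := by linarith
        _ = (N + 1 : ℕ) * c := by push_cast; ring
    have hosc' : ∀ x y, |f x - f y| ≤ (N + 1 : ℕ) * c := by
      intro x y
      have := hosc (e x).1 (e x).2 (e y).1 (e y).2
      simpa [hf'] using this
    refine ⟨hosc', fun t => ?_⟩
    set F : Ω → ℝ := fun y => ∫ x, f' y x ∂ν with hF
    have hFm : Measurable F := hf'm.stronglyMeasurable.integral_prod_right.measurable
    have hint : ∀ y, Integrable (f' y) ν := fun y =>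
      integrable_of_osc ν (f' y) (hf'y y) (N * c) (hih y).1
    have hFosc : ∀ y y', |F y - F y'| ≤ c := fun y y' =>
      osc_integral ν f' hint c (fun a a' b => hbd2 a a' b) y y'
    have hmean : ∫ y, f y ∂(Measure.pi fun _ : Fin (N + 1) => μ) = ∫ y, F y ∂μ := by
      have h1 : ∫ y, f y ∂(Measure.pi fun _ : Fin (N + 1) => μ)
          = ∫ p, f (e.symm p) ∂(μ.prod ν) := by
        rw [← hmp.map_eq, integral_map_equiv]
        simp
      rw [h1, integral_prod]
      refine integrable_of_osc (μ.prod ν) (fun p => f (e.symm p)) hf'm ((N + 1 : ℕ) * c) ?_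
      intro p p'
      exact hosc p.1 p.2 p'.1 p'.2
    rw [hmean]
    have hexp : ∫ x, Real.exp (t * (f x - ∫ y, F y ∂μ)) ∂(Measure.pi fun _ : Fin (N + 1) => μ)
        = ∫ y, ∫ x, Real.exp (t * (f' y x - ∫ y, F y ∂μ)) ∂ν ∂μ := by
      have h1 : ∫ x, Real.exp (t * (f x - ∫ y, F y ∂μ)) ∂(Measure.pi fun _ : Fin (N + 1) => μ)
          = ∫ p, Real.exp (t * (f (e.symm p) - ∫ y, F y ∂μ)) ∂(μ.prod ν) := by
        rw [← hmp.map_eq, integral_map_equiv]
        simp
      rw [h1, integral_prod]
      have hm : Measurable (fun p : Ω × (Fin N → Ω) =>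
          Real.exp (t * (f (e.symm p) - ∫ y, F y ∂μ))) := by
        exact Real.measurable_exp.comp (measurable_const.mul (hf'm.sub measurable_const))
      obtain ⟨B, hB⟩ : ∃ B, ∀ p : Ω × (Fin N → Ω), |f (e.symm p)| ≤ B := by
        have hne : Nonempty (Ω × (Fin N → Ω)) := by
          by_contra h
          rw [not_nonempty_iff] at h
          have := measure_univ (μ := μ.prod ν)
          rw [Set.univ_eq_empty_iff.mpr h] at this
          simp at this
        obtain ⟨p0⟩ := hne
        refine ⟨|f (e.symm p0)| + (N + 1 : ℕ) * c, fun p => ?_⟩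
        have := hosc' (e.symm p) (e.symm p0)
        calc |f (e.symm p)| = |f (e.symm p0) + (f (e.symm p) - f (e.symm p0))| := by ring_nf
          _ ≤ |f (e.symm p0)| + |f (e.symm p) - f (e.symm p0)| := abs_add_le _ _
          _ ≤ _ := by linarith
      refine Integrable.of_bound hm.aestronglyMeasurable
        (Real.exp (|t| * (B + |∫ y, F y ∂μ|))) (ae_of_all _ fun p => ?_)
      rw [Real.norm_eq_abs, abs_of_pos (Real.exp_pos _), Real.exp_le_exp]
      calc t * (f (e.symm p) - ∫ y, F y ∂μ) ≤ |t * (f (e.symm p) - ∫ y, F y ∂μ)| := le_abs_self _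
        _ = |t| * |f (e.symm p) - ∫ y, F y ∂μ| := abs_mul _ _
        _ ≤ |t| * (B + |∫ y, F y ∂μ|) := by
          apply mul_le_mul_of_nonneg_left _ (abs_nonneg _)
          calc |f (e.symm p) - ∫ y, F y ∂μ| ≤ |f (e.symm p)| + |∫ y, F y ∂μ| := abs_sub _ _
            _ ≤ _ := by linarith [hB p]
    rw [hexp]
    have hinner : ∀ y, ∫ x, Real.exp (t * (f' y x - ∫ y, F y ∂μ)) ∂ν
        ≤ Real.exp (t * (F y - ∫ y, F y ∂μ)) * Real.exp (N * c ^ 2 * t ^ 2 / 2) := by
      intro y
      have h1 := (hih y).2 t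
      have h2 : ∀ x, Real.exp (t * (f' y x - ∫ y, F y ∂μ))
          = Real.exp (t * (F y - ∫ y, F y ∂μ)) * Real.exp (t * (f' y x - F y)) := by
        intro x
        rw [← Real.exp_add]
        congr 1
        ring
      simp_rw [h2]
      rw [integral_const_mul]
      exact mul_le_mul_of_nonneg_left h1 (Real.exp_pos _).le
    have hFint : Integrable (fun y => Real.exp (t * (F y - ∫ y, F y ∂μ))) μ := by
      have h2 := hasSubgaussianMGF_of_mem_Icc (μ := μ) (X := F) (a := (∫ y, F y ∂μ) - c)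
        (b := (∫ y, F y ∂μ) + c) hFm.aemeasurable (ae_of_all _ fun x => by
          have hI := integrable_of_osc μ F hFm c hFosc
          have h1 : |F x - ∫ y, F y ∂μ| ≤ c := by
            have : F x - ∫ y, F y ∂μ = ∫ y, (F x - F y) ∂μ := by
              rw [integral_sub (integrable_const _) hI]; simp
            rw [this]
            calc |∫ y, (F x - F y) ∂μ| ≤ ∫ y, |F x - F y| ∂μ := abs_integral_le_integral_abs
              _ ≤ ∫ _, c ∂μ := by
                refine integral_mono ((integrable_const _).sub hI).abs (integrable_const _)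
                  fun y => hFosc x y
              _ = c := by simp
          rw [abs_le] at h1
          constructor <;> linarith [h1.1, h1.2])
      exact h2.integrable_exp_mul t
    calc ∫ y, ∫ x, Real.exp (t * (f' y x - ∫ y, F y ∂μ)) ∂ν ∂μ
        ≤ ∫ y, Real.exp (t * (F y - ∫ y, F y ∂μ)) * Real.exp (N * c ^ 2 * t ^ 2 / 2) ∂μ := by
          refine integral_mono_of_nonneg (ae_of_all _ fun y =>
            integral_nonneg fun x => (Real.exp_pos _).le) (hFint.mul_const _)
            (ae_of_all _ hinner)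
      _ = (∫ y, Real.exp (t * (F y - ∫ y, F y ∂μ)) ∂μ) * Real.exp (N * c ^ 2 * t ^ 2 / 2) :=
          integral_mul_const _ _
      _ ≤ Real.exp (c ^ 2 * t ^ 2 / 2) * Real.exp (N * c ^ 2 * t ^ 2 / 2) :=
          mul_le_mul_of_nonneg_right (hoeffding_osc μ F hFm c hc0 hFosc t) (Real.exp_pos _).le
      _ = Real.exp ((N + 1 : ℕ) * c ^ 2 * t ^ 2 / 2) := by
          rw [← Real.exp_add]
          congr 1
          push_cast
          ring

/-- **McDiarmid's inequality**, moment generating function form. -/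
theorem mcdiarmid (μ : Measure Ω) [IsProbabilityMeasure μ] (N : ℕ)
    (f : (Fin N → Ω) → ℝ) (hf : Measurable f) (c : ℝ≥0)
    (hc : ∀ (x : Fin N → Ω) (j : Fin N) (y : Ω), |f (Function.update x j y) - f x| ≤ c) :
    HasSubgaussianMGF (fun x => f x - ∫ y, f y ∂(Measure.pi fun _ : Fin N => μ))
      (N * c ^ 2) (Measure.pi fun _ : Fin N => μ) := by
  obtain ⟨h1, h2⟩ := mcdiarmid_aux μ c c.2 N f hf hc
  refine ⟨fun t => ?_, fun t => ?_⟩
  · set ν := Measure.pi fun _ : Fin N => μ
    have hI := integrable_of_osc ν f hf _ h1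
    have hm : Measurable (fun x => Real.exp (t * (f x - ∫ y, f y ∂ν))) :=
      Real.measurable_exp.comp (measurable_const.mul (hf.sub measurable_const))
    refine Integrable.of_bound hm.aestronglyMeasurable
      (Real.exp (|t| * (N * c))) (ae_of_all _ fun x => ?_)
    rw [Real.norm_eq_abs, abs_of_pos (Real.exp_pos _), Real.exp_le_exp]
    have h3 : |f x - ∫ y, f y ∂ν| ≤ N * c := by
      have : f x - ∫ y, f y ∂ν = ∫ y, (f x - f y) ∂ν := by
        rw [integral_sub (integrable_const _) hI]; simp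
      rw [this]
      calc |∫ y, (f x - f y) ∂ν| ≤ ∫ y, |f x - f y| ∂ν := abs_integral_le_integral_abs
        _ ≤ ∫ _, (N * c : ℝ) ∂ν := by
          refine integral_mono ((integrable_const _).sub hI).abs (integrable_const _)
            fun y => h1 x y
        _ = N * c := by simp
    calc t * (f x - ∫ y, f y ∂ν) ≤ |t * (f x - ∫ y, f y ∂ν)| := le_abs_self _
      _ = |t| * |f x - ∫ y, f y ∂ν| := abs_mul _ _
      _ ≤ _ := mul_le_mul_of_nonneg_left h3 (abs_nonneg _)
  · have := h2 t
    unfold mgf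
    convert this using 2
    push_cast
    ring

theorem mcdiarmid_tail (μ : Measure Ω) [IsProbabilityMeasure μ] (N : ℕ)
    (f : (Fin N → Ω) → ℝ) (hf : Measurable f) (c : ℝ≥0)
    (hc : ∀ (x : Fin N → Ω) (j : Fin N) (y : Ω), |f (Function.update x j y) - f x| ≤ c)
    (ε : ℝ) (hε : 0 ≤ ε) :
    (Measure.pi fun _ : Fin N => μ).real
      {x | ε ≤ |f x - ∫ y, f y ∂(Measure.pi fun _ : Fin N => μ)|}
      ≤ 2 * Real.exp (- ε ^ 2 / (2 * (N * (c : ℝ) ^ 2))) := by
  have h := mcdiarmid μ N f hf c hc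
  have h1 := h.measure_ge_le hε
  have h2 := h.neg.measure_ge_le hε
  push_cast at h1 h2
  set ν := Measure.pi fun _ : Fin N => μ
  have hsub : {x | ε ≤ |f x - ∫ y, f y ∂ν|} ⊆
      {x | ε ≤ f x - ∫ y, f y ∂ν} ∪ {x | ε ≤ (-fun x => f x - ∫ y, f y ∂ν) x} := by
    intro x hx
    simp only [Set.mem_ofPred_eq, Set.mem_union, Pi.neg_apply] at hx ⊢
    rcases le_abs.mp hx with h | h
    · exact Or.inl h
    · exact Or.inr h
  calc ν.real {x | ε ≤ |f x - ∫ y, f y ∂ν|}
      ≤ ν.real ({x | ε ≤ f x - ∫ y, f y ∂ν} ∪ {x | ε ≤ (-fun x => f x - ∫ y, f y ∂ν) x}) :=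
        measureReal_mono hsub
    _ ≤ ν.real {x | ε ≤ f x - ∫ y, f y ∂ν} + ν.real {x | ε ≤ (-fun x => f x - ∫ y, f y ∂ν) x} :=
        measureReal_union_le _ _
    _ ≤ _ := by linarith

theorem one_add_le_cosh (x : ℝ) : 1 + x ^ 2 / 2 ≤ Real.cosh x := by
  have h1 : Real.cosh x = 1 + 2 * Real.sinh (x / 2) ^ 2 := by
    have h2 := Real.cosh_two_mul (x / 2)
    have h3 := Real.cosh_sq (x / 2)
    rw [show 2 * (x / 2) = x by ring] at h2
    rw [h2, h3]
    ring
  have h4 : (x / 2) ^ 2 ≤ Real.sinh (x / 2) ^ 2 := by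
    rcases le_total 0 (x / 2) with h | h
    · have := Real.self_le_sinh_iff.mpr h
      nlinarith
    · have := Real.sinh_le_self_iff.mpr h
      nlinarith
  rw [h1]
  nlinarith

theorem mcdiarmid_var (μ : Measure Ω) [IsProbabilityMeasure μ] (N : ℕ)
    (f : (Fin N → Ω) → ℝ) (hf : Measurable f) (c : ℝ≥0)
    (hc : ∀ (x : Fin N → Ω) (j : Fin N) (y : Ω), |f (Function.update x j y) - f x| ≤ c) :
    ∫ x, (f x - ∫ y, f y ∂(Measure.pi fun _ : Fin N => μ)) ^ 2 ∂(Measure.pi fun _ : Fin N => μ)
      ≤ 2 * (N * (c : ℝ) ^ 2) := by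
  have h := mcdiarmid μ N f hf c hc
  obtain ⟨hosc, -⟩ := mcdiarmid_aux μ c c.2 N f hf hc
  set ν := Measure.pi fun _ : Fin N => μ
  set m := ∫ y, f y ∂ν
  rcases eq_or_lt_of_le (show (0 : ℝ) ≤ N * (c : ℝ) ^ 2 by positivity) with h0 | h0
  · -- degenerate case
    have hNc : (N : ℝ) * c = 0 := by
      rcases mul_eq_zero.mp h0.symm with h1 | h1
      · rw [h1]; ring
      · have : (c : ℝ) = 0 := by simpa using h1
        rw [this]; ring
    have hconst : ∀ x y, f x = f y := by
      intro x y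
      have := hosc x y
      rw [hNc] at this
      have := abs_nonpos_iff.mp this
      linarith
    have : ∀ x, f x - m = 0 := by
      intro x
      have h1 : m = f x := by
        show ∫ y, f y ∂ν = f x
        rw [integral_congr_ae (g := fun _ => f x) (ae_of_all _ fun y => hconst y x)]
        simp
      rw [h1]; ring
    simp only [this]
    rw [← h0]
    simp
  · set V := (N : ℝ) * (c : ℝ) ^ 2
    set t := 1 / Real.sqrt V with ht
    have hsV : 0 < Real.sqrt V := Real.sqrt_pos.mpr h0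
    have ht2 : t ^ 2 = 1 / V := by
      rw [ht, div_pow, one_pow, Real.sq_sqrt h0.le]
    have key : ∀ x : ℝ, x ^ 2 ≤ V * (Real.exp (t * x) + Real.exp (-t * x) - 2) := by
      intro x
      have h1 : 2 + (t * x) ^ 2 ≤ Real.exp (t * x) + Real.exp (-t * x) := by
        have h2 := Real.cosh_eq (t * x)
        have h3 : 1 + (t * x) ^ 2 / 2 ≤ Real.cosh (t * x) := by
          exact one_add_le_cosh (t * x)
        rw [h2] at h3
        have h4 : Real.exp (-t * x) = Real.exp (-(t * x)) := by ring_nf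
        rw [h4]
        linarith
      have h5 : V * (t * x) ^ 2 = x ^ 2 := by
        rw [mul_pow, ht2]; field_simp
      nlinarith
    have i1 := h.integrable_exp_mul t
    have i2 := h.integrable_exp_mul (-t)
    have m1 := h.mgf_le t
    have m2 := h.mgf_le (-t)
    unfold mgf at m1 m2
    have hle : ∫ x, (f x - m) ^ 2 ∂ν ≤
        ∫ x, V * (Real.exp (t * (f x - m)) + Real.exp (-t * (f x - m)) - 2) ∂ν := by
      refine integral_mono_of_nonneg (ae_of_all _ fun x => sq_nonneg _)
        (((i1.add i2).sub (integrable_const _)).const_mul _) (ae_of_all _ fun x => key _)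
    refine hle.trans ?_
    have i12 : Integrable (fun x => Real.exp (t * (f x - m)) + Real.exp (-t * (f x - m))) ν :=
      i1.add i2
    rw [integral_const_mul, integral_sub i12 (integrable_const _), integral_add i1 i2]
    have hV : (((N : ℝ≥0) * c ^ 2 : ℝ≥0) : ℝ) = V := by push_cast; rfl
    rw [hV] at m1 m2
    have e1 : V * t ^ 2 / 2 = 1 / 2 := by rw [ht2]; field_simp
    have e2 : V * (-t) ^ 2 / 2 = 1 / 2 := by rw [neg_sq, ht2]; field_simp
    rw [e1] at m1
    rw [e2] at m2
    have hexp : Real.exp (1 / 2) ≤ 2 := by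
      have h1 : Real.exp (1 / 2) ^ 2 = Real.exp 1 := by
        rw [← Real.exp_nat_mul]; norm_num
      have h2 := Real.exp_one_lt_d9
      nlinarith [Real.exp_pos (1 / 2 : ℝ)]
    have : ∫ x, (2 : ℝ) ∂ν = 2 := by simp
    rw [this]
    nlinarith

end Pool.Agent.helper97.GUE
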