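import Mathlib

set_option autoImplicit false
open MeasureTheory ProbabilityTheory Filter Topology
open scoped NNReal ENNReal Matrix ComplexOrder

namespace Pool.Agent.helper97.GUE

/-- rank non-decreasing family: `dim (∑ a_i V) ≥ dim V` for every subspace `V` -/
def RND {κ ν : Type*} [Fintype κ] [DecidableEq κ] (a : ν → Matrix κ κ ℂ) : Prop :=
  ∀ V : Submodule ℂ (κ → ℂ),
    Module.finrank ℂ V ≤ Module.finrank ℂ (⨆ i, V.map (Matrix.toLin' (a i)) : Submodule ℂ (κ → ℂ))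

/-- strictly rank increasing on proper subspaces -/
def Irr {κ ν : Type*} [Fintype κ] [DecidableEq κ] (a : ν → Matrix κ κ ℂ) : Prop :=
  RND a ∧ ∀ V : Submodule ℂ (κ → ℂ), V ≠ ⊥ → V ≠ ⊤ →
    Module.finrank ℂ V < Module.finrank ℂ (⨆ i, V.map (Matrix.toLin' (a i)) : Submodule ℂ (κ → ℂ))

/-- Kronecker sum `∑ a_i ⊗ X_i` -/
noncomputable def ksum {κ ν ι : Type*} [Fintype ν] (a : ν → Matrix κ κ ℂ) (X : ν → Matrix ι ι ℂ) :
    Matrix (κ × ι) (κ × ι) ℂ :=
  ∑ i, Matrix.kronecker (a i) (X i)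

/-- the capacity as in the frozen statement -/
noncomputable def cap {κ ν : Type*} [Fintype κ] [DecidableEq κ] [Fintype ν]
    (a : ν → Matrix κ κ ℂ) : ℝ :=
  sInf {c : ℝ | ∃ b : Matrix κ κ ℂ, b.PosDef ∧ c = (∑ i, a i * b * (a i)ᴴ).det.re / b.det.re}

/-- `Q` is polynomial of degree at most `d` along every complex line -/
def DegLE {κ : Type*} (Q : (κ → ℂ) → ℂ) (d : ℕ) : Prop :=
  ∀ x y : κ → ℂ, ∃ P : Polynomial ℂ, P.natDegree ≤ d ∧ ∀ t : ℂ, Q (x + t • y) = P.eval t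

end Pool.Agent.helper97.GUE
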