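import Mathlib
import Pool.Agent.helper97.GUE.Defs

set_option autoImplicit false
set_option linter.unusedSectionVars false
set_option linter.unusedSimpArgs false
open MeasureTheory ProbabilityTheory Filter Topology
open scoped NNReal ENNReal Matrix ComplexOrder

namespace Pool.Agent.helper97.GUE

/-- coordinates of the Gaussian model: group `j`, matrix number `i`, column `k`, real/imaginary -/
abbrev Idx (ν : Type*) (N : ℕ) := Fin N × (ν × Fin N × Bool)

/-- the standard Gaussian measure on the coordinates -/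
noncomputable def gm (ν : Type*) [Fintype ν] (N : ℕ) : Measure (Idx ν N → ℝ) :=
  Measure.pi fun _ => gaussianReal 0 1

instance (ν : Type*) [Fintype ν] (N : ℕ) : IsProbabilityMeasure (gm ν N) := by
  unfold gm; infer_instance

/-- the Hermitian matrices multiplying the real Gaussian coordinates -/
noncomputable def hb (N : ℕ) (j k : Fin N) (b : Bool) : Matrix (Fin N) (Fin N) ℂ :=
  if k < j then
    (if b then (Complex.I / (Real.sqrt (2 * N) : ℂ)) • (Matrix.single j k 1 - Matrix.single k j 1)
      else (1 / (Real.sqrt (2 * N) : ℂ)) • (Matrix.single j k 1 + Matrix.single k j 1))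
  else if k = j then
    (if b then 0 else (1 / (Real.sqrt N : ℂ)) • Matrix.single j j 1)
  else 0

theorem hb_isHermitian (N : ℕ) (j k : Fin N) (b : Bool) : (hb N j k b).IsHermitian := by
  unfold hb Matrix.IsHermitian
  split_ifs
  · rw [Matrix.conjTranspose_smul, Matrix.conjTranspose_sub, Matrix.conjTranspose_single,
      Matrix.conjTranspose_single]
    simp only [star_one, RCLike.star_def, map_div₀, Complex.conj_I, Complex.conj_ofReal]
    rw [← neg_sub (Matrix.single j k (1 : ℂ)) (Matrix.single k j 1), neg_div, neg_smul_neg]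
  · rw [Matrix.conjTranspose_smul, Matrix.conjTranspose_add, Matrix.conjTranspose_single,
      Matrix.conjTranspose_single]
    simp only [star_one, RCLike.star_def, map_div₀, map_one, Complex.conj_ofReal]
    rw [add_comm]
  · exact Matrix.conjTranspose_zero
  · rw [Matrix.conjTranspose_smul, Matrix.conjTranspose_single]
    simp only [star_one, RCLike.star_def, map_div₀, map_one, Complex.conj_ofReal]
  · exact Matrix.conjTranspose_zero

theorem sum_pair {N : ℕ} {M : Type*} [AddCommMonoid M] (f : Fin N → Fin N → M) :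
    ∑ j, ∑ k, (if k < j then f j k + f k j else if k = j then f j j else 0)
      = ∑ j, ∑ k, f j k := by
  have h1 : ∀ j k : Fin N, (if k < j then f j k + f k j else if k = j then f j j else 0)
      = (if k < j then f j k else 0) + (if k < j then f k j else 0)
        + (if k = j then f j k else 0) := by
    intro j k
    rcases lt_trichotomy k j with h | h | h
    · simp [h, h.ne]
    · subst h; simp
    · simp [h.not_gt, h.ne']
  simp_rw [h1, Finset.sum_add_distrib]
  have h2 : ∑ j, ∑ k, (if k < j then f k j else 0) = ∑ j, ∑ k, (if j < k then f j k else 0) := by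
    rw [Finset.sum_comm]
  rw [h2, ← Finset.sum_add_distrib, ← Finset.sum_add_distrib]
  refine Finset.sum_congr rfl fun j _ => ?_
  rw [← Finset.sum_add_distrib, ← Finset.sum_add_distrib]
  refine Finset.sum_congr rfl fun k _ => ?_
  rcases lt_trichotomy k j with h | h | h
  · simp [h, h.ne, h.not_gt]
  · subst h; simp
  · simp [h.not_gt, h.ne', h]

theorem hb_sum (N : ℕ) (p q r s : Fin N) :
    ∑ j, ∑ k, ∑ b, hb N j k b p q * hb N j k b r s
      = if p = s ∧ q = r then (1 / (N : ℂ)) else 0 := by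
  have hN : 0 < N := Fin.pos p
  have hN' : (0 : ℝ) < N := by exact_mod_cast hN
  have hs2 : ((Real.sqrt (2 * N) : ℝ) : ℂ) ^ 2 = 2 * N := by
    rw [← Complex.ofReal_pow, Real.sq_sqrt (by positivity)]; push_cast; ring
  have hs1 : ((Real.sqrt N : ℝ) : ℂ) ^ 2 = N := by
    rw [← Complex.ofReal_pow, Real.sq_sqrt (by positivity)]; push_cast; ring
  have h2 : ((Real.sqrt (2 * N) : ℝ) : ℂ) ≠ 0 := by
    intro h; rw [h] at hs2
    have : (2 * (N : ℂ)) = 0 := by rw [← hs2]; ring
    have h3 : (N : ℂ) = 0 := by simpa using this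
    exact hN.ne' (by exact_mod_cast h3)
  have h1 : ((Real.sqrt N : ℝ) : ℂ) ≠ 0 := by
    intro h; rw [h] at hs1
    have : ((N : ℂ)) = 0 := by rw [← hs1]; ring
    exact hN.ne' (by exact_mod_cast this)
  have hNc : (N : ℂ) ≠ 0 := by exact_mod_cast hN.ne'
  set E : Fin N → Fin N → Fin N → Fin N → ℂ := fun j k p q => Matrix.single j k (1 : ℂ) p q with hE
  have key : ∀ j k : Fin N, ∑ b, hb N j k b p q * hb N j k b r s
      = (if k < j then (1 / (N : ℂ)) * (E j k p q * E k j r s) + (1 / (N : ℂ)) * (E k j p q * E j k r s)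
          else if k = j then (1 / (N : ℂ)) * (E j j p q * E j j r s) else 0) := by
    intro j k
    rw [Fintype.sum_bool]
    unfold hb
    by_cases hkj : k < j
    · simp only [hkj, if_true, Matrix.smul_apply, Matrix.sub_apply, Matrix.add_apply, smul_eq_mul,
        Bool.false_eq_true, if_false]
      simp only [hE]
      generalize (Matrix.single j k (1 : ℂ) p q) = x
      generalize (Matrix.single k j (1 : ℂ) p q) = y
      generalize (Matrix.single j k (1 : ℂ) r s) = z
      generalize (Matrix.single k j (1 : ℂ) r s) = w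
      generalize ((Real.sqrt (2 * N) : ℝ) : ℂ) = t at hs2 h2
      have e1 : Complex.I / t * (x - y) * (Complex.I / t * (z - w))
          = (Complex.I ^ 2) / t ^ 2 * ((x - y) * (z - w)) := by ring
      have e2 : 1 / t * (x + y) * (1 / t * (z + w)) = 1 / t ^ 2 * ((x + y) * (z + w)) := by ring
      rw [e1, e2, hs2, Complex.I_sq]
      field_simp
      ring
    · by_cases hkj' : k = j
      · simp only [hkj', lt_irrefl, if_false, if_true, Matrix.smul_apply, smul_eq_mul,
          Bool.false_eq_true, Matrix.zero_apply, zero_mul, zero_add]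
        simp only [hE]
        generalize (Matrix.single j j (1 : ℂ) p q) = x
        generalize (Matrix.single j j (1 : ℂ) r s) = z
        generalize ((Real.sqrt N : ℝ) : ℂ) = t at hs1 h1
        have e1 : 1 / t * x * (1 / t * z) = 1 / t ^ 2 * (x * z) := by ring
        rw [e1, hs1]
      · simp [hkj, hkj']
  simp_rw [key]
  rw [sum_pair (fun j k => (1 / (N : ℂ)) * (E j k p q * E k j r s))]
  simp only [hE, Matrix.single_apply]
  by_cases h : p = s ∧ q = r
  · rw [if_pos h]
    obtain ⟨rfl, rfl⟩ := h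
    rw [Finset.sum_eq_single p, Finset.sum_eq_single q]
    · simp
    · intro b _ hb
      simp [hb]
    · simp
    · intro b _ hb
      apply Finset.sum_eq_zero
      intro k _
      simp [hb]
    · simp
  · rw [if_neg h]
    apply Finset.sum_eq_zero
    intro j _
    apply Finset.sum_eq_zero
    intro k _
    by_cases h3 : j = p ∧ k = q
    · by_cases h4 : k = r ∧ j = s
      · exact absurd ⟨h3.1.symm.trans h4.2, h3.2.symm.trans h4.1⟩ h
      · simp [h4]
    · simp [h3]

/-- the family of matrices with (complex) coordinates `z` -/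
noncomputable def gue {ν : Type*} (N : ℕ) (z : Idx ν N → ℂ) (i : ν) :
    Matrix (Fin N) (Fin N) ℂ :=
  ∑ j, ∑ k, ∑ b, z (j, i, k, b) • hb N j k b

variable {κ ν : Type*} [Fintype κ] [DecidableEq κ] [Fintype ν]

/-- coefficient matrices of the Kronecker sum -/
noncomputable def Bc (a : ν → Matrix κ κ ℂ) (N : ℕ) (c : Idx ν N) :
    Matrix (κ × Fin N) (κ × Fin N) ℂ :=
  Matrix.kronecker (a c.2.1) (hb N c.1 c.2.2.1 c.2.2.2)

omit [Fintype κ] [DecidableEq κ] in
theorem ksum_gue (a : ν → Matrix κ κ ℂ) (N : ℕ) (z : Idx ν N → ℂ) :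
    ksum a (gue N z) = ∑ c, z c • Bc a N c := by
  unfold ksum gue Bc
  rw [Fintype.sum_prod_type]
  simp_rw [Fintype.sum_prod_type]
  rw [Finset.sum_comm]
  refine Finset.sum_congr rfl fun i _ => ?_
  ext ⟨x, p⟩ ⟨y, q⟩
  simp only [Matrix.kronecker, Matrix.kroneckerMap_apply, Matrix.sum_apply, Matrix.smul_apply,
    smul_eq_mul, Finset.mul_sum]
  refine Finset.sum_congr rfl fun j _ => Finset.sum_congr rfl fun k _ =>
    Finset.sum_congr rfl fun b _ => ?_
  ring

omit [Fintype κ] [DecidableEq κ] [Fintype ν] in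
theorem Bc_isHermitian (a : ν → Matrix κ κ ℂ) (ha : ∀ i, (a i).IsHermitian) (N : ℕ)
    (c : Idx ν N) : (Bc a N c).IsHermitian := by
  unfold Bc Matrix.IsHermitian
  rw [Matrix.kronecker, Matrix.conjTranspose_kronecker, (ha _).eq, (hb_isHermitian _ _ _ _).eq]

/-- normalised partial trace -/
noncomputable def ptr {N : ℕ} (G : Matrix (κ × Fin N) (κ × Fin N) ℂ) : Matrix κ κ ℂ :=
  Matrix.of fun α β => (1 / (N : ℂ)) * ∑ k, G (α, k) (β, k)

theorem sum_Bc_mul (a : ν → Matrix κ κ ℂ) (N : ℕ) (G : Matrix (κ × Fin N) (κ × Fin N) ℂ) :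
    ∑ c, Bc a N c * G * Bc a N c
      = Matrix.kronecker (∑ i, a i * ptr G * a i) (1 : Matrix (Fin N) (Fin N) ℂ) := by
  ext ⟨α, p⟩ ⟨β, s⟩
  have h1 : ∀ c : Idx ν N, (Bc a N c * G * Bc a N c) (α, p) (β, s)
      = ∑ y : κ × Fin N, ∑ x : κ × Fin N,
        a c.2.1 α x.1 * a c.2.1 y.1 β * G x y *
          (hb N c.1 c.2.2.1 c.2.2.2 p x.2 * hb N c.1 c.2.2.1 c.2.2.2 y.2 s) := by
    intro c
    simp only [Matrix.mul_apply, Bc, Matrix.kronecker, Matrix.kroneckerMap_apply, Finset.sum_mul]
    refine Finset.sum_congr rfl fun y _ => Finset.sum_congr rfl fun x _ => ?_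
    ring
  have h2 : ∀ (i : ν) (q r : Fin N), ∑ j, ∑ t : Fin N × Bool,
      hb N j t.1 t.2 p q * hb N j t.1 t.2 r s = if p = s ∧ q = r then (1 / (N : ℂ)) else 0 := by
    intro i q r
    rw [← hb_sum]
    refine Finset.sum_congr rfl fun j _ => ?_
    rw [Fintype.sum_prod_type]
  rw [Matrix.sum_apply]
  simp_rw [h1]
  rw [Fintype.sum_prod_type]
  simp_rw [Fintype.sum_prod_type (γ := ℂ) (α₁ := ν)]
  rw [Finset.sum_comm]
  have h3 : ∀ i : ν, ∑ j : Fin N, ∑ t : Fin N × Bool, ∑ y : κ × Fin N, ∑ x : κ × Fin N,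
      a i α x.1 * a i y.1 β * G x y * (hb N j t.1 t.2 p x.2 * hb N j t.1 t.2 y.2 s)
      = ∑ y : κ × Fin N, ∑ x : κ × Fin N, a i α x.1 * a i y.1 β * G x y *
          (if p = s ∧ x.2 = y.2 then (1 / (N : ℂ)) else 0) := by
    intro i
    have h4 : ∀ j : Fin N, ∑ t : Fin N × Bool, ∑ y : κ × Fin N, ∑ x : κ × Fin N,
      a i α x.1 * a i y.1 β * G x y * (hb N j t.1 t.2 p x.2 * hb N j t.1 t.2 y.2 s)
      = ∑ y : κ × Fin N, ∑ x : κ × Fin N, a i α x.1 * a i y.1 β * G x y *
        ∑ t : Fin N × Bool, (hb N j t.1 t.2 p x.2 * hb N j t.1 t.2 y.2 s) := by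
      intro j
      rw [Finset.sum_comm]
      refine Finset.sum_congr rfl fun y _ => ?_
      rw [Finset.sum_comm]
      refine Finset.sum_congr rfl fun x _ => ?_
      rw [Finset.mul_sum]
    simp_rw [h4]
    rw [Finset.sum_comm]
    refine Finset.sum_congr rfl fun y _ => ?_
    rw [Finset.sum_comm]
    refine Finset.sum_congr rfl fun x _ => ?_
    rw [← Finset.mul_sum, h2 i]
  rw [Matrix.kronecker, Matrix.kroneckerMap_apply, Matrix.sum_apply, Finset.sum_mul]
  refine Finset.sum_congr rfl fun i _ => ?_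
  refine (h3 i).trans ?_
  rw [Matrix.one_apply]
  by_cases hps : p = s
  · simp only [hps, true_and, if_true, mul_one]
    rw [Matrix.mul_apply, Fintype.sum_prod_type]
    refine Finset.sum_congr rfl fun δ _ => ?_
    rw [Matrix.mul_apply, Finset.sum_mul]
    simp_rw [Fintype.sum_prod_type]
    rw [Finset.sum_comm]
    refine Finset.sum_congr rfl fun γ _ => ?_
    simp only [ptr, Matrix.of_apply, Finset.mul_sum, Finset.sum_mul]
    refine Finset.sum_congr rfl fun r _ => ?_
    rw [Finset.sum_eq_single r]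
    · simp only [if_true]; ring
    · intro b _ hb; simp [hb]
    · simp
  · simp [hps]

theorem ptr_kron_mul {N : ℕ} (b : Matrix κ κ ℂ) (G : Matrix (κ × Fin N) (κ × Fin N) ℂ) :
    ptr (Matrix.kronecker b (1 : Matrix (Fin N) (Fin N) ℂ) * G) = b * ptr G := by
  ext α β
  simp only [ptr, Matrix.of_apply, Matrix.mul_apply, Matrix.kronecker, Matrix.kroneckerMap_apply,
    Fintype.sum_prod_type, Matrix.one_apply]
  rw [Finset.mul_sum]
  simp_rw [Finset.mul_sum]
  rw [Finset.sum_comm]
  refine Finset.sum_congr rfl fun γ _ => ?_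
  refine Finset.sum_congr rfl fun k _ => ?_
  rw [Finset.sum_eq_single k]
  · simp; ring
  · intro l _ hl; simp [hl.symm]
  · simp

theorem ptr_one {N : ℕ} (hN : 0 < N) : ptr (1 : Matrix (κ × Fin N) (κ × Fin N) ℂ) = 1 := by
  have hNc : (N : ℂ) ≠ 0 := by exact_mod_cast hN.ne'
  ext α β
  simp only [ptr, Matrix.of_apply, Matrix.one_apply, Prod.mk.injEq, and_true]
  by_cases h : α = β
  · simp [h, hNc]
  · simp [h]

theorem trace_ptr {N : ℕ} (G : Matrix (κ × Fin N) (κ × Fin N) ℂ) :
    (ptr G).trace = (1 / (N : ℂ)) * G.trace := by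
  simp only [Matrix.trace, Matrix.diag, ptr, Matrix.of_apply]
  rw [← Finset.mul_sum, Fintype.sum_prod_type]

/-! ### rank bounds -/

theorem rank_add_le' {ι : Type*} [Fintype ι] [DecidableEq ι] (A B : Matrix ι ι ℂ) :
    (A + B).rank ≤ A.rank + B.rank := by
  unfold Matrix.rank
  have h : LinearMap.range (A + B).mulVecLin ≤ LinearMap.range A.mulVecLin ⊔
      LinearMap.range B.mulVecLin := by
    rintro _ ⟨x, rfl⟩
    rw [Matrix.mulVecLin_apply, Matrix.add_mulVec]
    exact Submodule.add_mem_sup ⟨x, rfl⟩ ⟨x, rfl⟩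
  exact (Submodule.finrank_mono h).trans (Submodule.finrank_add_le_finrank_add_finrank _ _)

theorem rank_le_of_cross {ι : Type*} [Fintype ι] [DecidableEq ι] (M : Matrix ι ι ℂ)
    (P : ι → Prop) [DecidablePred P] (h : ∀ x y, ¬ P x → ¬ P y → M x y = 0) :
    M.rank ≤ 2 * Fintype.card {x // P x} := by
  set D : Matrix ι ι ℂ := Matrix.diagonal (fun x => if P x then 1 else 0) with hD
  have h1 : M = D * M + ((1 - D) * M) * D := by
    ext x y
    rw [Matrix.add_apply, hD, Matrix.diagonal_mul, Matrix.mul_diagonal, Matrix.sub_mul,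
      Matrix.one_mul, Matrix.sub_apply, Matrix.diagonal_mul]
    by_cases hx : P x <;> by_cases hy : P y
    · simp [hx]
    · simp [hx]
    · simp [hx, hy]
    · simp [hx, hy, h x y hx hy]
  have h2 : D.rank = Fintype.card {x // P x} := by
    rw [hD, Matrix.rank_diagonal]
    apply Fintype.card_congr
    apply Equiv.subtypeEquivRight
    intro x
    by_cases hx : P x <;> simp [hx]
  rw [h1]
  refine (rank_add_le' _ _).trans ?_
  have h3 := Matrix.rank_mul_le_left D M
  have h4 := Matrix.rank_mul_le_right ((1 - D) * M) D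
  omega

theorem hb_apply_eq_zero (N : ℕ) (j k : Fin N) (b : Bool) (p q : Fin N) (hp : p ≠ j)
    (hq : q ≠ j) : hb N j k b p q = 0 := by
  unfold hb
  split_ifs <;> simp [Matrix.single_apply, hp.symm, hq.symm]

theorem gue_congr (N : ℕ) (z z' : Idx ν N → ℂ) (i : ν) (p q : Fin N)
    (h : ∀ c : Idx ν N, c.1 = p ∨ c.1 = q → z c = z' c) : gue N z i p q = gue N z' i p q := by
  unfold gue
  simp only [Matrix.sum_apply, Matrix.smul_apply]
  refine Finset.sum_congr rfl fun j _ => Finset.sum_congr rfl fun k _ =>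
    Finset.sum_congr rfl fun b _ => ?_
  by_cases hj : j = p ∨ j = q
  · rw [h _ hj]
  · push Not at hj
    rw [hb_apply_eq_zero N j k b p q (Ne.symm hj.1) (Ne.symm hj.2)]
    simp

theorem ksum_apply {ι : Type*} (a : ν → Matrix κ κ ℂ) (X : ν → Matrix ι ι ℂ) (x y : κ × ι) :
    ksum a X x y = ∑ i, a i x.1 y.1 * X i x.2 y.2 := by
  unfold ksum
  simp [Matrix.sum_apply, Matrix.kronecker, Matrix.kroneckerMap_apply]

theorem rank_ksum_sub (a : ν → Matrix κ κ ℂ) (N : ℕ) (z z' : Idx ν N → ℂ) (j : Fin N)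
    (h : ∀ c : Idx ν N, c.1 ≠ j → z c = z' c) :
    (ksum a (gue N z) - ksum a (gue N z')).rank ≤ 2 * Fintype.card κ := by
  have h1 := rank_le_of_cross (ksum a (gue N z) - ksum a (gue N z')) (fun x => x.2 = j) (by
    intro x y hx hy
    rw [Matrix.sub_apply, ksum_apply, ksum_apply, sub_eq_zero]
    refine Finset.sum_congr rfl fun i _ => ?_
    rw [gue_congr N z z' i x.2 y.2]
    intro c hc
    apply h
    rcases hc with hc | hc
    · rw [hc]; exact hx
    · rw [hc]; exact hy)
  refine h1.trans ?_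
  have h2 : Fintype.card {x : κ × Fin N // x.2 = j} ≤ Fintype.card κ := by
    apply Fintype.card_le_of_injective (fun x => x.1.1)
    rintro ⟨⟨x, p⟩, hp⟩ ⟨⟨y, q⟩, hq⟩ hxy
    simp only at hp hq hxy
    subst hp hq hxy
    rfl
  omega

/-- entries of the model -/
theorem gue_apply_lt (N : ℕ) (z : Idx ν N → ℂ) (i : ν) (p q : Fin N) (h : q < p) :
    gue N z i p q = (z (p, i, q, false) + Complex.I * z (p, i, q, true)) / (Real.sqrt (2 * N) : ℂ) := by
  unfold gue
  simp only [Matrix.sum_apply, Matrix.smul_apply]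
  rw [Finset.sum_eq_single p, Finset.sum_eq_single q]
  · rw [Fintype.sum_bool]
    unfold hb
    simp only [h, if_true, Matrix.smul_apply, Matrix.sub_apply, Matrix.add_apply, smul_eq_mul,
        Bool.false_eq_true, if_false, Matrix.single_apply, h.ne, h.ne', and_self]
    simp
    ring
  · intro k _ hk
    rw [Fintype.sum_bool]
    unfold hb
    split_ifs <;> simp [Matrix.single_apply, hk, h.ne, h.ne']
  · simp
  · intro j _ hj
    apply Finset.sum_eq_zero
    intro k _
    rw [Fintype.sum_bool]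
    by_cases h1 : k < j
    · by_cases h3 : k = p ∧ j = q
      · exfalso
        obtain ⟨rfl, rfl⟩ := h3
        exact absurd (h.trans h1) (lt_irrefl _)
      · simp [hb, h1, Matrix.single_apply, hj, h3]
    · by_cases h2 : k = j
      · simp [hb, h2, Matrix.single_apply, hj]
      · simp [hb, h1, h2]
  · simp

theorem gue_apply_gt (N : ℕ) (z : Idx ν N → ℂ) (i : ν) (p q : Fin N) (h : p < q) :
    gue N z i p q = (z (q, i, p, false) - Complex.I * z (q, i, p, true)) / (Real.sqrt (2 * N) : ℂ) := by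
  unfold gue
  simp only [Matrix.sum_apply, Matrix.smul_apply]
  rw [Finset.sum_eq_single q, Finset.sum_eq_single p]
  · rw [Fintype.sum_bool]
    unfold hb
    simp only [h, if_true, Matrix.smul_apply, Matrix.sub_apply, Matrix.add_apply, smul_eq_mul,
        Bool.false_eq_true, if_false, Matrix.single_apply, h.ne, h.ne', and_self]
    simp
    ring
  · intro k _ hk
    rw [Fintype.sum_bool]
    unfold hb
    split_ifs <;> simp [Matrix.single_apply, hk, h.ne, h.ne']
  · simp
  · intro j _ hj
    apply Finset.sum_eq_zero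
    intro k _
    rw [Fintype.sum_bool]
    by_cases h1 : k < j
    · by_cases h3 : j = p ∧ k = q
      · exfalso
        obtain ⟨rfl, rfl⟩ := h3
        exact absurd (h.trans h1) (lt_irrefl _)
      · simp [hb, h1, Matrix.single_apply, hj, h3]
    · by_cases h4 : j = p ∧ j = q
      · exact absurd h4.2 hj
      · by_cases h2 : k = j
        · simp [hb, h2, Matrix.single_apply, h4]
        · simp [hb, h1, h2]
  · simp

theorem gue_apply_diag (N : ℕ) (z : Idx ν N → ℂ) (i : ν) (p : Fin N) :
    gue N z i p p = z (p, i, p, false) / (Real.sqrt N : ℂ) := by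
  unfold gue
  simp only [Matrix.sum_apply, Matrix.smul_apply]
  rw [Finset.sum_eq_single p, Finset.sum_eq_single p]
  · rw [Fintype.sum_bool]
    unfold hb
    simp [div_eq_mul_inv]
  · intro k _ hk
    rw [Fintype.sum_bool]
    unfold hb
    split_ifs <;> simp [Matrix.single_apply, hk]
  · simp
  · intro j _ hj
    apply Finset.sum_eq_zero
    intro k _
    rw [Fintype.sum_bool]
    unfold hb
    split_ifs <;> simp [Matrix.single_apply, hj]
  · simp

end Pool.Agent.helper97.GUE
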