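import Mathlib
import Pool.Agent.helper97.GUE.Model
import Pool.Agent.helper97.GUE.McDiarmid

set_option autoImplicit false
set_option linter.unusedSectionVars false
open MeasureTheory ProbabilityTheory Filter Topology
open scoped NNReal ENNReal Matrix ComplexOrder

namespace Pool.Agent.helper97.GUE

theorem measurePreserving_curry {α β : Type*} [Fintype α] [Fintype β] (γ : Measure ℝ)
    [IsProbabilityMeasure γ] :
    MeasurePreserving (MeasurableEquiv.curry α β ℝ)
      (Measure.pi fun _ : α × β => γ) (Measure.pi fun _ : α => Measure.pi fun _ : β => γ) := by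
  refine ⟨(MeasurableEquiv.curry α β ℝ).measurable, ?_⟩
  have h := Measure.infinitePi_map_curry (ι := α) (κ := β) (X := ℝ) (fun _ _ => γ)
  rw [Measure.infinitePi_eq_pi, Measure.infinitePi_eq_pi] at h
  simp_rw [Measure.infinitePi_eq_pi] at h
  exact h

variable {ν : Type*} [Fintype ν]

theorem gm_mcdiarmid_tail (N : ℕ) (f : (Idx ν N → ℝ) → ℝ) (hf : Measurable f) (c : ℝ)
    (hc0 : 0 ≤ c)
    (hc : ∀ (j : Fin N) (x y : Idx ν N → ℝ), (∀ p : Idx ν N, p.1 ≠ j → x p = y p) →
      |f x - f y| ≤ c) (ε : ℝ) (hε : 0 ≤ ε) :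
    (gm ν N).real {x | ε ≤ |f x - ∫ y, f y ∂(gm ν N)|}
      ≤ 2 * Real.exp (- ε ^ 2 / (2 * (N * c ^ 2))) := by
  set e := MeasurableEquiv.curry (Fin N) (ν × Fin N × Bool) ℝ with he
  set μ := Measure.pi fun _ : ν × Fin N × Bool => gaussianReal 0 1 with hμ
  have hmp : MeasurePreserving e (gm ν N) (Measure.pi fun _ : Fin N => μ) :=
    measurePreserving_curry _
  have h1 := mcdiarmid_tail μ N (fun x => f (e.symm x)) (hf.comp e.symm.measurable) ⟨c, hc0⟩ (by
    intro x j y
    apply hc j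
    intro p hp
    simp only [he, MeasurableEquiv.coe_curry_symm, Function.uncurry]
    rw [Function.update_of_ne hp]) ε hε
  have h2 : ∫ y, f (e.symm y) ∂(Measure.pi fun _ : Fin N => μ) = ∫ y, f y ∂(gm ν N) := by
    rw [← hmp.map_eq, integral_map_equiv]
    simp
  rw [h2] at h1
  refine le_trans (le_of_eq ?_) h1
  unfold Measure.real
  congr 1
  rw [← hmp.measure_preimage_equiv]
  congr 1

theorem gm_mcdiarmid_var (N : ℕ) (f : (Idx ν N → ℝ) → ℝ) (hf : Measurable f) (c : ℝ)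
    (hc0 : 0 ≤ c)
    (hc : ∀ (j : Fin N) (x y : Idx ν N → ℝ), (∀ p : Idx ν N, p.1 ≠ j → x p = y p) →
      |f x - f y| ≤ c) :
    ∫ x, (f x - ∫ y, f y ∂(gm ν N)) ^ 2 ∂(gm ν N) ≤ 2 * (N * c ^ 2) := by
  set e := MeasurableEquiv.curry (Fin N) (ν × Fin N × Bool) ℝ with he
  set μ := Measure.pi fun _ : ν × Fin N × Bool => gaussianReal 0 1 with hμ
  have hmp : MeasurePreserving e (gm ν N) (Measure.pi fun _ : Fin N => μ) :=
    measurePreserving_curry _
  have h1 := mcdiarmid_var μ N (fun x => f (e.symm x)) (hf.comp e.symm.measurable) ⟨c, hc0⟩ (by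
    intro x j y
    apply hc j
    intro p hp
    simp only [he, MeasurableEquiv.coe_curry_symm, Function.uncurry]
    rw [Function.update_of_ne hp])
  have h2 : ∫ y, f (e.symm y) ∂(Measure.pi fun _ : Fin N => μ) = ∫ y, f y ∂(gm ν N) := by
    rw [← hmp.map_eq, integral_map_equiv]
    simp
  rw [h2] at h1
  have h3 : ∫ x, (f (e.symm x) - ∫ y, f y ∂(gm ν N)) ^ 2 ∂(Measure.pi fun _ : Fin N => μ)
      = ∫ x, (f x - ∫ y, f y ∂(gm ν N)) ^ 2 ∂(gm ν N) := by
    rw [← hmp.map_eq, integral_map_equiv]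
    simp
  rw [h3] at h1
  exact h1

end Pool.Agent.helper97.GUE
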