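import Mathlib
import Pool.Agent.helper97.GUE.GM

set_option autoImplicit false
set_option linter.unusedSectionVars false
open MeasureTheory ProbabilityTheory Filter Topology
open scoped NNReal ENNReal Matrix ComplexOrder

namespace Pool.Agent.helper97.GUE

theorem map_div_sqrt (v : ℝ≥0) (_hv : 0 < v) :
    (gaussianReal 0 1).map (fun x : ℝ => x / Real.sqrt v) = gaussianReal 0 (1 / v) := by
  rw [gaussianReal_map_div_const]
  congr 1
  · simp
  · congr 1
    ext
    simp [Real.sq_sqrt]

theorem map_neg_div_sqrt (v : ℝ≥0) (hv : 0 < v) :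
    (gaussianReal 0 1).map (fun x : ℝ => -(x / Real.sqrt v)) = gaussianReal 0 (1 / v) := by
  have h : (gaussianReal 0 1).map (fun x : ℝ => -(x / Real.sqrt v))
      = ((gaussianReal 0 1).map (fun x : ℝ => x / Real.sqrt v)).map (fun x => -x) := by
    rw [Measure.map_map measurable_neg (by fun_prop)]
    rfl
  rw [h, map_div_sqrt v hv, gaussianReal_map_neg]
  simp

/-- law of the diagonal entries of the model -/
theorem diag_law (N : ℕ) (hN : 0 < N) :
    (Measure.pi (fun _ : Bool => gaussianReal 0 1)).map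
      (fun w : Bool → ℝ => (w false : ℂ) / (Real.sqrt N : ℂ))
      = (gaussianReal 0 (1 / (N : ℝ≥0))).map (fun x : ℝ => (x : ℂ)) := by
  have hN' : (0 : ℝ≥0) < N := by exact_mod_cast hN
  rw [← map_div_sqrt (N : ℝ≥0) hN']
  rw [Measure.map_map (by fun_prop) (by fun_prop)]
  have hmp := measurePreserving_eval (fun _ : Bool => gaussianReal 0 1) false
  conv_rhs => rw [← hmp.map_eq]
  rw [Measure.map_map (by fun_prop) hmp.measurable]
  congr 1
  ext w
  simp

/-- law of the off-diagonal entries of the model -/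
theorem offdiag_law (N : ℕ) (hN : 0 < N) :
    (Measure.pi (fun _ : Bool => gaussianReal 0 1)).map
      (fun w : Bool → ℝ => ((w false : ℂ) - Complex.I * (w true : ℂ)) / (Real.sqrt (2 * N) : ℂ))
      = ((gaussianReal 0 (1 / (2 * (N : ℝ≥0)))).prod
              (gaussianReal 0 (1 / (2 * (N : ℝ≥0))))).map
              (fun x : ℝ × ℝ => Complex.equivRealProd.symm x) := by
  have hN' : (0 : ℝ≥0) < 2 * N := by
    have : (0 : ℝ≥0) < N := by exact_mod_cast hN
    positivity
  set μ := Measure.pi (fun _ : Bool => gaussianReal 0 1) with hμ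
  have hind : iIndepFun (fun (b : Bool) (w : Bool → ℝ) => w b) μ :=
    iIndepFun_pi (X := fun _ => id) (fun _ => aemeasurable_id)
  have h1 : IndepFun (fun w : Bool → ℝ => w false / Real.sqrt ((2 * N : ℝ≥0) : ℝ))
      (fun w : Bool → ℝ => -(w true / Real.sqrt ((2 * N : ℝ≥0) : ℝ))) μ := by
    have h2 := hind.indepFun (show false ≠ true by decide)
    exact h2.comp (φ := fun x : ℝ => x / Real.sqrt ((2 * N : ℝ≥0) : ℝ))
      (ψ := fun x : ℝ => -(x / Real.sqrt ((2 * N : ℝ≥0) : ℝ))) (by fun_prop) (by fun_prop)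
  have hm1 : Measurable (fun w : Bool → ℝ => w false / Real.sqrt ((2 * N : ℝ≥0) : ℝ)) := by fun_prop
  have hm2 : Measurable (fun w : Bool → ℝ => -(w true / Real.sqrt ((2 * N : ℝ≥0) : ℝ))) := by fun_prop
  have h3 := (indepFun_iff_map_prod_eq_prod_map_map hm1.aemeasurable hm2.aemeasurable).mp h1
  have e1 : μ.map (fun w : Bool → ℝ => w false / Real.sqrt ((2 * N : ℝ≥0) : ℝ))
      = gaussianReal 0 (1 / (2 * N)) := by
    rw [← map_div_sqrt (2 * N) hN']
    have hmp := measurePreserving_eval (fun _ : Bool => gaussianReal 0 1) false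
    conv_rhs => rw [← hmp.map_eq]
    rw [Measure.map_map (by fun_prop) hmp.measurable]
    rfl
  have e2 : μ.map (fun w : Bool → ℝ => -(w true / Real.sqrt ((2 * N : ℝ≥0) : ℝ)))
      = gaussianReal 0 (1 / (2 * N)) := by
    rw [← map_neg_div_sqrt (2 * N) hN']
    have hmp := measurePreserving_eval (fun _ : Bool => gaussianReal 0 1) true
    conv_rhs => rw [← hmp.map_eq]
    rw [Measure.map_map (by fun_prop) hmp.measurable]
    rfl
  rw [e1, e2] at h3
  rw [← h3]
  have hme : Measurable (fun x : ℝ × ℝ => Complex.equivRealProd.symm x) :=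
    Complex.measurableEquivRealProd.symm.measurable
  rw [Measure.map_map hme (hm1.prodMk hm2)]
  congr 1
  ext w
  simp only [Function.comp]
  apply Complex.ext
  · rw [Complex.div_ofReal_re]
    change _ = w false / Real.sqrt ((2 * N : ℝ≥0) : ℝ)
    simp
  · rw [Complex.div_ofReal_im]
    change _ = -(w true / Real.sqrt ((2 * N : ℝ≥0) : ℝ))
    simp
    ring

/-- index set of the entries on and above the diagonal -/
abbrev JJ (n N : ℕ) := {p : Fin n × Fin N × Fin N // p.2.1 ≤ p.2.2}

/-- reconstruct the Hermitian family from its upper triangle -/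
noncomputable def recon {n N : ℕ} (f : JJ n N → ℂ) (i : Fin n) : Matrix (Fin N) (Fin N) ℂ :=
  Matrix.of fun j k => if h : j ≤ k then f ⟨(i, j, k), h⟩ else star (f ⟨(i, k, j), (not_le.mp h).le⟩)

theorem recon_eq {n N : ℕ} (Y : Fin n → Matrix (Fin N) (Fin N) ℂ) (hY : ∀ i, (Y i).IsHermitian) :
    recon (fun p : JJ n N => Y p.1.1 p.1.2.1 p.1.2.2) = Y := by
  ext i j k
  unfold recon
  simp only [Matrix.of_apply]
  split_ifs with h
  · rfl
  · have := congrFun (congrFun (hY i).eq j) k
    rw [Matrix.conjTranspose_apply] at this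
    exact this

theorem continuous_recon {n N : ℕ} : Continuous (recon (n := n) (N := N)) := by
  rw [continuous_pi_iff]
  intro i
  apply continuous_matrix
  intro j k
  unfold recon
  simp only [Matrix.of_apply]
  split_ifs with h
  · exact continuous_apply _
  · exact continuous_star.comp (continuous_apply _)

theorem gue_herm' {ν : Type*} [Fintype ν] (N : ℕ) (ξ : Idx ν N → ℝ) (i : ν) :
    (gue N (fun c => (ξ c : ℂ)) i).IsHermitian := by
  unfold gue Matrix.IsHermitian
  simp only [Matrix.conjTranspose_sum, Matrix.conjTranspose_smul]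
  refine Finset.sum_congr rfl fun j _ => Finset.sum_congr rfl fun k _ =>
    Finset.sum_congr rfl fun b _ => ?_
  rw [(hb_isHermitian N j k b).eq]
  simp

/-- the coordinate used by an entry -/
def useC {n N : ℕ} (p : JJ n N × Bool) : Idx (Fin n) N :=
  (p.1.1.2.2, p.1.1.1, p.1.1.2.1, p.2)

theorem useC_injective {n N : ℕ} : Function.Injective (useC (n := n) (N := N)) := by
  rintro ⟨⟨⟨i, j, k⟩, h⟩, b⟩ ⟨⟨⟨i', j', k'⟩, h'⟩, b'⟩ heq
  simp only [useC, Prod.mk.injEq] at heq
  obtain ⟨h1, h2, h3, h4⟩ := heq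
  subst h1 h2 h3 h4
  rfl

/-- entries of the model in terms of the used coordinates -/
noncomputable def entC {n N : ℕ} (p : JJ n N) (w : Bool → ℝ) : ℂ :=
  if p.1.2.1 = p.1.2.2 then (w false : ℂ) / (Real.sqrt N : ℂ)
  else ((w false : ℂ) - Complex.I * (w true : ℂ)) / (Real.sqrt (2 * N) : ℂ)

theorem gue_entC {n N : ℕ} (ξ : Idx (Fin n) N → ℝ) (p : JJ n N) :
    gue N (fun c => (ξ c : ℂ)) p.1.1 p.1.2.1 p.1.2.2 = entC p (fun b => ξ (useC (p, b))) := by
  obtain ⟨⟨i, j, k⟩, h⟩ := p
  simp only at h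
  unfold entC useC
  simp only
  by_cases hjk : j = k
  · subst hjk
    rw [gue_apply_diag, if_pos rfl]
  · rw [if_neg hjk, gue_apply_gt _ _ _ _ _ (lt_of_le_of_ne h hjk)]

theorem measurable_entC {n N : ℕ} (p : JJ n N) : Measurable (entC p) := by
  unfold entC
  split_ifs
  · fun_prop
  · fun_prop

theorem model_law {n N : ℕ} :
    (gm (Fin n) N).map (fun ξ (p : JJ n N) => gue N (fun c => (ξ c : ℂ)) p.1.1 p.1.2.1 p.1.2.2)
      = Measure.pi (fun p : JJ n N => (Measure.pi (fun _ : Bool => gaussianReal 0 1)).map (entC p)) := by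
  -- restriction to used coordinates
  have hr : MeasurePreserving (fun (ξ : Idx (Fin n) N → ℝ) (q : JJ n N × Bool) => ξ (useC q))
      (gm (Fin n) N) (Measure.pi fun _ : JJ n N × Bool => gaussianReal 0 1) := by
    have hmeas : ∀ q : JJ n N × Bool, Measurable fun ξ : Idx (Fin n) N → ℝ => ξ (useC q) :=
      fun q => measurable_pi_apply _
    refine ⟨measurable_pi_lambda _ hmeas, ?_⟩
    have h1 : iIndepFun (fun (c : Idx (Fin n) N) (ξ : Idx (Fin n) N → ℝ) => ξ c)
        (Measure.pi fun _ : Idx (Fin n) N => gaussianReal 0 1) :=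
      iIndepFun_pi (X := fun _ => id) (fun _ => aemeasurable_id)
    have h2 := h1.precomp (useC_injective (n := n) (N := N))
    have h3 := (iIndepFun_iff_map_fun_eq_pi_map (fun c => (hmeas c).aemeasurable)).1 h2
    unfold gm
    refine h3.trans ?_
    congr 1
    ext c : 1
    exact (measurePreserving_eval (fun _ : Idx (Fin n) N => gaussianReal 0 1) (useC c)).map_eq
  have hc := measurePreserving_curry (α := JJ n N) (β := Bool) (gaussianReal 0 1)
  have hrc := hc.comp hr
  have e1 : (fun (ξ : Idx (Fin n) N → ℝ) (p : JJ n N) => gue N (fun c => (ξ c : ℂ)) p.1.1 p.1.2.1 p.1.2.2)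
      = (fun (x : JJ n N → Bool → ℝ) (p : JJ n N) => entC p (x p)) ∘
        ((MeasurableEquiv.curry (JJ n N) Bool ℝ) ∘
          (fun (ξ : Idx (Fin n) N → ℝ) (q : JJ n N × Bool) => ξ (useC q))) := by
    ext ξ p
    rw [gue_entC]
    rfl
  rw [e1, ← Measure.map_map _ hrc.measurable, hrc.map_eq, Measure.pi_map_pi]
  · intro p
    exact (measurable_entC p).aemeasurable
  · rw [measurable_pi_iff]
    intro p
    exact (measurable_entC p).comp (measurable_pi_apply p)

/-- transfer of laws from the frozen hypotheses to the model `gm`, `gue` -/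
theorem law_transfer {n N : ℕ} {Ω : Type} [MeasurableSpace Ω] (P : Measure Ω)
    [IsProbabilityMeasure P] (X : Fin n → Ω → Matrix (Fin N) (Fin N) ℂ)
    (hH : ∀ i ω, (X i ω).IsHermitian)
    (hI : iIndepFun (fun p : {p : Fin n × Fin N × Fin N // p.2.1 ≤ p.2.2} =>
            fun ω => X p.1.1 ω p.1.2.1 p.1.2.2) P)
    (hd : ∀ i (j : Fin N), P.map (fun ω => X i ω j j)
          = (gaussianReal 0 (1 / (N : ℝ≥0))).map (fun x : ℝ => (x : ℂ)))
    (ho : ∀ i (j k : Fin N), j < k → P.map (fun ω => X i ω j k)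
          = ((gaussianReal 0 (1 / (2 * (N : ℝ≥0)))).prod
              (gaussianReal 0 (1 / (2 * (N : ℝ≥0))))).map
              (fun x : ℝ × ℝ => Complex.equivRealProd.symm x))
    (F : (Fin n → Matrix (Fin N) (Fin N) ℂ) → ℝ) (hF : Continuous F) :
    AEMeasurable (fun ω => F (fun i => X i ω)) P ∧
    P.map (fun ω => F (fun i => X i ω))
      = (gm (Fin n) N).map (fun ξ => F (gue N (fun c => (ξ c : ℂ)))) := by
  -- marginals
  have hmarg : ∀ p : JJ n N, P.map (fun ω => X p.1.1 ω p.1.2.1 p.1.2.2)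
      = (Measure.pi (fun _ : Bool => gaussianReal 0 1)).map (entC p) := by
    rintro ⟨⟨i, j, k⟩, h⟩
    have hN : 0 < N := Fin.pos j
    simp only at h ⊢
    by_cases hjk : j = k
    · subst hjk
      rw [hd i j, ← diag_law N hN]
      congr 1
      ext w
      simp [entC]
    · rw [ho i j k (lt_of_le_of_ne h hjk), ← offdiag_law N hN]
      congr 1
      ext w
      simp [entC, hjk]
  have hne : ∀ p : JJ n N, AEMeasurable (fun ω => X p.1.1 ω p.1.2.1 p.1.2.2) P := by
    intro p
    apply aemeasurable_of_map_neZero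
    rw [hmarg p]
    have : IsProbabilityMeasure ((Measure.pi (fun _ : Bool => gaussianReal 0 1)).map (entC p)) :=
      Measure.isProbabilityMeasure_map (measurable_entC p).aemeasurable
    infer_instance
  have hvec : AEMeasurable (fun ω (p : JJ n N) => X p.1.1 ω p.1.2.1 p.1.2.2) P :=
    aemeasurable_pi_lambda _ hne
  have hlawP : P.map (fun ω (p : JJ n N) => X p.1.1 ω p.1.2.1 p.1.2.2)
      = (gm (Fin n) N).map (fun ξ (p : JJ n N) => gue N (fun c => (ξ c : ℂ)) p.1.1 p.1.2.1 p.1.2.2) := by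
    rw [model_law, (iIndepFun_iff_map_fun_eq_pi_map hne).mp hI]
    congr 1
    ext1 p
    exact hmarg p
  have hFr : Measurable (fun f : JJ n N → ℂ => F (recon f)) := (hF.comp continuous_recon).measurable
  have e1 : (fun ω => F (fun i => X i ω))
      = (fun f : JJ n N → ℂ => F (recon f)) ∘ (fun ω (p : JJ n N) => X p.1.1 ω p.1.2.1 p.1.2.2) := by
    ext ω
    simp only [Function.comp]
    rw [recon_eq (fun i => X i ω) (fun i => hH i ω)]
  have e2 : (fun ξ : Idx (Fin n) N → ℝ => F (gue N (fun c => (ξ c : ℂ))))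
      = (fun f : JJ n N → ℂ => F (recon f)) ∘
        (fun ξ (p : JJ n N) => gue N (fun c => (ξ c : ℂ)) p.1.1 p.1.2.1 p.1.2.2) := by
    ext ξ
    simp only [Function.comp]
    rw [recon_eq (gue N (fun c => (ξ c : ℂ))) (fun i => gue_herm' N ξ i)]
  constructor
  · rw [e1]
    exact hFr.comp_aemeasurable hvec
  · rw [e1, e2, ← AEMeasurable.map_map_of_aemeasurable hFr.aemeasurable hvec, hlawP,
      Measure.map_map hFr]
    rw [measurable_pi_iff]
    intro p
    simp_rw [gue_entC]
    exact (measurable_entC p).comp (measurable_pi_lambda _ fun b => measurable_pi_apply _)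

end Pool.Agent.helper97.GUE
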