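import Mathlib

set_option autoImplicit false
open MeasureTheory ProbabilityTheory Filter Topology
open scoped NNReal ENNReal Matrix ComplexOrder
open scoped Matrix.Norms.L2Operator

namespace Pool.Agent.helper97.GUE

variable {ι : Type*} [Fintype ι] [DecidableEq ι]

theorem toLp_norm_sq (x : ι → ℂ) :
    ‖(WithLp.toLp 2 x : EuclideanSpace ℂ ι)‖ ^ 2 = (star x ⬝ᵥ x).re := by
  rw [EuclideanSpace.norm_sq_eq]
  simp only [dotProduct, Pi.star_apply, Complex.re_sum, RCLike.star_def]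
  refine Finset.sum_congr rfl fun i _ => ?_
  rw [← Complex.normSq_eq_conj_mul_self, Complex.normSq_eq_norm_sq, Complex.ofReal_re]

theorem norm_le_of_dot (M : Matrix ι ι ℂ) (c : ℝ) (hc : 0 ≤ c)
    (h : ∀ x : ι → ℂ, (star (M *ᵥ x) ⬝ᵥ (M *ᵥ x)).re ≤ c ^ 2 * (star x ⬝ᵥ x).re) : ‖M‖ ≤ c := by
  rw [← Matrix.l2_opNorm_toEuclideanCLM]
  refine ContinuousLinearMap.opNorm_le_bound _ hc fun x => ?_
  have h1 := h (WithLp.ofLp x)
  rw [← toLp_norm_sq, ← toLp_norm_sq] at h1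
  have h2 : (Matrix.toEuclideanCLM (n := ι) (𝕜 := ℂ) M) x = WithLp.toLp 2 (M *ᵥ WithLp.ofLp x) := rfl
  rw [h2]
  have h3 : ‖(WithLp.toLp 2 (M *ᵥ WithLp.ofLp x) : EuclideanSpace ℂ ι)‖ ^ 2 ≤ (c * ‖x‖) ^ 2 := by
    rw [mul_pow]; exact h1
  exact (pow_le_pow_iff_left₀ (norm_nonneg _) (by positivity) two_ne_zero).mp h3

theorem dot_mulVec_le (M : Matrix ι ι ℂ) (x : ι → ℂ) :
    (star (M *ᵥ x) ⬝ᵥ (M *ᵥ x)).re ≤ ‖M‖ ^ 2 * (star x ⬝ᵥ x).re := by
  rw [← toLp_norm_sq, ← toLp_norm_sq, ← mul_pow]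
  have := Matrix.l2_opNorm_mulVec M (WithLp.toLp 2 x)
  exact pow_le_pow_left₀ (norm_nonneg _) this 2

/-- resolvent at `i v` -/
noncomputable def res (S : Matrix ι ι ℂ) (v : ℝ) : Matrix ι ι ℂ :=
  (S - ((v : ℂ) * Complex.I) • (1 : Matrix ι ι ℂ))⁻¹

theorem dot_self_re_nonneg (x : ι → ℂ) : 0 ≤ (star x ⬝ᵥ x).re := by
  rw [← toLp_norm_sq]; positivity

theorem dot_shift (S : Matrix ι ι ℂ) (hS : S.IsHermitian) (v : ℝ) (x : ι → ℂ) :
    (star ((S - ((v : ℂ) * Complex.I) • (1 : Matrix ι ι ℂ)) *ᵥ x) ⬝ᵥ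
      ((S - ((v : ℂ) * Complex.I) • (1 : Matrix ι ι ℂ)) *ᵥ x)).re
      = (star (S *ᵥ x) ⬝ᵥ (S *ᵥ x)).re + v ^ 2 * (star x ⬝ᵥ x).re := by
  have h1 : (S - ((v : ℂ) * Complex.I) • (1 : Matrix ι ι ℂ)) *ᵥ x
      = S *ᵥ x - ((v : ℂ) * Complex.I) • x := by
    rw [Matrix.sub_mulVec, Matrix.smul_mulVec, Matrix.one_mulVec]
  rw [h1, star_sub, sub_dotProduct, dotProduct_sub, dotProduct_sub]
  have h2 : star (((v : ℂ) * Complex.I) • x) = (-((v : ℂ) * Complex.I)) • star x := by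
    rw [star_smul]
    congr 1
    simp
  rw [h2, smul_dotProduct, dotProduct_smul, smul_dotProduct, dotProduct_smul]
  have h3 : star (S *ᵥ x) ⬝ᵥ x = star x ⬝ᵥ (S *ᵥ x) := by
    rw [Matrix.star_mulVec, hS.eq, ← Matrix.dotProduct_mulVec]
  rw [h3]
  simp only [smul_eq_mul, Complex.sub_re, Complex.mul_re, Complex.neg_re, Complex.neg_im,
    Complex.mul_im, Complex.I_re, Complex.I_im, Complex.ofReal_re, Complex.ofReal_im]
  ring

theorem isUnit_shift (S : Matrix ι ι ℂ) (hS : S.IsHermitian) (v : ℝ) (hv : v ≠ 0) :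
    IsUnit (S - ((v : ℂ) * Complex.I) • (1 : Matrix ι ι ℂ)).det := by
  rw [isUnit_iff_ne_zero]
  intro h
  obtain ⟨x, hx, hx0⟩ := Matrix.exists_mulVec_eq_zero_iff.mpr h
  have h1 := dot_shift S hS v x
  rw [hx0] at h1
  simp only [star_zero, zero_dotProduct, Complex.zero_re] at h1
  have h2 : 0 ≤ (star (S *ᵥ x) ⬝ᵥ (S *ᵥ x)).re := dot_self_re_nonneg _
  have h3 : 0 ≤ (star x ⬝ᵥ x).re := dot_self_re_nonneg _
  have h4 : (star x ⬝ᵥ x).re = 0 := by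
    have : 0 < v ^ 2 := by positivity
    nlinarith
  rw [← toLp_norm_sq] at h4
  have h5 : (WithLp.toLp 2 x : EuclideanSpace ℂ ι) = 0 := by
    rw [← norm_eq_zero]
    exact pow_eq_zero_iff (two_ne_zero) |>.mp h4
  apply hx
  have := congrArg WithLp.ofLp h5
  simpa using this

theorem res_mul (S : Matrix ι ι ℂ) (hS : S.IsHermitian) (v : ℝ) (hv : v ≠ 0) :
    res S v * (S - ((v : ℂ) * Complex.I) • (1 : Matrix ι ι ℂ)) = 1 :=
  Matrix.nonsing_inv_mul _ (isUnit_shift S hS v hv)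

theorem mul_res (S : Matrix ι ι ℂ) (hS : S.IsHermitian) (v : ℝ) (hv : v ≠ 0) :
    (S - ((v : ℂ) * Complex.I) • (1 : Matrix ι ι ℂ)) * res S v = 1 :=
  Matrix.mul_nonsing_inv _ (isUnit_shift S hS v hv)

theorem self_mul_res (S : Matrix ι ι ℂ) (hS : S.IsHermitian) (v : ℝ) (hv : v ≠ 0) :
    S * res S v = 1 + ((v : ℂ) * Complex.I) • res S v := by
  have h := mul_res S hS v hv
  rw [Matrix.sub_mul, Matrix.smul_mul, Matrix.one_mul] at h
  rw [← h]; abel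

theorem res_sub_res (S S' : Matrix ι ι ℂ) (hS : S.IsHermitian) (hS' : S'.IsHermitian) (v : ℝ)
    (hv : v ≠ 0) : res S v - res S' v = res S v * (S' - S) * res S' v := by
  have h1 := res_mul S hS v hv
  have h2 := mul_res S' hS' v hv
  have h3 : S' - S = (S' - ((v : ℂ) * Complex.I) • (1 : Matrix ι ι ℂ))
      - (S - ((v : ℂ) * Complex.I) • (1 : Matrix ι ι ℂ)) := by abel
  rw [h3, Matrix.mul_sub, Matrix.sub_mul, Matrix.mul_assoc, h2, Matrix.mul_one, h1, Matrix.one_mul]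

theorem norm_res_le (S : Matrix ι ι ℂ) (hS : S.IsHermitian) (v : ℝ) (hv : 0 < v) :
    ‖res S v‖ ≤ 1 / v := by
  apply norm_le_of_dot _ _ (by positivity)
  intro y
  have h1 := dot_shift S hS v (res S v *ᵥ y)
  rw [Matrix.mulVec_mulVec, mul_res S hS v hv.ne', Matrix.one_mulVec] at h1
  have h2 : 0 ≤ (star (S *ᵥ (res S v *ᵥ y)) ⬝ᵥ (S *ᵥ (res S v *ᵥ y))).re := dot_self_re_nonneg _
  rw [h1]
  have h0 : (1 / v) ^ 2 * v ^ 2 = 1 := by field_simp
  have h3 : 0 ≤ (1 / v) ^ 2 * (star (S *ᵥ (res S v *ᵥ y)) ⬝ᵥ (S *ᵥ (res S v *ᵥ y))).re := by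
    positivity
  rw [mul_add, ← mul_assoc, h0, one_mul]
  linarith

/-! ### Traces of low-rank matrices -/

theorem abs_trace_mul_le_rank (Z M : Matrix ι ι ℂ) (r : ℕ) (hr : Z.rank ≤ r) :
    ‖(Z * M).trace‖ ≤ r * (‖Z‖ * ‖M‖) := by
  let T : EuclideanSpace ℂ ι →ₗ[ℂ] EuclideanSpace ℂ ι := Matrix.toEuclideanLin (Z * M)
  let K : Submodule ℂ (EuclideanSpace ℂ ι) := LinearMap.range (Matrix.toEuclideanLin Z)
  have hTK : ∀ x, T x ∈ K := by
    intro x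
    refine ⟨Matrix.toEuclideanLin M x, ?_⟩
    simp only [T]
    change WithLp.toLp 2 (Z *ᵥ (M *ᵥ WithLp.ofLp x)) = WithLp.toLp 2 ((Z * M) *ᵥ WithLp.ofLp x)
    rw [Matrix.mulVec_mulVec]
  have htr : (Z * M).trace = LinearMap.trace ℂ _ T := by
    simp only [T]
    rw [Matrix.toEuclideanLin_eq_toLin_orthonormal, Matrix.trace_toLin_eq]
  have hrank : Module.finrank ℂ K ≤ r := by
    have h1 := Matrix.rank_eq_finrank_range_toLin Z
      (EuclideanSpace.basisFun ι ℂ).toBasis (EuclideanSpace.basisFun ι ℂ).toBasis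
    rw [← Matrix.toEuclideanLin_eq_toLin_orthonormal] at h1
    rw [← h1]; exact hr
  have hT : ∀ x, ‖T x‖ ≤ ‖Z‖ * ‖M‖ * ‖x‖ := by
    intro x
    calc ‖T x‖ ≤ ‖Z * M‖ * ‖x‖ := Matrix.l2_opNorm_mulVec (Z * M) x
      _ ≤ _ := mul_le_mul_of_nonneg_right (Matrix.l2_opNorm_mul _ _) (norm_nonneg _)
  rw [htr, ← LinearMap.trace_restrict_eq_of_forall_mem K T hTK,
    LinearMap.trace_eq_sum_inner _ (stdOrthonormalBasis ℂ K)]
  refine (norm_sum_le _ _).trans ?_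
  calc _ ≤ ∑ _i : Fin (Module.finrank ℂ K), ‖Z‖ * ‖M‖ := by
        refine Finset.sum_le_sum fun i _ => ?_
        refine (norm_inner_le_norm _ _).trans ?_
        rw [(stdOrthonormalBasis ℂ K).norm_eq_one, one_mul]
        have h2 := hT ((stdOrthonormalBasis ℂ K) i : EuclideanSpace ℂ ι)
        have h3 : ‖((stdOrthonormalBasis ℂ K) i : EuclideanSpace ℂ ι)‖ = 1 := by
          have := (stdOrthonormalBasis ℂ K).norm_eq_one i
          exact this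
        rw [h3, mul_one] at h2
        exact h2
    _ = Module.finrank ℂ K * (‖Z‖ * ‖M‖) := by simp
    _ ≤ _ := by
      apply mul_le_mul_of_nonneg_right _ (by positivity)
      exact_mod_cast hrank

theorem res_zero_rank (S S' : Matrix ι ι ℂ) (hS : S.IsHermitian) (hS' : S'.IsHermitian) (v : ℝ)
    (hv : 0 < v) (r : ℕ) (hr : (S' - S).rank ≤ r) (M : Matrix ι ι ℂ) :
    ‖((res S v - res S' v) * M).trace‖ ≤ r * (2 / v * ‖M‖) := by
  have h1 : (res S v - res S' v).rank ≤ r := by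
    rw [res_sub_res S S' hS hS' v hv.ne']
    exact ((Matrix.rank_mul_le_left _ _).trans (Matrix.rank_mul_le_right _ _)).trans hr
  refine (abs_trace_mul_le_rank _ M r h1).trans ?_
  have h2 : ‖res S v - res S' v‖ ≤ 2 / v := by
    calc ‖res S v - res S' v‖ ≤ ‖res S v‖ + ‖res S' v‖ := norm_sub_le _ _
      _ ≤ 1 / v + 1 / v := add_le_add (norm_res_le S hS v hv) (norm_res_le S' hS' v hv)
      _ = 2 / v := by ring
  gcongr

/-! ### Spectral expressions -/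

theorem exists_diag (S : Matrix ι ι ℂ) (hS : S.IsHermitian) :
    ∃ U : Matrix ι ι ℂ, U * Uᴴ = 1 ∧ Uᴴ * U = 1 ∧
      S = U * Matrix.diagonal (fun i => (hS.eigenvalues i : ℂ)) * Uᴴ := by
  refine ⟨hS.eigenvectorUnitary, ?_, ?_, ?_⟩
  · exact Unitary.coe_mul_star_self hS.eigenvectorUnitary
  · exact Unitary.coe_star_mul_self hS.eigenvectorUnitary
  · have h := hS.spectral_theorem
    rw [Unitary.conjStarAlgAut_apply] at h
    exact h

theorem conj_diag_trace (U : Matrix ι ι ℂ) (h1 : Uᴴ * U = 1) (d : ι → ℂ) :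
    (U * Matrix.diagonal d * Uᴴ).trace = ∑ i, d i := by
  rw [Matrix.trace_mul_comm, ← Matrix.mul_assoc, h1, Matrix.one_mul, Matrix.trace_diagonal]

theorem conj_diag_det (U : Matrix ι ι ℂ) (h1 : Uᴴ * U = 1) (d : ι → ℂ) :
    (U * Matrix.diagonal d * Uᴴ).det = ∏ i, d i := by
  rw [Matrix.det_mul_comm, ← Matrix.mul_assoc, h1, Matrix.one_mul, Matrix.det_diagonal]

theorem conj_diag_mul (U : Matrix ι ι ℂ) (h1 : Uᴴ * U = 1) (d d' : ι → ℂ) :
    (U * Matrix.diagonal d * Uᴴ) * (U * Matrix.diagonal d' * Uᴴ)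
      = U * Matrix.diagonal (fun i => d i * d' i) * Uᴴ := by
  calc (U * Matrix.diagonal d * Uᴴ) * (U * Matrix.diagonal d' * Uᴴ)
      = U * Matrix.diagonal d * (Uᴴ * U) * Matrix.diagonal d' * Uᴴ := by
        simp only [Matrix.mul_assoc]
    _ = U * (Matrix.diagonal d * Matrix.diagonal d') * Uᴴ := by
        rw [h1, Matrix.mul_one, Matrix.mul_assoc U]
    _ = _ := by rw [Matrix.diagonal_mul_diagonal]

theorem conj_diag_add (U : Matrix ι ι ℂ) (d d' : ι → ℂ) :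
    (U * Matrix.diagonal d * Uᴴ) + (U * Matrix.diagonal d' * Uᴴ)
      = U * Matrix.diagonal (fun i => d i + d' i) * Uᴴ := by
  rw [← Matrix.add_mul, ← Matrix.mul_add, Matrix.diagonal_add]

theorem conj_diag_const (U : Matrix ι ι ℂ) (h2 : U * Uᴴ = 1) (c : ℂ) :
    U * Matrix.diagonal (fun _ => c) * Uᴴ = c • (1 : Matrix ι ι ℂ) := by
  have : Matrix.diagonal (fun _ : ι => c) = c • (1 : Matrix ι ι ℂ) := by
    rw [Matrix.smul_one_eq_diagonal]
  rw [this, Matrix.mul_smul, Matrix.mul_one, Matrix.smul_mul, h2]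

theorem conj_diag_inv (U : Matrix ι ι ℂ) (h1 : Uᴴ * U = 1) (h2 : U * Uᴴ = 1) (d : ι → ℂ)
    (hd : ∀ i, d i ≠ 0) :
    (U * Matrix.diagonal d * Uᴴ)⁻¹ = U * Matrix.diagonal (fun i => (d i)⁻¹) * Uᴴ := by
  apply Matrix.inv_eq_right_inv
  rw [conj_diag_mul U h1]
  have : (fun i => d i * (d i)⁻¹) = fun _ => (1 : ℂ) := by
    ext i; exact mul_inv_cancel₀ (hd i)
  rw [this, conj_diag_const U h2, one_smul]

theorem trace_res (S : Matrix ι ι ℂ) (hS : S.IsHermitian) (v : ℝ) (hv : v ≠ 0) :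
    (res S v).trace = ∑ i, ((hS.eigenvalues i : ℂ) - (v : ℂ) * Complex.I)⁻¹ := by
  obtain ⟨U, h2, h1, h⟩ := exists_diag S hS
  unfold res
  have h3 : S - ((v : ℂ) * Complex.I) • (1 : Matrix ι ι ℂ)
      = U * Matrix.diagonal (fun i => (hS.eigenvalues i : ℂ) - (v : ℂ) * Complex.I) * Uᴴ := by
    have h4 := conj_diag_add U (fun i => (hS.eigenvalues i : ℂ)) (fun _ => -((v : ℂ) * Complex.I))
    rw [conj_diag_const U h2, ← h, neg_smul, ← sub_eq_add_neg] at h4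
    rw [h4]
    rfl
  rw [h3, conj_diag_inv U h1 h2, conj_diag_trace U h1]
  intro i hi
  have := congrArg Complex.im hi
  simp at this
  exact hv this

theorem trace_res_im (S : Matrix ι ι ℂ) (hS : S.IsHermitian) (v : ℝ) (hv : v ≠ 0) :
    (res S v).trace.im = ∑ i, v / ((hS.eigenvalues i) ^ 2 + v ^ 2) := by
  rw [trace_res S hS v hv, Complex.im_sum]
  refine Finset.sum_congr rfl fun i _ => ?_
  rw [Complex.inv_im]
  simp [Complex.normSq_apply]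
  ring

theorem sq_add_eq (S : Matrix ι ι ℂ) (hS : S.IsHermitian) (v : ℝ) :
    ∃ U : Matrix ι ι ℂ, U * Uᴴ = 1 ∧ Uᴴ * U = 1 ∧
      S * S + ((v : ℂ) ^ 2) • (1 : Matrix ι ι ℂ)
        = U * Matrix.diagonal (fun i => ((hS.eigenvalues i : ℂ) ^ 2 + (v : ℂ) ^ 2)) * Uᴴ := by
  obtain ⟨U, h2, h1, h⟩ := exists_diag S hS
  refine ⟨U, h2, h1, ?_⟩
  have h3 : S * S = U * Matrix.diagonal (fun i => ((hS.eigenvalues i : ℂ) ^ 2)) * Uᴴ := by
    calc S * S = (U * Matrix.diagonal (fun i => (hS.eigenvalues i : ℂ)) * Uᴴ) *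
          (U * Matrix.diagonal (fun i => (hS.eigenvalues i : ℂ)) * Uᴴ) := by rw [← h]
      _ = _ := by
        rw [conj_diag_mul U h1]
        simp only [sq]
  rw [h3, ← conj_diag_const U h2, conj_diag_add]

theorem det_sq_add (S : Matrix ι ι ℂ) (hS : S.IsHermitian) (v : ℝ) :
    (S * S + ((v : ℂ) ^ 2) • (1 : Matrix ι ι ℂ)).det
      = ((∏ i, ((hS.eigenvalues i) ^ 2 + v ^ 2) : ℝ) : ℂ) := by
  obtain ⟨U, h2, h1, h⟩ := sq_add_eq S hS v
  rw [h, conj_diag_det U h1]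
  push_cast
  rfl

theorem trace_sq_add_inv (S : Matrix ι ι ℂ) (hS : S.IsHermitian) (v : ℝ) (hv : v ≠ 0) :
    (S * S + ((v : ℂ) ^ 2) • (1 : Matrix ι ι ℂ))⁻¹.trace
      = ((∑ i, ((hS.eigenvalues i) ^ 2 + v ^ 2)⁻¹ : ℝ) : ℂ) := by
  obtain ⟨U, h2, h1, h⟩ := sq_add_eq S hS v
  rw [h, conj_diag_inv U h1 h2, conj_diag_trace U h1]
  · push_cast
    rfl
  · intro i hi
    have h3 : ((hS.eigenvalues i) ^ 2 + v ^ 2 : ℝ) = 0 := by exact_mod_cast hi
    have : 0 < (hS.eigenvalues i) ^ 2 + v ^ 2 := by positivity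
    linarith

theorem trace_sq (S : Matrix ι ι ℂ) (hS : S.IsHermitian) :
    (S * S).trace = ((∑ i, (hS.eigenvalues i) ^ 2 : ℝ) : ℂ) := by
  obtain ⟨U, h2, h1, h⟩ := sq_add_eq S hS 0
  have h3 : S * S = S * S + (((0 : ℝ) : ℂ) ^ 2) • (1 : Matrix ι ι ℂ) := by simp
  rw [h3, h, conj_diag_trace U h1]
  push_cast
  simp

end Pool.Agent.helper97.GUE
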