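import Mathlib
import Pool.Agent.helper97.GUE.Resolvent

set_option autoImplicit false
set_option linter.unusedSectionVars false
open MeasureTheory ProbabilityTheory Filter Topology
open scoped NNReal ENNReal Matrix ComplexOrder

namespace Pool.Agent.helper97.GUE

variable {κ ν : Type*} [Fintype κ] [DecidableEq κ] [Fintype ν]

theorem quad_eq (W : Matrix κ κ ℂ) (hW : W.IsHermitian) (x : κ → ℂ) :
    ∃ y : κ → ℝ, (∀ i, 0 ≤ y i) ∧ ∑ i, y i = (star x ⬝ᵥ x).re ∧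
      (star x ⬝ᵥ (W *ᵥ x)).re = ∑ i, hW.eigenvalues i * y i := by
  obtain ⟨U, h2, h1, h⟩ := exists_diag W hW
  set z := Uᴴ *ᵥ x with hz
  have hx : x = U *ᵥ z := by
    rw [hz, Matrix.mulVec_mulVec, h2, Matrix.one_mulVec]
  have hst : star x ᵥ* U = star z := by
    rw [hz, Matrix.star_mulVec, Matrix.conjTranspose_conjTranspose]
  refine ⟨fun i => Complex.normSq (z i), fun i => Complex.normSq_nonneg _, ?_, ?_⟩
  · have : star x ⬝ᵥ x = star z ⬝ᵥ z := by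
      calc star x ⬝ᵥ x = star x ⬝ᵥ (U *ᵥ z) := by rw [← hx]
        _ = star z ⬝ᵥ z := by rw [Matrix.dotProduct_mulVec, hst]
    rw [this]
    simp only [dotProduct, Pi.star_apply, Complex.re_sum, RCLike.star_def]
    refine Finset.sum_congr rfl fun i _ => ?_
    rw [← Complex.normSq_eq_conj_mul_self, Complex.ofReal_re]
  · have : star x ⬝ᵥ (W *ᵥ x) = star z ⬝ᵥ (Matrix.diagonal (fun i => (hW.eigenvalues i : ℂ)) *ᵥ z) := by
      have h3 : W *ᵥ x = U *ᵥ (Matrix.diagonal (fun i => (hW.eigenvalues i : ℂ)) *ᵥ z) := by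
        rw [hz, Matrix.mulVec_mulVec, Matrix.mulVec_mulVec, ← h]
      rw [h3, Matrix.dotProduct_mulVec, hst]
    rw [this]
    simp only [dotProduct, Pi.star_apply, Complex.re_sum, RCLike.star_def, Matrix.mulVec_diagonal]
    refine Finset.sum_congr rfl fun i _ => ?_
    have : (starRingEnd ℂ) (z i) * ((hW.eigenvalues i : ℂ) * z i)
        = (hW.eigenvalues i : ℂ) * ((starRingEnd ℂ) (z i) * z i) := by ring
    rw [this, ← Complex.normSq_eq_conj_mul_self, ← Complex.ofReal_mul, Complex.ofReal_re]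

theorem quad_le (W : Matrix κ κ ℂ) (hW : W.IsHermitian) (M : ℝ) (hM : ∀ i, hW.eigenvalues i ≤ M)
    (x : κ → ℂ) : (star x ⬝ᵥ (W *ᵥ x)).re ≤ M * (star x ⬝ᵥ x).re := by
  obtain ⟨y, hy0, hy1, hy2⟩ := quad_eq W hW x
  rw [hy2, ← hy1, Finset.mul_sum]
  exact Finset.sum_le_sum fun i _ => mul_le_mul_of_nonneg_right (hM i) (hy0 i)

theorem le_quad (W : Matrix κ κ ℂ) (hW : W.IsHermitian) (M : ℝ) (hM : ∀ i, M ≤ hW.eigenvalues i)
    (x : κ → ℂ) : M * (star x ⬝ᵥ x).re ≤ (star x ⬝ᵥ (W *ᵥ x)).re := by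
  obtain ⟨y, hy0, hy1, hy2⟩ := quad_eq W hW x
  rw [hy2, ← hy1, Finset.mul_sum]
  exact Finset.sum_le_sum fun i _ => mul_le_mul_of_nonneg_right (hM i) (hy0 i)

theorem dot_herm (a : Matrix κ κ ℂ) (ha : a.IsHermitian) (x y : κ → ℂ) :
    star x ⬝ᵥ (a *ᵥ y) = star (a *ᵥ x) ⬝ᵥ y := by
  rw [Matrix.star_mulVec, ha.eq, ← Matrix.dotProduct_mulVec]

theorem quad_eta (a : ν → Matrix κ κ ℂ) (ha : ∀ i, (a i).IsHermitian) (W : Matrix κ κ ℂ)
    (x : κ → ℂ) : star x ⬝ᵥ ((∑ i, a i * W * a i) *ᵥ x)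
      = ∑ i, star (a i *ᵥ x) ⬝ᵥ (W *ᵥ (a i *ᵥ x)) := by
  rw [Matrix.sum_mulVec, dotProduct_sum]
  refine Finset.sum_congr rfl fun i _ => ?_
  rw [← Matrix.mulVec_mulVec, ← Matrix.mulVec_mulVec, dot_herm _ (ha i)]

theorem sum_quad (a : ν → Matrix κ κ ℂ) (ha : ∀ i, (a i).IsHermitian)
    (h1 : ∑ i, a i * a i = 1) (x : κ → ℂ) :
    ∑ i, (star (a i *ᵥ x) ⬝ᵥ (a i *ᵥ x)).re = (star x ⬝ᵥ x).re := by
  have h := quad_eta a ha 1 x
  simp only [Matrix.mul_one, Matrix.one_mulVec] at h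
  rw [h1, Matrix.one_mulVec] at h
  rw [h, Complex.re_sum]

/-- scalar part of the stability argument -/
theorem scalar_stability (v g ε M μ w : ℝ) (hv : 0 < v) (hg : 0 < g) (hg1 : g * (g + v) = 1)
    (hε : 0 ≤ ε) (hμ : 0 ≤ μ) (hμM : μ ≤ M) (hM1 : M ≤ 1 / v) (h1 : M * (v + μ) ≤ 1 + ε)
    (h2 : 1 - ε ≤ μ * (v + M)) (hw1 : μ ≤ w) (hw2 : w ≤ M) :
    |w - g| ≤ ε + 2 * ε / v ^ 2 := by
  have hM0 : 0 ≤ M := hμ.trans hμM
  have h3 : v * (M - μ) ≤ 2 * ε := by nlinarith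
  have h4 : M - μ ≤ 2 * ε / v := by rw [le_div_iff₀ hv]; linarith
  have h5 : M * (M - μ) ≤ 2 * ε / v ^ 2 := by
    calc M * (M - μ) ≤ (1 / v) * (2 * ε / v) := by
          apply mul_le_mul hM1 h4 (by linarith) (by positivity)
      _ = 2 * ε / v ^ 2 := by field_simp
  have h6 : μ * (M - μ) ≤ 2 * ε / v ^ 2 := by
    refine le_trans ?_ h5
    apply mul_le_mul_of_nonneg_right hμM (by linarith)
  have h7 : M * (v + M) ≤ 1 + (ε + 2 * ε / v ^ 2) := by nlinarith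
  have h8 : 1 - (ε + 2 * ε / v ^ 2) ≤ μ * (v + μ) := by nlinarith
  have hw0 : 0 ≤ w := hμ.trans hw1
  have h9 : w * (v + w) ≤ 1 + (ε + 2 * ε / v ^ 2) := by
    refine le_trans ?_ h7
    apply mul_le_mul hw2 (by linarith) (by linarith) hM0
  have h10 : 1 - (ε + 2 * ε / v ^ 2) ≤ w * (v + w) := by
    refine h8.trans ?_
    apply mul_le_mul hw1 (by linarith) (by linarith) hw0
  set ε' := ε + 2 * ε / v ^ 2 with hε'
  have hε'0 : 0 ≤ ε' := by positivity
  -- g + v ≥ 1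
  have hgv : 1 ≤ g + v := by
    by_contra hlt
    push Not at hlt
    have : g < 1 := by linarith
    nlinarith
  have h11 : (w - g) * (w + g + v) = w * (v + w) - 1 := by nlinarith
  rw [abs_le]
  constructor
  · by_contra hlt
    push Not at hlt
    have : (w - g) * (w + g + v) < -ε' := by
      have h12 : 1 ≤ w + g + v := by linarith
      nlinarith
    linarith
  · by_contra hlt
    push Not at hlt
    have : ε' < (w - g) * (w + g + v) := by
      have h12 : 1 ≤ w + g + v := by linarith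
      nlinarith
    linarith

theorem stability [Nonempty κ] (a : ν → Matrix κ κ ℂ) (ha : ∀ i, (a i).IsHermitian)
    (h1 : ∑ i, a i * a i = 1) (v g ε : ℝ) (hv : 0 < v) (hg : 0 < g) (hg1 : g * (g + v) = 1)
    (hε : 0 ≤ ε) (W R : Matrix κ κ ℂ) (hW : W.IsHermitian)
    (hR : ∀ x : κ → ℂ, |(star x ⬝ᵥ (R *ᵥ x)).re| ≤ ε * (star x ⬝ᵥ x).re)
    (heq : (v : ℂ) • W + (∑ i, a i * W * a i) * W = 1 + R)
    (hW0 : ∀ x : κ → ℂ, 0 ≤ (star x ⬝ᵥ (W *ᵥ x)).re)
    (hW1 : ∀ x : κ → ℂ, (star x ⬝ᵥ (W *ᵥ x)).re ≤ 1 / v * (star x ⬝ᵥ x).re) :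
    |W.trace.re / Fintype.card κ - g| ≤ ε + 2 * ε / v ^ 2 := by
  obtain ⟨jM, hjM⟩ := Finite.exists_max hW.eigenvalues
  obtain ⟨jμ, hjμ⟩ := Finite.exists_min hW.eigenvalues
  set M := hW.eigenvalues jM with hM
  set μ := hW.eigenvalues jμ with hμ
  -- unit eigenvectors
  have heig : ∀ j, ∃ u : κ → ℂ, (star u ⬝ᵥ u).re = 1 ∧ W *ᵥ u = (hW.eigenvalues j : ℂ) • u := by
    intro j
    refine ⟨(hW.eigenvectorBasis j).ofLp, ?_, ?_⟩
    · rw [← toLp_norm_sq]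
      have : (WithLp.toLp 2 (hW.eigenvectorBasis j).ofLp : EuclideanSpace ℂ κ) = hW.eigenvectorBasis j := rfl
      rw [this, hW.eigenvectorBasis.norm_eq_one, one_pow]
    · have := hW.mulVec_eigenvectorBasis j
      rw [this]
      rfl
  have hlam : ∀ j, ∃ q r : ℝ, μ ≤ q ∧ q ≤ M ∧ |r| ≤ ε ∧ hW.eigenvalues j * (v + q) = 1 + r := by
    intro j
    obtain ⟨u, hu1, hu2⟩ := heig j
    refine ⟨(star u ⬝ᵥ ((∑ i, a i * W * a i) *ᵥ u)).re, (star u ⬝ᵥ (R *ᵥ u)).re, ?_, ?_, ?_, ?_⟩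
    · rw [quad_eta a ha, Complex.re_sum]
      calc μ = μ * (star u ⬝ᵥ u).re := by rw [hu1, mul_one]
        _ = ∑ i, μ * (star (a i *ᵥ u) ⬝ᵥ (a i *ᵥ u)).re := by
          rw [← sum_quad a ha h1, Finset.mul_sum]
        _ ≤ _ := Finset.sum_le_sum fun i _ => le_quad W hW μ hjμ _
    · rw [quad_eta a ha, Complex.re_sum]
      calc _ ≤ ∑ i, M * (star (a i *ᵥ u) ⬝ᵥ (a i *ᵥ u)).re :=
            Finset.sum_le_sum fun i _ => quad_le W hW M hjM _
        _ = M * (star u ⬝ᵥ u).re := by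
          rw [← sum_quad a ha h1, Finset.mul_sum]
        _ = M := by rw [hu1, mul_one]
    · have := hR u
      rwa [hu1, mul_one] at this
    · have h3 : ((v : ℂ) • W + (∑ i, a i * W * a i) * W) *ᵥ u = (1 + R) *ᵥ u := by rw [heq]
      rw [Matrix.add_mulVec, Matrix.add_mulVec, Matrix.smul_mulVec, ← Matrix.mulVec_mulVec, hu2,
        Matrix.one_mulVec, Matrix.mulVec_smul] at h3
      have h4 := congrArg (fun y => (star u ⬝ᵥ y).re) h3
      simp only [dotProduct_add, dotProduct_smul, smul_eq_mul, Complex.add_re] at h4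
      rw [hu1] at h4
      have e1 : ((v : ℂ) * ((hW.eigenvalues j : ℂ) * (star u ⬝ᵥ u))).re
          = v * (hW.eigenvalues j * (star u ⬝ᵥ u).re) := by
        rw [← mul_assoc, ← Complex.ofReal_mul, Complex.re_ofReal_mul]; ring
      have e2 : ((hW.eigenvalues j : ℂ) * (star u ⬝ᵥ ((∑ i, a i * W * a i) *ᵥ u))).re
          = hW.eigenvalues j * (star u ⬝ᵥ ((∑ i, a i * W * a i) *ᵥ u)).re := by
        rw [Complex.re_ofReal_mul]
      rw [e1, e2, hu1] at h4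
      linarith
  have hμ0 : 0 ≤ μ := by
    obtain ⟨u, hu1, hu2⟩ := heig jμ
    have := hW0 u
    rw [hu2, dotProduct_smul, smul_eq_mul, Complex.re_ofReal_mul, hu1, mul_one] at this
    exact this
  have hM1 : M ≤ 1 / v := by
    obtain ⟨u, hu1, hu2⟩ := heig jM
    have := hW1 u
    rw [hu2, dotProduct_smul, smul_eq_mul, Complex.re_ofReal_mul, hu1, mul_one, mul_one] at this
    exact this
  have hμM : μ ≤ M := hjM jμ
  have hcard : (0 : ℝ) < Fintype.card κ := by exact_mod_cast Fintype.card_pos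
  have htr : W.trace.re = ∑ i, hW.eigenvalues i := by
    rw [hW.trace_eq_sum_eigenvalues, Complex.re_sum]
    rfl
  apply scalar_stability v g ε M μ _ hv hg hg1 hε hμ0 hμM hM1
  · obtain ⟨q, r, hq1, hq2, hr, h3⟩ := hlam jM
    rw [abs_le] at hr
    have : M * (v + μ) ≤ M * (v + q) := by
      apply mul_le_mul_of_nonneg_left _ (hμ0.trans hμM)
      linarith
    linarith [hr.2]
  · obtain ⟨q, r, hq1, hq2, hr, h3⟩ := hlam jμ
    rw [abs_le] at hr
    have : μ * (v + q) ≤ μ * (v + M) := by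
      apply mul_le_mul_of_nonneg_left _ hμ0
      linarith
    linarith [hr.1]
  · rw [le_div_iff₀ hcard, htr]
    calc μ * Fintype.card κ = ∑ _i : κ, μ := by simp [mul_comm]
      _ ≤ _ := Finset.sum_le_sum fun i _ => hjμ i
  · rw [div_le_iff₀ hcard, htr]
    calc _ ≤ ∑ _i : κ, M := Finset.sum_le_sum fun i _ => hjM i
      _ = _ := by simp [mul_comm]

end Pool.Agent.helper97.GUE
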