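import Mathlib
import Pool.Agent.helper97.GUE.Resolvent

set_option autoImplicit false
set_option linter.unusedSectionVars false
open MeasureTheory ProbabilityTheory Filter Topology
open scoped NNReal ENNReal Matrix ComplexOrder

namespace Pool.Agent.helper97.GUE

theorem integrable_pdf_mul (φ : ℝ → ℂ) (hφ : Integrable φ (gaussianReal 0 1)) :
    Integrable (fun t => (gaussianPDFReal 0 1 t) • φ t) volume := by
  rw [gaussianReal_of_var_ne_zero 0 one_ne_zero] at hφ
  rw [integrable_withDensity_iff_integrable_smul' (measurable_gaussianPDF 0 1)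
    (ae_of_all _ fun x => gaussianPDF_lt_top)] at hφ
  simpa [toReal_gaussianPDF] using hφ

theorem hasDerivAt_pdf (t : ℝ) :
    HasDerivAt (gaussianPDFReal 0 1) (-(t * gaussianPDFReal 0 1 t)) t := by
  rw [gaussianPDFReal_def]
  have h1 : HasDerivAt (fun x : ℝ => -(x - 0) ^ 2 / (2 * ((1 : ℝ≥0) : ℝ))) (-t) t := by
    have h2 : (fun x : ℝ => -(x - 0) ^ 2 / (2 * ((1 : ℝ≥0) : ℝ))) = fun x => (-1/2) * x ^ 2 := by
      ext x
      push_cast
      ring
    rw [h2]
    have h3 := (hasDerivAt_pow 2 t).const_mul (-1/2 : ℝ)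
    refine h3.congr_deriv ?_
    push_cast
    ring
  have h2 := (h1.exp).const_mul (√(2 * Real.pi * ((1 : ℝ≥0) : ℝ)))⁻¹
  refine h2.congr_deriv ?_
  ring

theorem stein1 (φ φ' : ℝ → ℂ) (hd : ∀ t, HasDerivAt φ (φ' t) t) (B B' : ℝ)
    (hB : ∀ t, ‖φ t‖ ≤ B) (hB' : ∀ t, ‖φ' t‖ ≤ B') (hm' : Measurable φ') :
    ∫ t, (t : ℂ) * φ t ∂(gaussianReal 0 1) = ∫ t, φ' t ∂(gaussianReal 0 1) := by
  have hφc : Continuous φ := continuous_iff_continuousAt.mpr fun t => (hd t).continuousAt
  have hI1 : Integrable φ (gaussianReal 0 1) :=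
    Integrable.of_bound hφc.aestronglyMeasurable B (ae_of_all _ hB)
  have hI2 : Integrable φ' (gaussianReal 0 1) :=
    Integrable.of_bound hm'.aestronglyMeasurable B' (ae_of_all _ hB')
  have hI0 : Integrable (fun t : ℝ => (t : ℂ)) (gaussianReal 0 1) := by
    have : Integrable (id : ℝ → ℝ) (gaussianReal 0 1) := (memLp_id_gaussianReal' 1 (by simp)).integrable le_rfl
    exact this.ofReal
  have hI3 : Integrable (fun t : ℝ => (t : ℂ) * φ t) (gaussianReal 0 1) := by
    exact hI0.mul_bdd (c := B) hφc.aestronglyMeasurable (ae_of_all _ hB)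
  set p := gaussianPDFReal 0 1 with hp
  have hF : ∀ t, HasDerivAt (fun t => p t • φ t) (p t • φ' t + (-(t * p t)) • φ t) t := by
    intro t
    have := (hasDerivAt_pdf t).smul (hd t)
    exact this
  have hF'1 := integrable_pdf_mul _ hI2
  have hF'2 := integrable_pdf_mul _ hI3
  have heq : (fun t => p t • φ' t + (-(t * p t)) • φ t)
      = fun t => p t • φ' t - p t • ((t : ℂ) * φ t) := by
    ext t
    simp only [Complex.real_smul]
    push_cast
    ring
  have hint : Integrable (fun t => p t • φ' t + (-(t * p t)) • φ t) volume := by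
    rw [heq]
    exact hF'1.sub hF'2
  have h0 := integral_eq_zero_of_hasDerivAt_of_integrable hF hint (integrable_pdf_mul _ hI1)
  rw [heq, integral_sub hF'1 hF'2, sub_eq_zero] at h0
  rw [integral_gaussianReal_eq_integral_smul one_ne_zero,
    integral_gaussianReal_eq_integral_smul one_ne_zero, ← h0]

/-- resampling one coordinate preserves the product measure -/
theorem measurePreserving_update {ι : Type*} [Fintype ι] [DecidableEq ι] (γ : Measure ℝ)
    [IsProbabilityMeasure γ] (c : ι) :
    MeasurePreserving (fun p : (ι → ℝ) × ℝ => Function.update p.1 c p.2)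
      ((Measure.pi fun _ : ι => γ).prod γ) (Measure.pi fun _ : ι => γ) := by
  refine ⟨?_, ?_⟩
  · rw [measurable_pi_iff]
    intro i
    by_cases h : i = c
    · subst h
      simpa using measurable_snd
    · simp only [Function.update_of_ne h]
      exact (measurable_pi_apply i).comp measurable_fst
  · symm
    apply Measure.pi_eq
    intro s hs
    rw [Measure.map_apply]
    · have h1 : (fun p : (ι → ℝ) × ℝ => Function.update p.1 c p.2) ⁻¹' (Set.univ.pi s)
          = (Set.univ.pi (Function.update s c Set.univ)) ×ˢ (s c) := by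
        ext ⟨x, t⟩
        simp only [Set.mem_preimage, Set.mem_pi, Set.mem_univ, true_implies, Set.mem_prod]
        constructor
        · intro h
          refine ⟨fun i => ?_, by simpa using h c⟩
          by_cases hi : i = c
          · subst hi; simp
          · have := h i
            simpa [Function.update_of_ne hi] using this
        · rintro ⟨h1, h2⟩ i
          by_cases hi : i = c
          · subst hi; simpa using h2
          · have := h1 i
            simpa [Function.update_of_ne hi] using this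
      rw [h1, Measure.prod_prod, Measure.pi_pi]
      rw [← Finset.mul_prod_erase Finset.univ _ (Finset.mem_univ c),
        ← Finset.mul_prod_erase Finset.univ (fun i => γ (s i)) (Finset.mem_univ c)]
      simp only [Function.update_self, measure_univ, one_mul]
      rw [mul_comm]
      congr 1
      refine Finset.prod_congr rfl fun i hi => ?_
      rw [Function.update_of_ne (Finset.ne_of_mem_erase hi)]
    · rw [measurable_pi_iff]
      intro i
      by_cases h : i = c
      · subst h
        simpa using measurable_snd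
      · simp only [Function.update_of_ne h]
        exact (measurable_pi_apply i).comp measurable_fst
    · exact MeasurableSet.univ_pi hs

theorem integral_update {ι : Type*} [Fintype ι] [DecidableEq ι] (γ : Measure ℝ)
    [IsProbabilityMeasure γ] (c : ι) (f : (ι → ℝ) → ℂ) (hf : Integrable f (Measure.pi fun _ => γ)) :
    ∫ x, f x ∂(Measure.pi fun _ : ι => γ)
      = ∫ x, ∫ t, f (Function.update x c t) ∂γ ∂(Measure.pi fun _ : ι => γ) := by
  have h := measurePreserving_update γ c
  have h1 : ∫ x, f x ∂(Measure.pi fun _ : ι => γ)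
      = ∫ p : (ι → ℝ) × ℝ, f (Function.update p.1 c p.2) ∂((Measure.pi fun _ : ι => γ).prod γ) := by
    conv_lhs => rw [← h.map_eq]
    rw [integral_map h.measurable.aemeasurable]
    rw [h.map_eq]
    exact hf.aestronglyMeasurable
  rw [h1, integral_prod]
  exact h.integrable_comp_of_integrable hf

theorem integrable_coord_mul {ι : Type*} [Fintype ι] [DecidableEq ι] (c : ι) (F : (ι → ℝ) → ℂ)
    (B : ℝ) (hB : ∀ x, ‖F x‖ ≤ B) (hm : Measurable F) :
    Integrable (fun x => (x c : ℂ) * F x) (Measure.pi fun _ : ι => gaussianReal 0 1) := by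
  have hI0 : Integrable (fun t : ℝ => (t : ℂ)) (gaussianReal 0 1) := by
    have : Integrable (id : ℝ → ℝ) (gaussianReal 0 1) := (memLp_id_gaussianReal' 1 (by simp)).integrable le_rfl
    exact this.ofReal
  have h1 : Integrable (fun x : ι → ℝ => (x c : ℂ)) (Measure.pi fun _ : ι => gaussianReal 0 1) :=
    (measurePreserving_eval (fun _ : ι => gaussianReal 0 1) c).integrable_comp_of_integrable hI0
  exact h1.mul_bdd (c := B) hm.aestronglyMeasurable (ae_of_all _ hB)

theorem stein_pi {ι : Type*} [Fintype ι] [DecidableEq ι] (c : ι) (F F' : (ι → ℝ) → ℂ)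
    (hd : ∀ x t, HasDerivAt (fun t => F (Function.update x c t)) (F' (Function.update x c t)) t)
    (B B' : ℝ) (hB : ∀ x, ‖F x‖ ≤ B) (hB' : ∀ x, ‖F' x‖ ≤ B') (hm : Measurable F)
    (hm' : Measurable F') :
    ∫ x, (x c : ℂ) * F x ∂(Measure.pi fun _ : ι => gaussianReal 0 1)
      = ∫ x, F' x ∂(Measure.pi fun _ : ι => gaussianReal 0 1) := by
  rw [integral_update _ c _ (integrable_coord_mul c F B hB hm), integral_update _ c F' (
    Integrable.of_bound hm'.aestronglyMeasurable B' (ae_of_all _ hB'))]
  refine integral_congr_ae (ae_of_all _ fun x => ?_)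
  simp only [Function.update_self]
  refine stein1 _ _ (hd x) B B' (fun t => hB _) (fun t => hB' _) ?_
  exact hm'.comp (measurable_update x)

open scoped Matrix.Norms.L2Operator

variable {ι : Type*} [Fintype ι] [DecidableEq ι]

theorem norm_res_sub_le (S S' : Matrix ι ι ℂ) (hS : S.IsHermitian) (hS' : S'.IsHermitian) (v : ℝ)
    (hv : 0 < v) : ‖res S v - res S' v‖ ≤ (1 / v) ^ 2 * ‖S' - S‖ := by
  rw [res_sub_res S S' hS hS' v hv.ne']
  calc ‖res S v * (S' - S) * res S' v‖ ≤ ‖res S v * (S' - S)‖ * ‖res S' v‖ := norm_mul_le _ _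
    _ ≤ (‖res S v‖ * ‖S' - S‖) * ‖res S' v‖ :=
        mul_le_mul_of_nonneg_right (norm_mul_le _ _) (norm_nonneg _)
    _ ≤ (1 / v * ‖S' - S‖) * (1 / v) := by
        have h1 := norm_res_le S hS v hv
        have h2 := norm_res_le S' hS' v hv
        gcongr
    _ = _ := by ring

theorem hasDerivAt_res (S B : Matrix ι ι ℂ) (hS : S.IsHermitian) (hB : B.IsHermitian) (v : ℝ)
    (hv : 0 < v) (t : ℝ) :
    HasDerivAt (fun t : ℝ => res (S + (t : ℂ) • B) v)
      (-(res (S + (t : ℂ) • B) v * B * res (S + (t : ℂ) • B) v)) t := by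
  have hH : ∀ t : ℝ, (S + (t : ℂ) • B).IsHermitian := by
    intro t
    refine hS.add ?_
    unfold Matrix.IsHermitian
    rw [Matrix.conjTranspose_smul, hB.eq]
    simp
  have hcont : Tendsto (fun s : ℝ => res (S + (s : ℂ) • B) v) (𝓝 t) (𝓝 (res (S + (t : ℂ) • B) v)) := by
    rw [tendsto_iff_norm_sub_tendsto_zero]
    have h0 : Tendsto (fun s : ℝ => (1 / v) ^ 2 * (|t - s| * ‖B‖)) (𝓝 t) (𝓝 0) := by
      have : Tendsto (fun s : ℝ => (1 / v) ^ 2 * (|t - s| * ‖B‖)) (𝓝 t)
          (𝓝 ((1 / v) ^ 2 * (|t - t| * ‖B‖))) := by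
        apply Continuous.tendsto
        fun_prop
      simpa using this
    refine squeeze_zero (fun s => norm_nonneg _) (fun s => ?_) h0
    refine (norm_res_sub_le _ _ (hH s) (hH t) v hv).trans ?_
    have : S + (t : ℂ) • B - (S + (s : ℂ) • B) = ((t - s : ℝ) : ℂ) • B := by
      rw [Complex.ofReal_sub, sub_smul]; abel
    rw [this, norm_smul, Complex.norm_real, Real.norm_eq_abs]
  rw [hasDerivAt_iff_tendsto_slope]
  have h1 : Tendsto (fun s : ℝ => -(res (S + (s : ℂ) • B) v * B * res (S + (t : ℂ) • B) v)) (𝓝[≠] t)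
      (𝓝 (-(res (S + (t : ℂ) • B) v * B * res (S + (t : ℂ) • B) v))) := by
    exact (((hcont.mono_left nhdsWithin_le_nhds).mul_const B).mul_const _).neg
  refine h1.congr' ?_
  filter_upwards [self_mem_nhdsWithin] with s hs
  rw [slope_def_module, res_sub_res _ _ (hH s) (hH t) v hv.ne']
  have : S + (t : ℂ) • B - (S + (s : ℂ) • B) = ((t - s : ℝ) : ℂ) • B := by
    rw [Complex.ofReal_sub, sub_smul]; abel
  rw [this, Matrix.mul_smul, Matrix.smul_mul]
  have hne : s - t ≠ 0 := sub_ne_zero.mpr hs
  have h2 : ∀ M : Matrix ι ι ℂ, (s - t)⁻¹ • (((t - s : ℝ) : ℂ) • M) = - M := by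
    intro M
    ext x y
    simp only [Matrix.smul_apply, Matrix.neg_apply, smul_eq_mul, Complex.real_smul]
    push_cast
    have : ((s : ℂ) - t) ≠ 0 := by exact_mod_cast hne
    field_simp
    ring
  rw [h2]

end Pool.Agent.helper97.GUE
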