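import Mathlib
import Pool.Agent.helper97.GUE.GM
import Pool.Agent.helper97.GUE.Stein
import Pool.Agent.helper97.GUE.Stability

set_option autoImplicit false
set_option linter.unusedSectionVars false
open MeasureTheory ProbabilityTheory Filter Topology
open scoped NNReal ENNReal Matrix ComplexOrder

namespace Pool.Agent.helper97.GUE

variable {κ ν : Type*} [Fintype κ] [DecidableEq κ] [Fintype ν] [DecidableEq ν]

/-- the random matrix -/
noncomputable def Smat (a : ν → Matrix κ κ ℂ) (N : ℕ) (ξ : Idx ν N → ℝ) :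
    Matrix (κ × Fin N) (κ × Fin N) ℂ :=
  ksum a (gue N (fun c => (ξ c : ℂ)))

theorem Smat_eq (a : ν → Matrix κ κ ℂ) (N : ℕ) (ξ : Idx ν N → ℝ) :
    Smat a N ξ = ∑ c, (ξ c : ℂ) • Bc a N c := ksum_gue a N _

theorem isHermitian_real_smul {ι : Type*} (B : Matrix ι ι ℂ) (hB : B.IsHermitian) (t : ℝ) :
    ((t : ℂ) • B).IsHermitian := by
  unfold Matrix.IsHermitian
  rw [Matrix.conjTranspose_smul, hB.eq]
  simp

theorem Smat_isHermitian (a : ν → Matrix κ κ ℂ) (ha : ∀ i, (a i).IsHermitian) (N : ℕ)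
    (ξ : Idx ν N → ℝ) : (Smat a N ξ).IsHermitian := by
  rw [Smat_eq]
  unfold Matrix.IsHermitian
  rw [Matrix.conjTranspose_sum]
  refine Finset.sum_congr rfl fun c _ => ?_
  exact isHermitian_real_smul _ (Bc_isHermitian a ha N c) _

theorem Smat_update (a : ν → Matrix κ κ ℂ) (N : ℕ) (ξ : Idx ν N → ℝ) (c : Idx ν N) (t : ℝ) :
    Smat a N (Function.update ξ c t)
      = Smat a N (Function.update ξ c 0) + (t : ℂ) • Bc a N c := by
  rw [Smat_eq, Smat_eq, ← Finset.add_sum_erase _ _ (Finset.mem_univ c),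
    ← Finset.add_sum_erase (f := fun c' => ((Function.update ξ c 0 c' : ℝ) : ℂ) • Bc a N c')
      _ (Finset.mem_univ c)]
  simp only [Function.update_self, Complex.ofReal_zero, zero_smul, zero_add]
  rw [add_comm]
  congr 1
  refine Finset.sum_congr rfl fun c' hc' => ?_
  rw [Function.update_of_ne (Finset.ne_of_mem_erase hc'),
    Function.update_of_ne (Finset.ne_of_mem_erase hc')]

theorem Smat_neg (a : ν → Matrix κ κ ℂ) (N : ℕ) (ξ : Idx ν N → ℝ) :
    Smat a N (-ξ) = - Smat a N ξ := by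
  rw [Smat_eq, Smat_eq, ← Finset.sum_neg_distrib]
  refine Finset.sum_congr rfl fun c _ => ?_
  simp

open scoped Matrix.Norms.L2Operator

theorem continuous_Smat (a : ν → Matrix κ κ ℂ) (N : ℕ) : Continuous (Smat a N) := by
  have : Smat a N = fun ξ => ∑ c, (ξ c : ℂ) • Bc a N c := by
    ext1 ξ; exact Smat_eq a N ξ
  rw [this]
  refine continuous_finsetSum _ fun c _ => ?_
  exact (Complex.continuous_ofReal.comp (continuous_apply c)).smul continuous_const

theorem continuous_res (a : ν → Matrix κ κ ℂ) (ha : ∀ i, (a i).IsHermitian) (N : ℕ) (v : ℝ)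
    (hv : 0 < v) : Continuous (fun ξ => res (Smat a N ξ) v) := by
  rw [continuous_iff_continuousAt]
  intro ξ
  rw [ContinuousAt, tendsto_iff_norm_sub_tendsto_zero]
  have h0 : Tendsto (fun ξ' => (1 / v) ^ 2 * ‖Smat a N ξ - Smat a N ξ'‖) (𝓝 ξ) (𝓝 0) := by
    have : Tendsto (fun ξ' => (1 / v) ^ 2 * ‖Smat a N ξ - Smat a N ξ'‖) (𝓝 ξ)
        (𝓝 ((1 / v) ^ 2 * ‖Smat a N ξ - Smat a N ξ‖)) := by
      apply Continuous.tendsto
      exact continuous_const.mul (continuous_const.sub (continuous_Smat a N)).norm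
    simpa using this
  refine squeeze_zero (fun s => norm_nonneg _) (fun s => ?_) h0
  exact norm_res_sub_le _ _ (Smat_isHermitian a ha N _) (Smat_isHermitian a ha N _) v hv

theorem entry_le_norm {ι : Type*} [Fintype ι] [DecidableEq ι] (M : Matrix ι ι ℂ) (x y : ι) :
    ‖M x y‖ ≤ ‖M‖ := by
  have h := dot_mulVec_le M (Pi.single y 1)
  rw [Matrix.mulVec_single_one] at h
  have h1 : (star (M.col y) ⬝ᵥ (M.col y)).re = ∑ z, ‖M z y‖ ^ 2 := by
    simp only [dotProduct, Pi.star_apply, Complex.re_sum, RCLike.star_def, Matrix.col_apply]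
    refine Finset.sum_congr rfl fun i _ => ?_
    rw [← Complex.normSq_eq_conj_mul_self, Complex.normSq_eq_norm_sq, Complex.ofReal_re]
  have h2 : (star (Pi.single y (1 : ℂ)) ⬝ᵥ (Pi.single y (1 : ℂ))).re = 1 := by
    simp
  rw [h1, h2, mul_one] at h
  have h3 : ‖M x y‖ ^ 2 ≤ ‖M‖ ^ 2 := by
    refine le_trans ?_ h
    exact Finset.single_le_sum (f := fun z => ‖M z y‖ ^ 2) (fun z _ => by positivity) (Finset.mem_univ x)
  exact (pow_le_pow_iff_left₀ (norm_nonneg _) (norm_nonneg _) two_ne_zero).mp h3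

theorem continuous_entry (a : ν → Matrix κ κ ℂ) (ha : ∀ i, (a i).IsHermitian) (N : ℕ) (v : ℝ)
    (hv : 0 < v) (B C : Matrix (κ × Fin N) (κ × Fin N) ℂ) (x y : κ × Fin N) :
    Continuous (fun ξ => (B * res (Smat a N ξ) v * C * res (Smat a N ξ) v) x y) := by
  have h := continuous_res a ha N v hv
  exact Continuous.matrix_elem (((continuous_const.mul h).mul continuous_const).mul h) x y

/-- Stein's identity for the product `S G` -/
theorem stein_SG (a : ν → Matrix κ κ ℂ) (ha : ∀ i, (a i).IsHermitian) (N : ℕ) (v : ℝ)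
    (hv : 0 < v) (x y : κ × Fin N) :
    ∫ ξ, (Smat a N ξ * res (Smat a N ξ) v) x y ∂(gm ν N)
      = - ∫ ξ, (Matrix.kronecker (∑ i, a i * ptr (res (Smat a N ξ) v) * a i)
          (1 : Matrix (Fin N) (Fin N) ℂ) * res (Smat a N ξ) v) x y ∂(gm ν N) := by
  set G := fun ξ => res (Smat a N ξ) v with hG
  have hGc : Continuous G := continuous_res a ha N v hv
  have hGn : ∀ ξ, ‖G ξ‖ ≤ 1 / v := fun ξ => norm_res_le _ (Smat_isHermitian a ha N ξ) v hv
  have hFm : ∀ c, Continuous (fun ξ => (Bc a N c * G ξ) x y) := fun c =>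
    Continuous.matrix_elem (continuous_const.mul hGc) x y
  have hFm' : ∀ c, Continuous (fun ξ => (Bc a N c * G ξ * Bc a N c * G ξ) x y) := fun c =>
    Continuous.matrix_elem (((continuous_const.mul hGc).mul continuous_const).mul hGc) x y
  have hb : ∀ c ξ, ‖(Bc a N c * G ξ) x y‖ ≤ ‖Bc a N c‖ * (1 / v) := by
    intro c ξ
    refine (entry_le_norm _ _ _).trans ((norm_mul_le _ _).trans ?_)
    exact mul_le_mul_of_nonneg_left (hGn ξ) (norm_nonneg _)
  have hb' : ∀ c ξ, ‖(Bc a N c * G ξ * Bc a N c * G ξ) x y‖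
      ≤ ‖Bc a N c‖ * (1 / v) * ‖Bc a N c‖ * (1 / v) := by
    intro c ξ
    refine (entry_le_norm _ _ _).trans ((norm_mul_le _ _).trans ?_)
    refine mul_le_mul ((norm_mul_le _ _).trans ?_) (hGn ξ) (norm_nonneg _) (by positivity)
    refine mul_le_mul ((norm_mul_le _ _).trans ?_) le_rfl (norm_nonneg _) (by positivity)
    exact mul_le_mul_of_nonneg_left (hGn ξ) (norm_nonneg _)
  have hst : ∀ c, ∫ ξ, (ξ c : ℂ) * (Bc a N c * G ξ) x y ∂(gm ν N)
      = ∫ ξ, -(Bc a N c * G ξ * Bc a N c * G ξ) x y ∂(gm ν N) := by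
    intro c
    refine stein_pi c (fun ξ => (Bc a N c * G ξ) x y) (fun ξ => -(Bc a N c * G ξ * Bc a N c * G ξ) x y)
      ?_ _ _ (hb c) (fun ξ => by rw [norm_neg]; exact hb' c ξ) (hFm c).measurable (hFm' c).neg.measurable
    intro ξ t
    have hBH := Bc_isHermitian a ha N c
    have h1 := hasDerivAt_res (Smat a N (Function.update ξ c 0)) (Bc a N c)
      (Smat_isHermitian a ha N _) hBH v hv t
    have h2 : (fun t : ℝ => (Bc a N c * G (Function.update ξ c t)) x y)
        = fun t : ℝ => (Bc a N c * res (Smat a N (Function.update ξ c 0) + (t : ℂ) • Bc a N c) v) x y := by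
      ext t
      simp only [hG]
      rw [Smat_update a N ξ c t]
    rw [h2]
    let L : Matrix (κ × Fin N) (κ × Fin N) ℂ →ₗ[ℝ] ℂ :=
      { toFun := fun M => (Bc a N c * M) x y
        map_add' := fun M M' => by rw [Matrix.mul_add, Matrix.add_apply]
        map_smul' := fun r M => by
          rw [Matrix.mul_smul, Matrix.smul_apply]; rfl }
    have hL := (LinearMap.toContinuousLinearMap L).hasFDerivAt.comp_hasDerivAt t h1
    have h3 : HasDerivAt (fun t : ℝ => (Bc a N c * res (Smat a N (Function.update ξ c 0) + (t : ℂ) • Bc a N c) v) x y)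
      ((Bc a N c * -(res (Smat a N (Function.update ξ c 0) + (t : ℂ) • Bc a N c) v * Bc a N c *
          res (Smat a N (Function.update ξ c 0) + (t : ℂ) • Bc a N c) v)) x y) t := hL
    refine h3.congr_deriv ?_
    simp only [hG]
    rw [Smat_update a N ξ c t, Matrix.mul_neg, Matrix.neg_apply]
    simp only [Matrix.mul_assoc]
  have hint1 : ∀ c, Integrable (fun ξ => (ξ c : ℂ) * (Bc a N c * G ξ) x y) (gm ν N) := by
    intro c
    exact integrable_coord_mul c (fun ξ => (Bc a N c * G ξ) x y) _ (hb c) (hFm c).measurable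
  have hint2 : ∀ c, Integrable (fun ξ => (Bc a N c * G ξ * Bc a N c * G ξ) x y) (gm ν N) := by
    intro c
    exact Integrable.of_bound (hFm' c).aestronglyMeasurable _ (ae_of_all _ (hb' c))
  have h1 : ∀ ξ, (Smat a N ξ * G ξ) x y = ∑ c, (ξ c : ℂ) * (Bc a N c * G ξ) x y := by
    intro ξ
    rw [Smat_eq, Finset.sum_mul, Matrix.sum_apply]
    refine Finset.sum_congr rfl fun c _ => ?_
    rw [Matrix.smul_mul, Matrix.smul_apply, smul_eq_mul]
  have h2 : ∀ ξ, (Matrix.kronecker (∑ i, a i * ptr (G ξ) * a i)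
          (1 : Matrix (Fin N) (Fin N) ℂ) * G ξ) x y
      = ∑ c, (Bc a N c * G ξ * Bc a N c * G ξ) x y := by
    intro ξ
    rw [← sum_Bc_mul a N (G ξ), Finset.sum_mul, Matrix.sum_apply]
  have e1 : ∫ ξ, (Smat a N ξ * G ξ) x y ∂(gm ν N)
      = ∫ ξ, ∑ c, (ξ c : ℂ) * (Bc a N c * G ξ) x y ∂(gm ν N) :=
    integral_congr_ae (ae_of_all _ h1)
  have e2 : ∫ ξ, (Matrix.kronecker (∑ i, a i * ptr (G ξ) * a i)
          (1 : Matrix (Fin N) (Fin N) ℂ) * G ξ) x y ∂(gm ν N)
      = ∫ ξ, ∑ c, (Bc a N c * G ξ * Bc a N c * G ξ) x y ∂(gm ν N) :=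
    integral_congr_ae (ae_of_all _ h2)
  rw [e1, e2, integral_finsetSum _ fun c _ => hint1 c, integral_finsetSum _ fun c _ => hint2 c,
    ← Finset.sum_neg_distrib]
  refine Finset.sum_congr rfl fun c _ => ?_
  rw [hst c, integral_neg]

end Pool.Agent.helper97.GUE
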