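import Mathlib
import Pool.Agent.helper97.GUE.Dyson

set_option autoImplicit false
set_option linter.unusedSectionVars false
open MeasureTheory ProbabilityTheory Filter Topology
open scoped NNReal ENNReal Matrix ComplexOrder
open scoped Matrix.Norms.L2Operator

namespace Pool.Agent.helper97.GUE

variable {κ ν : Type*} [Fintype κ] [DecidableEq κ] [Fintype ν] [DecidableEq ν]

/-- test matrix for entries of the partial trace -/
noncomputable def tst (κ : Type*) [DecidableEq κ] (N : ℕ) (α β : κ) :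
    Matrix (κ × Fin N) (κ × Fin N) ℂ :=
  Matrix.of fun x y => if x.1 = β ∧ y.1 = α ∧ x.2 = y.2 then 1 else 0

theorem ptr_apply_eq_trace {N : ℕ} (G : Matrix (κ × Fin N) (κ × Fin N) ℂ) (α β : κ) :
    ptr G α β = (1 / (N : ℂ)) * (G * tst κ N α β).trace := by
  simp only [ptr, Matrix.of_apply, Matrix.trace, Matrix.diag, Matrix.mul_apply, tst]
  congr 1
  rw [Fintype.sum_prod_type]
  rw [Finset.sum_eq_single α]
  · refine Finset.sum_congr rfl fun k _ => ?_
    rw [Fintype.sum_prod_type, Finset.sum_eq_single β, Finset.sum_eq_single k]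
    · simp
    · intro l _ hl; simp [hl]
    · simp
    · intro b _ hb; simp [hb]
    · simp
  · intro b _ hb
    simp [hb]
  · simp

theorem norm_tst_le (N : ℕ) (α β : κ) : ‖tst κ N α β‖ ≤ 1 := by
  apply norm_le_of_dot _ _ zero_le_one
  intro x
  have h1 : tst κ N α β *ᵥ x = fun y => if y.1 = β then x (α, y.2) else 0 := by
    ext y
    simp only [Matrix.mulVec, dotProduct, tst, Matrix.of_apply, Fintype.sum_prod_type]
    rw [Finset.sum_eq_single α, Finset.sum_eq_single y.2]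
    · simp
    · intro b _ hb; simp [Ne.symm hb]
    · simp
    · intro b _ hb; simp [hb]
    · simp
  rw [h1]
  have h2 : ∀ z : κ × Fin N → ℂ, (star z ⬝ᵥ z).re = ∑ y, ‖z y‖ ^ 2 := by
    intro z
    simp only [dotProduct, Pi.star_apply, Complex.re_sum, RCLike.star_def]
    refine Finset.sum_congr rfl fun i _ => ?_
    rw [← Complex.normSq_eq_conj_mul_self, Complex.normSq_eq_norm_sq, Complex.ofReal_re]
  rw [h2, h2, one_pow, one_mul, Fintype.sum_prod_type, Fintype.sum_prod_type]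
  rw [Finset.sum_eq_single β]
  · simp only [if_true]
    exact Finset.single_le_sum (f := fun a => ∑ k, ‖x (a, k)‖ ^ 2)
      (fun a _ => Finset.sum_nonneg fun k _ => by positivity) (Finset.mem_univ α)
  · intro b _ hb
    simp [hb]
  · simp

/-- bounded differences for the partial trace -/
theorem ptr_bdd_diff (a : ν → Matrix κ κ ℂ) (ha : ∀ i, (a i).IsHermitian) (N : ℕ) (v : ℝ)
    (hv : 0 < v) (j : Fin N) (ξ ξ' : Idx ν N → ℝ) (h : ∀ c : Idx ν N, c.1 ≠ j → ξ c = ξ' c)
    (α β : κ) :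
    ‖ptr (res (Smat a N ξ) v) α β - ptr (res (Smat a N ξ') v) α β‖
      ≤ 4 * Fintype.card κ / (N * v) := by
  rw [ptr_apply_eq_trace, ptr_apply_eq_trace, ← mul_sub, ← Matrix.trace_sub, ← Matrix.sub_mul]
  have h1 := res_zero_rank (Smat a N ξ) (Smat a N ξ') (Smat_isHermitian a ha N _)
    (Smat_isHermitian a ha N _) v hv (2 * Fintype.card κ) (by
      unfold Smat
      apply rank_ksum_sub a N _ _ j
      intro c hc
      rw [h c hc]) (tst κ N α β)
  rw [norm_mul]
  have hN : (0 : ℝ) < N := by exact_mod_cast Fin.pos j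
  have h2 : ‖(1 / (N : ℂ))‖ = 1 / N := by simp
  rw [h2]
  calc 1 / (N : ℝ) * ‖((res (Smat a N ξ) v - res (Smat a N ξ') v) * tst κ N α β).trace‖
      ≤ 1 / (N : ℝ) * ((2 * Fintype.card κ : ℕ) * (2 / v * ‖tst κ N α β‖)) :=
        mul_le_mul_of_nonneg_left h1 (by positivity)
    _ ≤ 1 / (N : ℝ) * ((2 * Fintype.card κ : ℕ) * (2 / v * 1)) := by
        have := norm_tst_le (κ := κ) N α β
        gcongr
    _ = 4 * Fintype.card κ / (N * v) := by
        push_cast; field_simp; ring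

theorem trace_bdd_diff (a : ν → Matrix κ κ ℂ) (ha : ∀ i, (a i).IsHermitian) (N : ℕ) (v : ℝ)
    (hv : 0 < v) (j : Fin N) (ξ ξ' : Idx ν N → ℝ) (h : ∀ c : Idx ν N, c.1 ≠ j → ξ c = ξ' c) :
    ‖(res (Smat a N ξ) v).trace - (res (Smat a N ξ') v).trace‖
      ≤ 4 * Fintype.card κ / v := by
  rw [← Matrix.trace_sub]
  have h1 := res_zero_rank (Smat a N ξ) (Smat a N ξ') (Smat_isHermitian a ha N _)
    (Smat_isHermitian a ha N _) v hv (2 * Fintype.card κ) (by
      unfold Smat
      apply rank_ksum_sub a N _ _ j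
      intro c hc
      rw [h c hc]) 1
  rw [Matrix.mul_one] at h1
  refine h1.trans ?_
  have h3 : ‖(1 : Matrix (κ × Fin N) (κ × Fin N) ℂ)‖ ≤ 1 := by
    apply norm_le_of_dot _ _ zero_le_one
    intro x
    simp
  calc ((2 * Fintype.card κ : ℕ) : ℝ) * (2 / v * ‖(1 : Matrix (κ × Fin N) (κ × Fin N) ℂ)‖)
      ≤ ((2 * Fintype.card κ : ℕ) : ℝ) * (2 / v * 1) := by gcongr
    _ = 4 * Fintype.card κ / v := by push_cast; ring

/-- the expected partial trace -/
noncomputable def Gb (a : ν → Matrix κ κ ℂ) (N : ℕ) (v : ℝ) : Matrix κ κ ℂ :=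
  Matrix.of fun α β => ∫ ξ, ptr (res (Smat a N ξ) v) α β ∂(gm ν N)

theorem continuous_ptr (a : ν → Matrix κ κ ℂ) (ha : ∀ i, (a i).IsHermitian) (N : ℕ) (v : ℝ)
    (hv : 0 < v) (α β : κ) : Continuous (fun ξ => ptr (res (Smat a N ξ) v) α β) := by
  simp only [ptr, Matrix.of_apply]
  refine continuous_const.mul (continuous_finsetSum _ fun k _ => ?_)
  exact Continuous.matrix_elem (continuous_res a ha N v hv) _ _

theorem norm_ptr_le (a : ν → Matrix κ κ ℂ) (ha : ∀ i, (a i).IsHermitian) (N : ℕ) (v : ℝ)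
    (hv : 0 < v) (ξ : Idx ν N → ℝ) (α β : κ) : ‖ptr (res (Smat a N ξ) v) α β‖ ≤ 1 / v := by
  rcases Nat.eq_zero_or_pos N with h0 | h0
  · subst h0
    simp only [ptr, Matrix.of_apply]
    simp
    exact hv.le
  · simp only [ptr, Matrix.of_apply]
    rw [norm_mul]
    have h2 : ‖(1 / (N : ℂ))‖ = 1 / N := by simp
    rw [h2]
    have hN : (0 : ℝ) < N := by exact_mod_cast h0
    calc 1 / (N : ℝ) * ‖∑ k, res (Smat a N ξ) v (α, k) (β, k)‖
        ≤ 1 / (N : ℝ) * ∑ k : Fin N, 1 / v := by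
          apply mul_le_mul_of_nonneg_left _ (by positivity)
          refine (norm_sum_le _ _).trans (Finset.sum_le_sum fun k _ => ?_)
          exact (entry_le_norm _ _ _).trans (norm_res_le _ (Smat_isHermitian a ha N ξ) v hv)
      _ = 1 / v := by
          simp only [Finset.sum_const, Finset.card_univ, Fintype.card_fin, nsmul_eq_mul]
          field_simp

theorem integrable_ptr (a : ν → Matrix κ κ ℂ) (ha : ∀ i, (a i).IsHermitian) (N : ℕ) (v : ℝ)
    (hv : 0 < v) (α β : κ) : Integrable (fun ξ => ptr (res (Smat a N ξ) v) α β) (gm ν N) :=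
  Integrable.of_bound (continuous_ptr a ha N v hv α β).aestronglyMeasurable _
    (ae_of_all _ fun ξ => norm_ptr_le a ha N v hv ξ α β)

theorem dyson_raw (a : ν → Matrix κ κ ℂ) (ha : ∀ i, (a i).IsHermitian) (N : ℕ) (hN : 0 < N)
    (v : ℝ) (hv : 0 < v) (α β : κ) :
    (1 : Matrix κ κ ℂ) α β + ((v : ℂ) * Complex.I) * Gb a N v α β
      = - ∫ ξ, ((∑ i, a i * ptr (res (Smat a N ξ) v) * a i) * ptr (res (Smat a N ξ) v)) α β
          ∂(gm ν N) := by
  set G := fun ξ => res (Smat a N ξ) v with hG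
  have hGc : Continuous G := continuous_res a ha N v hv
  have hGn : ∀ ξ, ‖G ξ‖ ≤ 1 / v := fun ξ => norm_res_le _ (Smat_isHermitian a ha N ξ) v hv
  have hI : ∀ x y, Integrable (fun ξ => G ξ x y) (gm ν N) := by
    intro x y
    exact Integrable.of_bound (Continuous.matrix_elem hGc x y).aestronglyMeasurable (1 / v)
      (ae_of_all _ fun ξ => (entry_le_norm _ _ _).trans (hGn ξ))
  -- the right-hand side
  have hptrc : Continuous (fun ξ => ptr (G ξ)) := by
    apply continuous_matrix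
    intro α β
    exact continuous_ptr a ha N v hv α β
  set H := fun ξ => Matrix.kronecker (∑ i, a i * ptr (G ξ) * a i) (1 : Matrix (Fin N) (Fin N) ℂ) * G ξ with hH
  have hHG : ∀ ξ, H ξ = ∑ c, Bc a N c * G ξ * Bc a N c * G ξ := by
    intro ξ
    simp only [hH]
    rw [← sum_Bc_mul a N (G ξ), Finset.sum_mul]
  have hHI : ∀ x y, Integrable (fun ξ => H ξ x y) (gm ν N) := by
    intro x y
    have : (fun ξ => H ξ x y) = fun ξ => ∑ c, (Bc a N c * G ξ * Bc a N c * G ξ) x y := by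
      ext ξ
      rw [hHG, Matrix.sum_apply]
    rw [this]
    refine integrable_finsetSum _ fun c _ => ?_
    have hFm' : Continuous (fun ξ => (Bc a N c * G ξ * Bc a N c * G ξ) x y) :=
      Continuous.matrix_elem (((continuous_const.mul hGc).mul continuous_const).mul hGc) x y
    refine Integrable.of_bound hFm'.aestronglyMeasurable
      (‖Bc a N c‖ * (1 / v) * ‖Bc a N c‖ * (1 / v)) (ae_of_all _ fun ξ => ?_)
    refine (entry_le_norm _ _ _).trans ((norm_mul_le _ _).trans ?_)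
    refine mul_le_mul ((norm_mul_le _ _).trans ?_) (hGn ξ) (norm_nonneg _) (by positivity)
    refine mul_le_mul ((norm_mul_le _ _).trans ?_) le_rfl (norm_nonneg _) (by positivity)
    exact mul_le_mul_of_nonneg_left (hGn ξ) (norm_nonneg _)
  have h1 : ∀ ξ, ((∑ i, a i * ptr (G ξ) * a i) * ptr (G ξ)) α β
      = (1 / (N : ℂ)) * ∑ k, H ξ (α, k) (β, k) := by
    intro ξ
    rw [← ptr_kron_mul]
    rfl
  have h2 : ∫ ξ, ((∑ i, a i * ptr (G ξ) * a i) * ptr (G ξ)) α β ∂(gm ν N)
      = (1 / (N : ℂ)) * ∑ k, ∫ ξ, H ξ (α, k) (β, k) ∂(gm ν N) := by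
    rw [integral_congr_ae (ae_of_all _ h1), integral_const_mul,
      integral_finsetSum _ fun k _ => hHI _ _]
  have h3 : Gb a N v α β = (1 / (N : ℂ)) * ∑ k, ∫ ξ, G ξ (α, k) (β, k) ∂(gm ν N) := by
    simp only [Gb, Matrix.of_apply, ptr]
    rw [integral_const_mul, integral_finsetSum _ fun k _ => hI _ _]
  have h4 : ∀ x y, ∫ ξ, H ξ x y ∂(gm ν N)
      = -((1 : Matrix (κ × Fin N) (κ × Fin N) ℂ) x y + ((v : ℂ) * Complex.I) * ∫ ξ, G ξ x y ∂(gm ν N)) := by
    intro x y
    have h5 := stein_SG a ha N v hv x y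
    have h6 : ∀ ξ, (Smat a N ξ * G ξ) x y
        = (1 : Matrix (κ × Fin N) (κ × Fin N) ℂ) x y + ((v : ℂ) * Complex.I) * G ξ x y := by
      intro ξ
      rw [self_mul_res _ (Smat_isHermitian a ha N ξ) v hv.ne', Matrix.add_apply, Matrix.smul_apply,
        smul_eq_mul]
    rw [integral_congr_ae (ae_of_all _ h6), integral_add (integrable_const _)
      ((hI x y).const_mul _), integral_const_mul] at h5
    simp only [integral_const, probReal_univ, one_smul] at h5
    rw [h5]
    rw [neg_neg]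
  rw [h2, h3]
  simp_rw [h4]
  rw [Finset.sum_neg_distrib, mul_neg, neg_neg, Finset.sum_add_distrib, mul_add, ← Finset.mul_sum]
  have hNc : (N : ℂ) ≠ 0 := by exact_mod_cast hN.ne'
  have h7 : (1 / (N : ℂ)) * ∑ k : Fin N, (1 : Matrix (κ × Fin N) (κ × Fin N) ℂ) (α, k) (β, k)
      = (1 : Matrix κ κ ℂ) α β := by
    have := congrFun (congrFun (ptr_one (κ := κ) hN) α) β
    exact this
  rw [h7]
  ring

end Pool.Agent.helper97.GUE
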