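import Mathlib
import Pool.Agent.helper97.GUE.Dyson2

set_option autoImplicit false
set_option linter.unusedSectionVars false
open MeasureTheory ProbabilityTheory Filter Topology
open scoped NNReal ENNReal Matrix ComplexOrder

namespace Pool.Agent.helper97.GUE

variable {κ ν : Type*} [Fintype κ] [DecidableEq κ] [Fintype ν] [DecidableEq ν]

theorem var_ptr (a : ν → Matrix κ κ ℂ) (ha : ∀ i, (a i).IsHermitian) (N : ℕ) (v : ℝ)
    (hv : 0 < v) (α β : κ) :
    ∫ ξ, ‖ptr (res (Smat a N ξ) v) α β - Gb a N v α β‖ ^ 2 ∂(gm ν N)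
      ≤ 4 * (N * (4 * Fintype.card κ / (N * v)) ^ 2) := by
  set f := fun ξ => ptr (res (Smat a N ξ) v) α β with hf
  have hfc : Continuous f := continuous_ptr a ha N v hv α β
  have hfI : Integrable f (gm ν N) := integrable_ptr a ha N v hv α β
  have hfb : ∀ ξ, ‖f ξ‖ ≤ 1 / v := fun ξ => norm_ptr_le a ha N v hv ξ α β
  have hre : (Gb a N v α β).re = ∫ ξ, (f ξ).re ∂(gm ν N) := by
    simp only [Gb, Matrix.of_apply]
    exact (Complex.reCLM.integral_comp_comm hfI).symm
  have him : (Gb a N v α β).im = ∫ ξ, (f ξ).im ∂(gm ν N) := by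
    simp only [Gb, Matrix.of_apply]
    exact (Complex.imCLM.integral_comp_comm hfI).symm
  have h1 := gm_mcdiarmid_var N (fun ξ => (f ξ).re) (Complex.continuous_re.comp hfc).measurable
    (4 * Fintype.card κ / (N * v)) (by positivity) (by
      intro j x y hxy
      have := ptr_bdd_diff a ha N v hv j x y hxy α β
      refine le_trans ?_ this
      rw [← Complex.sub_re]
      exact Complex.abs_re_le_norm _)
  have h2 := gm_mcdiarmid_var N (fun ξ => (f ξ).im) (Complex.continuous_im.comp hfc).measurable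
    (4 * Fintype.card κ / (N * v)) (by positivity) (by
      intro j x y hxy
      have := ptr_bdd_diff a ha N v hv j x y hxy α β
      refine le_trans ?_ this
      rw [← Complex.sub_im]
      exact Complex.abs_im_le_norm _)
  have hb1 : ∀ ξ, ‖((f ξ).re - ∫ ξ, (f ξ).re ∂(gm ν N)) ^ 2‖ ≤ (1 / v + |∫ ξ, (f ξ).re ∂(gm ν N)|) ^ 2 := by
    intro ξ
    rw [norm_pow, Real.norm_eq_abs]
    apply pow_le_pow_left₀ (abs_nonneg _)
    refine (abs_sub _ _).trans ?_
    exact add_le_add ((Complex.abs_re_le_norm _).trans (hfb ξ)) le_rfl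
  have hb2 : ∀ ξ, ‖((f ξ).im - ∫ ξ, (f ξ).im ∂(gm ν N)) ^ 2‖ ≤ (1 / v + |∫ ξ, (f ξ).im ∂(gm ν N)|) ^ 2 := by
    intro ξ
    rw [norm_pow, Real.norm_eq_abs]
    apply pow_le_pow_left₀ (abs_nonneg _)
    refine (abs_sub _ _).trans ?_
    exact add_le_add ((Complex.abs_im_le_norm _).trans (hfb ξ)) le_rfl
  have i1 : Integrable (fun ξ => ((f ξ).re - ∫ ξ, (f ξ).re ∂(gm ν N)) ^ 2) (gm ν N) :=
    Integrable.of_bound (((Complex.continuous_re.comp hfc).sub continuous_const).pow 2).aestronglyMeasurable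
      _ (ae_of_all _ hb1)
  have i2 : Integrable (fun ξ => ((f ξ).im - ∫ ξ, (f ξ).im ∂(gm ν N)) ^ 2) (gm ν N) :=
    Integrable.of_bound (((Complex.continuous_im.comp hfc).sub continuous_const).pow 2).aestronglyMeasurable
      _ (ae_of_all _ hb2)
  have h3 : ∀ ξ, ‖f ξ - Gb a N v α β‖ ^ 2 = ((f ξ).re - ∫ ξ, (f ξ).re ∂(gm ν N)) ^ 2
      + ((f ξ).im - ∫ ξ, (f ξ).im ∂(gm ν N)) ^ 2 := by
    intro ξ
    rw [← Complex.normSq_eq_norm_sq, Complex.normSq_apply, Complex.sub_re, Complex.sub_im, hre, him]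
    ring
  rw [integral_congr_ae (ae_of_all _ h3), integral_add i1 i2]
  linarith

theorem cross_bound (a : ν → Matrix κ κ ℂ) (ha : ∀ i, (a i).IsHermitian) (N : ℕ) (v : ℝ)
    (hv : 0 < v) (α β γ δ : κ) :
    ‖∫ ξ, (ptr (res (Smat a N ξ) v) α β - Gb a N v α β)
        * (ptr (res (Smat a N ξ) v) γ δ - Gb a N v γ δ) ∂(gm ν N)‖
      ≤ 4 * (N * (4 * Fintype.card κ / (N * v)) ^ 2) := by
  have key : ∀ α β, Integrable (fun ξ => ‖ptr (res (Smat a N ξ) v) α β - Gb a N v α β‖ ^ 2) (gm ν N) := by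
    intro α β
    refine Integrable.of_bound (C := (1 / v + ‖Gb a N v α β‖) ^ 2)
      (((continuous_ptr a ha N v hv α β).sub continuous_const).norm.pow 2).aestronglyMeasurable
      (ae_of_all _ fun ξ => ?_)
    rw [norm_pow, norm_norm]
    apply pow_le_pow_left₀ (norm_nonneg _)
    refine (norm_sub_le _ _).trans ?_
    exact add_le_add (norm_ptr_le a ha N v hv ξ α β) le_rfl
  have h1 := var_ptr a ha N v hv α β
  have h2 := var_ptr a ha N v hv γ δ
  calc _ ≤ ∫ ξ, (1 / 2) * (‖ptr (res (Smat a N ξ) v) α β - Gb a N v α β‖ ^ 2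
        + ‖ptr (res (Smat a N ξ) v) γ δ - Gb a N v γ δ‖ ^ 2) ∂(gm ν N) := by
        refine norm_integral_le_of_norm_le (((key α β).add (key γ δ)).const_mul _) (ae_of_all _ fun ξ => ?_)
        rw [norm_mul]
        have := sq_nonneg (‖ptr (res (Smat a N ξ) v) α β - Gb a N v α β‖
          - ‖ptr (res (Smat a N ξ) v) γ δ - Gb a N v γ δ‖)
        nlinarith
    _ = (1 / 2) * (∫ ξ, ‖ptr (res (Smat a N ξ) v) α β - Gb a N v α β‖ ^ 2 ∂(gm ν N)
        + ∫ ξ, ‖ptr (res (Smat a N ξ) v) γ δ - Gb a N v γ δ‖ ^ 2 ∂(gm ν N)) := by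
        rw [integral_const_mul, integral_add (key α β) (key γ δ)]
    _ ≤ _ := by linarith

/-- the remainder matrix -/
noncomputable def Rem (a : ν → Matrix κ κ ℂ) (N : ℕ) (v : ℝ) : Matrix κ κ ℂ :=
  Matrix.of fun α β => ∑ i, ∑ γ, ∑ δ, ∑ ε, (a i α γ * a i δ ε) *
    ∫ ξ, (ptr (res (Smat a N ξ) v) γ δ - Gb a N v γ δ)
        * (ptr (res (Smat a N ξ) v) ε β - Gb a N v ε β) ∂(gm ν N)

theorem eta_mul_apply (a : ν → Matrix κ κ ℂ) (G G' : Matrix κ κ ℂ) (α β : κ) :
    ((∑ i, a i * G * a i) * G') α β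
      = ∑ i, ∑ γ, ∑ δ, ∑ ε, (a i α γ * a i δ ε) * (G γ δ * G' ε β) := by
  rw [Finset.sum_mul, Matrix.sum_apply]
  refine Finset.sum_congr rfl fun i _ => ?_
  simp only [Matrix.mul_apply, Finset.sum_mul]
  rw [Finset.sum_comm]
  have h : ∀ δ : κ, ∑ ε, ∑ γ, a i α γ * G γ δ * a i δ ε * G' ε β
      = ∑ γ, ∑ ε, a i α γ * G γ δ * a i δ ε * G' ε β := fun δ => Finset.sum_comm
  rw [Finset.sum_congr rfl fun δ _ => h δ, Finset.sum_comm]
  refine Finset.sum_congr rfl fun γ _ => Finset.sum_congr rfl fun δ _ =>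
    Finset.sum_congr rfl fun ε _ => ?_
  ring

theorem dyson_eq (a : ν → Matrix κ κ ℂ) (ha : ∀ i, (a i).IsHermitian) (N : ℕ) (hN : 0 < N)
    (v : ℝ) (hv : 0 < v) :
    (1 : Matrix κ κ ℂ) + ((v : ℂ) * Complex.I) • Gb a N v
      = - ((∑ i, a i * Gb a N v * a i) * Gb a N v) - Rem a N v := by
  ext α β
  rw [Matrix.add_apply, Matrix.smul_apply, smul_eq_mul, dyson_raw a ha N hN v hv α β,
    Matrix.sub_apply, Matrix.neg_apply, ← neg_add']
  congr 1
  rw [eta_mul_apply]
  simp only [Rem, Matrix.of_apply]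
  simp_rw [eta_mul_apply]
  set f := fun (α β : κ) ξ => ptr (res (Smat a N ξ) v) α β with hf
  have hfc : ∀ α β, Continuous (f α β) := continuous_ptr a ha N v hv
  have hfI : ∀ α β, Integrable (f α β) (gm ν N) := integrable_ptr a ha N v hv
  have hfb : ∀ α β ξ, ‖f α β ξ‖ ≤ 1 / v := fun α β ξ => norm_ptr_le a ha N v hv ξ α β
  have hGb : ∀ α β, Gb a N v α β = ∫ ξ, f α β ξ ∂(gm ν N) := fun α β => rfl
  have hff : ∀ α β γ δ, Integrable (fun ξ => f α β ξ * f γ δ ξ) (gm ν N) := by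
    intro α β γ δ
    exact (hfI α β).mul_bdd (c := 1 / v) (hfc γ δ).aestronglyMeasurable (ae_of_all _ (hfb γ δ))
  have hprod : ∀ α β γ δ, ∫ ξ, f α β ξ * f γ δ ξ ∂(gm ν N)
      = Gb a N v α β * Gb a N v γ δ
        + ∫ ξ, (f α β ξ - Gb a N v α β) * (f γ δ ξ - Gb a N v γ δ) ∂(gm ν N) := by
    intro α β γ δ
    have h1 : ∀ ξ, (f α β ξ - Gb a N v α β) * (f γ δ ξ - Gb a N v γ δ)
        = f α β ξ * f γ δ ξ - (Gb a N v γ δ * f α β ξ + Gb a N v α β * f γ δ ξ
          - Gb a N v α β * Gb a N v γ δ) := by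
      intro ξ; ring
    have i1 : Integrable (fun ξ => Gb a N v γ δ * f α β ξ) (gm ν N) := (hfI _ _).const_mul _
    have i2 : Integrable (fun ξ => Gb a N v α β * f γ δ ξ) (gm ν N) := (hfI _ _).const_mul _
    have i3 : Integrable (fun ξ => Gb a N v γ δ * f α β ξ + Gb a N v α β * f γ δ ξ) (gm ν N) :=
      i1.add i2
    have i4 : Integrable (fun ξ => Gb a N v γ δ * f α β ξ + Gb a N v α β * f γ δ ξ
      - Gb a N v α β * Gb a N v γ δ) (gm ν N) := i3.sub (integrable_const _)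
    rw [integral_congr_ae (ae_of_all _ h1), integral_sub (hff α β γ δ) i4,
      integral_sub i3 (integrable_const _), integral_add i1 i2, integral_const_mul,
      integral_const_mul, ← hGb, ← hGb]
    simp only [integral_const, probReal_univ, one_smul]
    ring
  rw [integral_finsetSum, ← Finset.sum_add_distrib]
  swap
  · intro i _
    refine integrable_finsetSum _ fun γ _ => integrable_finsetSum _ fun δ _ =>
      integrable_finsetSum _ fun ε _ => (hff _ _ _ _).const_mul _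
  refine Finset.sum_congr rfl fun i _ => ?_
  rw [integral_finsetSum, ← Finset.sum_add_distrib]
  swap
  · intro γ _
    refine integrable_finsetSum _ fun δ _ => integrable_finsetSum _ fun ε _ => (hff _ _ _ _).const_mul _
  refine Finset.sum_congr rfl fun γ _ => ?_
  rw [integral_finsetSum, ← Finset.sum_add_distrib]
  swap
  · intro δ _
    refine integrable_finsetSum _ fun ε _ => (hff _ _ _ _).const_mul _
  refine Finset.sum_congr rfl fun δ _ => ?_
  rw [integral_finsetSum, ← Finset.sum_add_distrib]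
  swap
  · intro ε _
    exact (hff _ _ _ _).const_mul _
  refine Finset.sum_congr rfl fun ε _ => ?_
  rw [integral_const_mul, hprod]
  ring

end Pool.Agent.helper97.GUE
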