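import Mathlib
import Pool.Agent.helper97.GUE.Dyson3

set_option autoImplicit false
set_option linter.unusedSectionVars false
open MeasureTheory ProbabilityTheory Filter Topology
open scoped NNReal ENNReal Matrix ComplexOrder

namespace Pool.Agent.helper97.GUE

variable {κ ν : Type*} [Fintype κ] [DecidableEq κ] [Fintype ν] [DecidableEq ν]

theorem res_neg {ι : Type*} [Fintype ι] [DecidableEq ι] (S : Matrix ι ι ℂ) (hS : S.IsHermitian)
    (v : ℝ) : res (-S) v = -(res S v)ᴴ := by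
  unfold res
  rw [Matrix.conjTranspose_nonsing_inv, Matrix.conjTranspose_sub, hS.eq,
    Matrix.conjTranspose_smul, Matrix.conjTranspose_one]
  have h1 : -S - ((v : ℂ) * Complex.I) • (1 : Matrix ι ι ℂ)
      = -(S - star ((v : ℂ) * Complex.I) • (1 : Matrix ι ι ℂ)) := by
    have : star ((v : ℂ) * Complex.I) = -((v : ℂ) * Complex.I) := by simp
    rw [this, neg_smul]
    abel
  rw [h1]
  set A := S - star ((v : ℂ) * Complex.I) • (1 : Matrix ι ι ℂ)
  have h2 : -A = (-1 : ℂˣ) • A := by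
    simp [Units.smul_def]
  have h3 : -A⁻¹ = (-1 : ℂˣ)⁻¹ • A⁻¹ := by
    simp [Units.smul_def]
  by_cases hA : IsUnit A.det
  · apply Matrix.inv_eq_right_inv
    rw [neg_mul_neg, Matrix.mul_nonsing_inv A hA]
  · have hA' : ¬ IsUnit (-A).det := by
      rw [Matrix.det_neg]
      intro h
      exact hA (isUnit_of_mul_isUnit_right h)
    rw [Matrix.nonsing_inv_apply_not_isUnit _ hA, Matrix.nonsing_inv_apply_not_isUnit _ hA', neg_zero]

theorem measurePreserving_neg_gm (ν : Type*) [Fintype ν] (N : ℕ) :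
    MeasurePreserving (fun ξ : Idx ν N → ℝ => -ξ) (gm ν N) (gm ν N) := by
  have h1 : MeasurePreserving (fun x : ℝ => -x) (gaussianReal 0 1) (gaussianReal 0 1) := by
    refine ⟨measurable_neg, ?_⟩
    rw [gaussianReal_map_neg]
    simp
  exact measurePreserving_pi (fun _ : Idx ν N => gaussianReal 0 1) (fun _ => gaussianReal 0 1)
    (fun _ => h1)

theorem Gb_conj (a : ν → Matrix κ κ ℂ) (ha : ∀ i, (a i).IsHermitian) (N : ℕ) (v : ℝ) : (Gb a N v)ᴴ = - Gb a N v := by
  ext α β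
  rw [Matrix.conjTranspose_apply, Matrix.neg_apply]
  simp only [Gb, Matrix.of_apply]
  have h1 : star (∫ ξ, ptr (res (Smat a N ξ) v) β α ∂(gm ν N))
      = ∫ ξ, star (ptr (res (Smat a N ξ) v) β α) ∂(gm ν N) := by
    rw [RCLike.star_def]
    exact integral_conj.symm
  rw [h1, ← integral_neg]
  have h2 := (measurePreserving_neg_gm ν N).integral_comp
    (MeasurableEquiv.neg (Idx ν N → ℝ)).measurableEmbedding
    (fun ξ => -ptr (res (Smat a N ξ) v) α β)
  rw [← h2]
  refine integral_congr_ae (ae_of_all _ fun ξ => ?_)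
  simp only [Smat_neg]
  rw [res_neg _ (Smat_isHermitian a ha N ξ)]
  simp only [ptr, Matrix.of_apply, Matrix.neg_apply, Matrix.conjTranspose_apply, star_mul',
    Finset.sum_neg_distrib, mul_neg, neg_neg, star_sum]
  simp

theorem im_res_quad {ι : Type*} [Fintype ι] [DecidableEq ι] (S : Matrix ι ι ℂ)
    (hS : S.IsHermitian) (v : ℝ) (hv : v ≠ 0) (y : ι → ℂ) :
    (star y ⬝ᵥ (res S v *ᵥ y)).im = v * (star (res S v *ᵥ y) ⬝ᵥ (res S v *ᵥ y)).re := by
  set u := res S v *ᵥ y with hu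
  have hy : y = S *ᵥ u - ((v : ℂ) * Complex.I) • u := by
    have h := mul_res S hS v hv
    calc y = ((S - ((v : ℂ) * Complex.I) • (1 : Matrix ι ι ℂ)) * res S v) *ᵥ y := by
          rw [h, Matrix.one_mulVec]
      _ = (S - ((v : ℂ) * Complex.I) • (1 : Matrix ι ι ℂ)) *ᵥ u := by
          rw [← Matrix.mulVec_mulVec]
      _ = _ := by rw [Matrix.sub_mulVec, Matrix.smul_mulVec, Matrix.one_mulVec]
  have h1 : star y ⬝ᵥ u = star (S *ᵥ u) ⬝ᵥ u + ((v : ℂ) * Complex.I) * (star u ⬝ᵥ u) := by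
    conv_lhs => rw [hy]
    rw [star_sub, sub_dotProduct, star_smul, smul_dotProduct]
    have : star ((v : ℂ) * Complex.I) = -((v : ℂ) * Complex.I) := by simp
    rw [this, smul_eq_mul]
    ring
  have h2 : (star (S *ᵥ u) ⬝ᵥ u).im = 0 := by
    have h3 : star (star (S *ᵥ u) ⬝ᵥ u) = star (S *ᵥ u) ⬝ᵥ u := by
      rw [← Matrix.star_dotProduct_star, star_star, dot_herm S hS]
    have h4 := congrArg Complex.im h3
    rw [RCLike.star_def, Complex.conj_im] at h4
    linarith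
  have h5 : (star u ⬝ᵥ u).im = 0 := by
    have h3 : star (star u ⬝ᵥ u) = star u ⬝ᵥ u := by
      rw [← Matrix.star_dotProduct_star, star_star, dotProduct_comm]
    have h4 := congrArg Complex.im h3
    rw [RCLike.star_def, Complex.conj_im] at h4
    linarith
  rw [h1, Complex.add_im, h2, Complex.mul_im]
  simp

theorem im_res_quad_nonneg {ι : Type*} [Fintype ι] [DecidableEq ι] (S : Matrix ι ι ℂ)
    (hS : S.IsHermitian) (v : ℝ) (hv : 0 < v) (y : ι → ℂ) :
    0 ≤ (star y ⬝ᵥ (res S v *ᵥ y)).im := by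
  rw [im_res_quad S hS v hv.ne']
  exact mul_nonneg hv.le (dot_self_re_nonneg _)

theorem im_res_quad_le {ι : Type*} [Fintype ι] [DecidableEq ι] (S : Matrix ι ι ℂ)
    (hS : S.IsHermitian) (v : ℝ) (hv : 0 < v) (y : ι → ℂ) :
    (star y ⬝ᵥ (res S v *ᵥ y)).im ≤ 1 / v * (star y ⬝ᵥ y).re := by
  rw [im_res_quad S hS v hv.ne']
  open scoped Matrix.Norms.L2Operator in
  have h1 := dot_mulVec_le (res S v) y
  open scoped Matrix.Norms.L2Operator in
  have h2 := norm_res_le S hS v hv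
  have h3 : (star (res S v *ᵥ y) ⬝ᵥ (res S v *ᵥ y)).re ≤ (1 / v) ^ 2 * (star y ⬝ᵥ y).re := by
    refine h1.trans ?_
    apply mul_le_mul_of_nonneg_right _ (dot_self_re_nonneg _)
    open scoped Matrix.Norms.L2Operator in
    exact pow_le_pow_left₀ (norm_nonneg _) h2 2
  calc v * (star (res S v *ᵥ y) ⬝ᵥ (res S v *ᵥ y)).re ≤ v * ((1 / v) ^ 2 * (star y ⬝ᵥ y).re) :=
        mul_le_mul_of_nonneg_left h3 hv.le
    _ = 1 / v * (star y ⬝ᵥ y).re := by field_simp

theorem ptr_quad {N : ℕ} (G : Matrix (κ × Fin N) (κ × Fin N) ℂ) (x : κ → ℂ) :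
    star x ⬝ᵥ (ptr G *ᵥ x) = (1 / (N : ℂ)) * ∑ k : Fin N,
      star (fun y : κ × Fin N => if y.2 = k then x y.1 else 0) ⬝ᵥ
        (G *ᵥ (fun y : κ × Fin N => if y.2 = k then x y.1 else 0)) := by
  have h1 : ∀ k : Fin N, star (fun y : κ × Fin N => if y.2 = k then x y.1 else 0) ⬝ᵥ
        (G *ᵥ (fun y : κ × Fin N => if y.2 = k then x y.1 else 0))
      = ∑ α, ∑ β, star (x α) * (G (α, k) (β, k) * x β) := by
    intro k
    simp only [dotProduct, Matrix.mulVec, Pi.star_apply, Fintype.sum_prod_type]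
    refine Finset.sum_congr rfl fun α _ => ?_
    rw [Finset.sum_eq_single k]
    · simp only [if_true, Finset.mul_sum]
      refine Finset.sum_congr rfl fun β _ => ?_
      rw [Finset.sum_eq_single k]
      · simp
      · intro l _ hl; simp [hl]
      · simp
    · intro l _ hl; simp [hl]
    · simp
  simp_rw [h1]
  simp only [dotProduct, Matrix.mulVec, Pi.star_apply, ptr, Matrix.of_apply, Finset.mul_sum,
    Finset.sum_mul]
  symm
  rw [Finset.sum_comm]
  refine Finset.sum_congr rfl fun α _ => ?_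
  rw [Finset.sum_comm]
  refine Finset.sum_congr rfl fun β _ => ?_
  refine Finset.sum_congr rfl fun k _ => ?_
  ring

theorem slice_norm {N : ℕ} (x : κ → ℂ) (k : Fin N) :
    (star (fun y : κ × Fin N => if y.2 = k then x y.1 else 0) ⬝ᵥ
      (fun y : κ × Fin N => if y.2 = k then x y.1 else 0)).re = (star x ⬝ᵥ x).re := by
  congr 1
  simp only [dotProduct, Pi.star_apply, Fintype.sum_prod_type]
  refine Finset.sum_congr rfl fun α _ => ?_
  rw [Finset.sum_eq_single k]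
  · simp
  · intro l _ hl; simp [hl]
  · simp

theorem ptr_quad_im (a : ν → Matrix κ κ ℂ) (ha : ∀ i, (a i).IsHermitian) (N : ℕ) (hN : 0 < N)
    (v : ℝ) (hv : 0 < v) (ξ : Idx ν N → ℝ) (x : κ → ℂ) :
    0 ≤ (star x ⬝ᵥ (ptr (res (Smat a N ξ) v) *ᵥ x)).im ∧
    (star x ⬝ᵥ (ptr (res (Smat a N ξ) v) *ᵥ x)).im ≤ 1 / v * (star x ⬝ᵥ x).re := by
  have hN' : (0 : ℝ) < N := by exact_mod_cast hN
  have h1 : (star x ⬝ᵥ (ptr (res (Smat a N ξ) v) *ᵥ x)).im = (1 / (N : ℝ)) * ∑ k : Fin N,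
      (star (fun y : κ × Fin N => if y.2 = k then x y.1 else 0) ⬝ᵥ
        (res (Smat a N ξ) v *ᵥ (fun y : κ × Fin N => if y.2 = k then x y.1 else 0))).im := by
    rw [ptr_quad]
    have : (1 / (N : ℂ)) = ((1 / (N : ℝ) : ℝ) : ℂ) := by push_cast; rfl
    rw [this, Complex.im_ofReal_mul, Complex.im_sum]
  rw [h1]
  constructor
  · apply mul_nonneg (by positivity)
    exact Finset.sum_nonneg fun k _ => im_res_quad_nonneg _ (Smat_isHermitian a ha N ξ) v hv _
  · calc _ ≤ (1 / (N : ℝ)) * ∑ k : Fin N, 1 / v * (star x ⬝ᵥ x).re := by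
          apply mul_le_mul_of_nonneg_left _ (by positivity)
          refine Finset.sum_le_sum fun k _ => ?_
          refine (im_res_quad_le _ (Smat_isHermitian a ha N ξ) v hv _).trans (le_of_eq ?_)
          rw [slice_norm]
      _ = _ := by
          simp only [Finset.sum_const, Finset.card_univ, Fintype.card_fin, nsmul_eq_mul]
          field_simp

theorem dot_Gb (a : ν → Matrix κ κ ℂ) (ha : ∀ i, (a i).IsHermitian) (N : ℕ)
    (v : ℝ) (hv : 0 < v) (x : κ → ℂ) :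
    (star x ⬝ᵥ (Gb a N v *ᵥ x)).im
      = ∫ ξ, (star x ⬝ᵥ (ptr (res (Smat a N ξ) v) *ᵥ x)).im ∂(gm ν N) ∧
    Integrable (fun ξ => (star x ⬝ᵥ (ptr (res (Smat a N ξ) v) *ᵥ x)).im) (gm ν N) := by
  have h1 : ∀ α β, Integrable (fun ξ => star (x α) * (ptr (res (Smat a N ξ) v) α β * x β)) (gm ν N) :=
    fun α β => ((integrable_ptr a ha N v hv α β).mul_const _).const_mul _
  have h2 : Integrable (fun ξ => star x ⬝ᵥ (ptr (res (Smat a N ξ) v) *ᵥ x)) (gm ν N) := by
    simp only [dotProduct, Matrix.mulVec, Pi.star_apply, Finset.mul_sum]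
    exact integrable_finsetSum _ fun α _ => integrable_finsetSum _ fun β _ => h1 α β
  have h3 : star x ⬝ᵥ (Gb a N v *ᵥ x) = ∫ ξ, star x ⬝ᵥ (ptr (res (Smat a N ξ) v) *ᵥ x) ∂(gm ν N) := by
    simp only [dotProduct, Matrix.mulVec, Pi.star_apply, Finset.mul_sum]
    rw [integral_finsetSum _ fun α _ => integrable_finsetSum _ fun β _ => h1 α β]
    refine Finset.sum_congr rfl fun α _ => ?_
    rw [integral_finsetSum _ fun β _ => h1 α β]
    refine Finset.sum_congr rfl fun β _ => ?_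
    rw [integral_const_mul, integral_mul_const]
    rfl
  refine ⟨?_, h2.im⟩
  rw [h3]
  exact (Complex.imCLM.integral_comp_comm h2).symm

theorem quad_le_sum (R : Matrix κ κ ℂ) (x : κ → ℂ) :
    |(star x ⬝ᵥ (R *ᵥ x)).re| ≤ (∑ α, ∑ β, ‖R α β‖) * (star x ⬝ᵥ x).re := by
  have h0 : ∀ α, ‖x α‖ ^ 2 ≤ (star x ⬝ᵥ x).re := by
    intro α
    rw [← toLp_norm_sq, EuclideanSpace.norm_sq_eq]
    exact Finset.single_le_sum (f := fun z => ‖x z‖ ^ 2) (fun z _ => by positivity) (Finset.mem_univ α)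
  refine (Complex.abs_re_le_norm _).trans ?_
  simp only [dotProduct, Matrix.mulVec, Pi.star_apply, Finset.mul_sum]
  rw [Finset.sum_mul]
  refine (norm_sum_le _ _).trans (Finset.sum_le_sum fun α _ => ?_)
  rw [Finset.sum_mul]
  refine (norm_sum_le _ _).trans (Finset.sum_le_sum fun β _ => ?_)
  rw [norm_mul, norm_mul, norm_star]
  have h1 := h0 α
  have h2 := h0 β
  simp only [dotProduct, Pi.star_apply] at h1 h2
  have h3 : ‖x α‖ * ‖x β‖ ≤ (∑ i, star (x i) * x i).re := by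
    nlinarith [sq_nonneg (‖x α‖ - ‖x β‖)]
  calc ‖x α‖ * (‖R α β‖ * ‖x β‖) = ‖R α β‖ * (‖x α‖ * ‖x β‖) := by ring
    _ ≤ _ := mul_le_mul_of_nonneg_left h3 (norm_nonneg _)

/-- a constant depending on the coefficients -/
noncomputable def KK (a : ν → Matrix κ κ ℂ) : ℝ :=
  ∑ α : κ, ∑ _β : κ, ∑ i, ∑ γ, ∑ δ, ∑ ε, ‖a i α γ‖ * ‖a i δ ε‖

theorem KK_nonneg (a : ν → Matrix κ κ ℂ) : 0 ≤ KK a := by
  unfold KK; positivity

theorem Rem_sum_le (a : ν → Matrix κ κ ℂ) (ha : ∀ i, (a i).IsHermitian) (N : ℕ) (v : ℝ)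
    (hv : 0 < v) :
    ∑ α, ∑ β, ‖Rem a N v α β‖ ≤ KK a * (4 * (N * (4 * Fintype.card κ / (N * v)) ^ 2)) := by
  unfold KK
  rw [Finset.sum_mul]
  refine Finset.sum_le_sum fun α _ => ?_
  rw [Finset.sum_mul]
  refine Finset.sum_le_sum fun β _ => ?_
  simp only [Rem, Matrix.of_apply]
  rw [Finset.sum_mul]
  refine (norm_sum_le _ _).trans (Finset.sum_le_sum fun i _ => ?_)
  rw [Finset.sum_mul]
  refine (norm_sum_le _ _).trans (Finset.sum_le_sum fun γ _ => ?_)
  rw [Finset.sum_mul]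
  refine (norm_sum_le _ _).trans (Finset.sum_le_sum fun δ _ => ?_)
  rw [Finset.sum_mul]
  refine (norm_sum_le _ _).trans (Finset.sum_le_sum fun ε _ => ?_)
  rw [norm_mul, norm_mul]
  exact mul_le_mul_of_nonneg_left (cross_bound a ha N v hv _ _ _ _) (by positivity)

theorem trace_close [Nonempty κ] (a : ν → Matrix κ κ ℂ) (ha : ∀ i, (a i).IsHermitian)
    (h1 : ∑ i, a i * a i = 1) (N : ℕ) (hN : 0 < N) (v g : ℝ) (hv : 0 < v) (hg : 0 < g)
    (hg1 : g * (g + v) = 1) :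
    |(∫ ξ, (res (Smat a N ξ) v).trace.im ∂(gm ν N)) / (Fintype.card κ * N) - g|
      ≤ (KK a * (64 * (Fintype.card κ : ℝ) ^ 2) / (N * v ^ 2)) * (1 + 2 / v ^ 2) := by
  obtain ⟨W, hW⟩ : ∃ W : Matrix κ κ ℂ, W = (-Complex.I) • Gb a N v := ⟨_, rfl⟩
  have hGW : Gb a N v = Complex.I • W := by
    rw [hW, smul_smul]; simp
  have hWH : W.IsHermitian := by
    unfold Matrix.IsHermitian
    rw [hW, Matrix.conjTranspose_smul, Gb_conj a ha N v]
    simp
  have hN' : (0 : ℝ) < N := by exact_mod_cast hN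
  have hNc : (N : ℂ) ≠ 0 := by exact_mod_cast hN.ne'
  have hdy := dyson_eq a ha N hN v hv
  have heq : (v : ℂ) • W + (∑ i, a i * W * a i) * W = 1 + Rem a N v := by
    have e1 : ∑ i, a i * (Complex.I • W) * a i = Complex.I • ∑ i, a i * W * a i := by
      rw [Finset.smul_sum]
      refine Finset.sum_congr rfl fun i _ => ?_
      rw [Matrix.mul_smul, Matrix.smul_mul]
    have hdy' : (1 : Matrix κ κ ℂ) + ((v : ℂ) * Complex.I) • (Complex.I • W)
        = - ((∑ i, a i * (Complex.I • W) * a i) * (Complex.I • W)) - Rem a N v := by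
      rw [← hGW]; exact hdy
    have e2 : (v : ℂ) * Complex.I * Complex.I = -(v : ℂ) := by
      rw [mul_assoc, Complex.I_mul_I]; ring
    rw [e1, Matrix.smul_mul, Matrix.mul_smul, smul_smul, smul_smul,
      e2, Complex.I_mul_I, neg_smul, neg_smul, one_smul, neg_neg] at hdy'
    have : (1 : Matrix κ κ ℂ) + Rem a N v = (v : ℂ) • W + ((1 : Matrix κ κ ℂ) + -((v : ℂ) • W) + Rem a N v) := by
      abel
    rw [this, hdy']
    abel
  have hre : ∀ x : κ → ℂ, (star x ⬝ᵥ (W *ᵥ x)).re = (star x ⬝ᵥ (Gb a N v *ᵥ x)).im := by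
    intro x
    rw [hW, Matrix.smul_mulVec, dotProduct_smul, smul_eq_mul]
    simp
  have hW0 : ∀ x : κ → ℂ, 0 ≤ (star x ⬝ᵥ (W *ᵥ x)).re := by
    intro x
    rw [hre, (dot_Gb a ha N v hv x).1]
    exact integral_nonneg fun ξ => (ptr_quad_im a ha N hN v hv ξ x).1
  have hW1 : ∀ x : κ → ℂ, (star x ⬝ᵥ (W *ᵥ x)).re ≤ 1 / v * (star x ⬝ᵥ x).re := by
    intro x
    rw [hre, (dot_Gb a ha N v hv x).1]
    calc _ ≤ ∫ _, 1 / v * (star x ⬝ᵥ x).re ∂(gm ν N) :=
          integral_mono (dot_Gb a ha N v hv x).2 (integrable_const _)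
            (fun ξ => (ptr_quad_im a ha N hN v hv ξ x).2)
      _ = _ := by simp
  set ε := KK a * (4 * (N * (4 * Fintype.card κ / (N * v)) ^ 2)) with hε
  have hε0 : 0 ≤ ε := mul_nonneg (KK_nonneg a) (by positivity)
  have hR : ∀ x : κ → ℂ, |(star x ⬝ᵥ (Rem a N v *ᵥ x)).re| ≤ ε * (star x ⬝ᵥ x).re := by
    intro x
    refine (quad_le_sum _ x).trans ?_
    exact mul_le_mul_of_nonneg_right (Rem_sum_le a ha N v hv) (dot_self_re_nonneg _)
  have hst := stability a ha h1 v g ε hv hg hg1 hε0 W (Rem a N v) hWH hR heq hW0 hW1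
  have htr : W.trace.re = (1 / (N : ℝ)) * ∫ ξ, (res (Smat a N ξ) v).trace.im ∂(gm ν N) := by
    have e1 : (Gb a N v).trace = (1 / (N : ℂ)) * ∫ ξ, (res (Smat a N ξ) v).trace ∂(gm ν N) := by
      rw [← integral_const_mul]
      have : ∀ ξ, (1 / (N : ℂ)) * (res (Smat a N ξ) v).trace
          = ∑ α, ptr (res (Smat a N ξ) v) α α := by
        intro ξ
        rw [← trace_ptr]; rfl
      rw [integral_congr_ae (ae_of_all _ this), integral_finsetSum _ fun α _ =>
        integrable_ptr a ha N v hv α α]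
      rfl
    have hI : Integrable (fun ξ => (res (Smat a N ξ) v).trace) (gm ν N) := by
      have : (fun ξ => (res (Smat a N ξ) v).trace)
          = fun ξ => (N : ℂ) * ∑ α, ptr (res (Smat a N ξ) v) α α := by
        ext ξ
        have := trace_ptr (res (Smat a N ξ) v)
        have h2 : ∑ α, ptr (res (Smat a N ξ) v) α α = (ptr (res (Smat a N ξ) v)).trace := rfl
        rw [h2, this, ← mul_assoc, mul_one_div_cancel hNc, one_mul]
      rw [this]
      exact (integrable_finsetSum _ fun α _ => integrable_ptr a ha N v hv α α).const_mul _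
    rw [hW, Matrix.trace_smul, smul_eq_mul, e1]
    have e2 : (∫ ξ, (res (Smat a N ξ) v).trace ∂(gm ν N)).im
        = ∫ ξ, (res (Smat a N ξ) v).trace.im ∂(gm ν N) :=
      (Complex.imCLM.integral_comp_comm hI).symm
    rw [← e2]
    have e3 : (1 / (N : ℂ)) = ((1 / (N : ℝ) : ℝ) : ℂ) := by push_cast; rfl
    rw [e3, ← Complex.im_ofReal_mul]
    simp
  rw [htr] at hst
  have hcard : (0 : ℝ) < Fintype.card κ := by exact_mod_cast Fintype.card_pos
  have e4 : 1 / (N : ℝ) * (∫ ξ, (res (Smat a N ξ) v).trace.im ∂(gm ν N)) / Fintype.card κ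
      = (∫ ξ, (res (Smat a N ξ) v).trace.im ∂(gm ν N)) / (Fintype.card κ * N) := by
    field_simp
  rw [e4] at hst
  refine hst.trans (le_of_eq ?_)
  rw [hε]
  field_simp
  ring

end Pool.Agent.helper97.GUE
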