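import Mathlib
import Pool.Agent.helper97.GUE.Dyson4

set_option autoImplicit false
set_option linter.unusedSectionVars false
open MeasureTheory ProbabilityTheory Filter Topology
open scoped NNReal ENNReal Matrix ComplexOrder

namespace Pool.Agent.helper97.GUE

section det
variable {ι : Type*} [Fintype ι] [DecidableEq ι]

/-- half the logarithm of `det (S² + v²)` -/
noncomputable def Lf (S : Matrix ι ι ℂ) (v : ℝ) : ℝ :=
  (1 / 2) * Real.log ((S * S + ((v : ℂ) ^ 2) • (1 : Matrix ι ι ℂ)).det.re)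

/-- imaginary part of the trace of the resolvent -/
noncomputable def Tf (S : Matrix ι ι ℂ) (v : ℝ) : ℝ := (res S v).trace.im

theorem det_sq_add_re (S : Matrix ι ι ℂ) (hS : S.IsHermitian) (v : ℝ) :
    (S * S + ((v : ℂ) ^ 2) • (1 : Matrix ι ι ℂ)).det.re
      = ∏ i, ((hS.eigenvalues i) ^ 2 + v ^ 2) := by
  rw [det_sq_add S hS v, Complex.ofReal_re]

theorem det_sq_add_pos (S : Matrix ι ι ℂ) (hS : S.IsHermitian) (v : ℝ) (hv : v ≠ 0) :
    0 < (S * S + ((v : ℂ) ^ 2) • (1 : Matrix ι ι ℂ)).det.re := by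
  rw [det_sq_add_re S hS v]
  exact Finset.prod_pos fun i _ => by positivity

theorem Lf_eq (S : Matrix ι ι ℂ) (hS : S.IsHermitian) (v : ℝ) (hv : v ≠ 0) :
    Lf S v = ∑ i, (1 / 2) * Real.log ((hS.eigenvalues i) ^ 2 + v ^ 2) := by
  unfold Lf
  rw [det_sq_add_re S hS v, Real.log_prod, Finset.mul_sum]
  intro i _
  positivity

theorem Tf_eq (S : Matrix ι ι ℂ) (hS : S.IsHermitian) (v : ℝ) (hv : v ≠ 0) :
    Tf S v = ∑ i, v / ((hS.eigenvalues i) ^ 2 + v ^ 2) := trace_res_im S hS v hv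

theorem exp_two_Lf (S : Matrix ι ι ℂ) (hS : S.IsHermitian) (v : ℝ) (hv : v ≠ 0) :
    Real.exp (2 * Lf S v) = (S * S + ((v : ℂ) ^ 2) • (1 : Matrix ι ι ℂ)).det.re := by
  unfold Lf
  rw [← mul_assoc]
  norm_num
  rw [Real.exp_log]
  have := det_sq_add_pos S hS v hv
  simpa using this

theorem hasDerivAt_Lf (S : Matrix ι ι ℂ) (hS : S.IsHermitian) (v : ℝ) (hv : 0 < v) :
    HasDerivAt (fun v => Lf S v) (Tf S v) v := by
  have h1 : (fun v => Lf S v) =ᶠ[𝓝 v]
      fun v => ∑ i, (1 / 2) * Real.log ((hS.eigenvalues i) ^ 2 + v ^ 2) := by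
    filter_upwards [lt_mem_nhds hv] with w hw
    exact Lf_eq S hS w (ne_of_gt hw)
  refine HasDerivAt.congr_of_eventuallyEq ?_ h1
  rw [Tf_eq S hS v hv.ne']
  apply HasDerivAt.fun_sum
  intro i _
  have h2 : HasDerivAt (fun v : ℝ => (hS.eigenvalues i) ^ 2 + v ^ 2) (2 * v) v := by
    have := (hasDerivAt_pow 2 v).const_add ((hS.eigenvalues i) ^ 2)
    simpa using this
  have h3 := (h2.log (by positivity)).const_mul (1 / 2 : ℝ)
  refine h3.congr_deriv ?_
  field_simp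

theorem continuousOn_Tf (S : Matrix ι ι ℂ) (hS : S.IsHermitian) (s : ℝ) (hs : 0 < s) :
    ContinuousOn (fun v => Tf S v) (Set.Ici s) := by
  have h1 : ContinuousOn (fun v : ℝ => ∑ i, v / ((hS.eigenvalues i) ^ 2 + v ^ 2)) (Set.Ici s) := by
    refine continuousOn_finsetSum _ fun i _ => ?_
    refine ContinuousOn.div (by fun_prop) (by fun_prop) ?_
    intro v hv
    have : 0 < v := lt_of_lt_of_le hs hv
    positivity
  refine h1.congr ?_
  intro v hv
  exact Tf_eq S hS v (ne_of_gt (lt_of_lt_of_le hs hv))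

theorem Lf_sub (S : Matrix ι ι ℂ) (hS : S.IsHermitian) (s U : ℝ) (hs : 0 < s) (hsU : s ≤ U) :
    Lf S U - Lf S s = ∫ v in s..U, Tf S v := by
  symm
  apply intervalIntegral.integral_eq_sub_of_hasDerivAt
  · intro v hv
    rw [Set.uIcc_of_le hsU] at hv
    exact hasDerivAt_Lf S hS v (lt_of_lt_of_le hs hv.1)
  · apply ContinuousOn.intervalIntegrable
    rw [Set.uIcc_of_le hsU]
    exact (continuousOn_Tf S hS s hs).mono fun v hv => hv.1

theorem Tf_nonneg (S : Matrix ι ι ℂ) (hS : S.IsHermitian) (v : ℝ) (hv : 0 < v) : 0 ≤ Tf S v := by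
  rw [Tf_eq S hS v hv.ne']
  exact Finset.sum_nonneg fun i _ => by positivity

theorem Tf_le (S : Matrix ι ι ℂ) (hS : S.IsHermitian) (v : ℝ) (hv : 0 < v) :
    Tf S v ≤ Fintype.card ι / v := by
  rw [Tf_eq S hS v hv.ne']
  calc _ ≤ ∑ _i : ι, 1 / v := by
        refine Finset.sum_le_sum fun i _ => ?_
        rw [div_le_div_iff₀ (by positivity) hv]
        nlinarith [sq_nonneg (hS.eigenvalues i)]
    _ = _ := by simp [div_eq_mul_inv]

theorem Lf_lower (S : Matrix ι ι ℂ) (hS : S.IsHermitian) (U : ℝ) (hU : 0 < U) :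
    Fintype.card ι * Real.log U ≤ Lf S U := by
  rw [Lf_eq S hS U hU.ne']
  calc Fintype.card ι * Real.log U = ∑ _i : ι, Real.log U := by simp
    _ ≤ _ := by
      refine Finset.sum_le_sum fun i _ => ?_
      have : Real.log (U ^ 2) ≤ Real.log ((hS.eigenvalues i) ^ 2 + U ^ 2) :=
        Real.log_le_log (by positivity) (by nlinarith [sq_nonneg (hS.eigenvalues i)])
      rw [Real.log_pow] at this
      push_cast at this
      linarith

theorem Lf_upper (S : Matrix ι ι ℂ) (hS : S.IsHermitian) (U : ℝ) (hU : 0 < U) :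
    Lf S U ≤ Fintype.card ι * Real.log U + (S * S).trace.re / (2 * U ^ 2) := by
  rw [Lf_eq S hS U hU.ne', trace_sq S hS, Complex.ofReal_re]
  have h1 : ∀ i, (1 / 2) * Real.log ((hS.eigenvalues i) ^ 2 + U ^ 2)
      ≤ Real.log U + (hS.eigenvalues i) ^ 2 / (2 * U ^ 2) := by
    intro i
    have h2 : Real.log ((hS.eigenvalues i) ^ 2 + U ^ 2)
        = Real.log (U ^ 2) + Real.log (1 + (hS.eigenvalues i) ^ 2 / U ^ 2) := by
      rw [← Real.log_mul (by positivity) (by positivity)]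
      congr 1
      field_simp
      ring
    have h3 : Real.log (1 + (hS.eigenvalues i) ^ 2 / U ^ 2) ≤ (hS.eigenvalues i) ^ 2 / U ^ 2 := by
      have := Real.log_le_sub_one_of_pos (x := 1 + (hS.eigenvalues i) ^ 2 / U ^ 2) (by positivity)
      linarith
    rw [h2, Real.log_pow]
    push_cast
    have h4 : (hS.eigenvalues i) ^ 2 / (2 * U ^ 2) = (1 / 2) * ((hS.eigenvalues i) ^ 2 / U ^ 2) := by
      field_simp
    rw [h4]
    linarith
  calc _ ≤ ∑ i, (Real.log U + (hS.eigenvalues i) ^ 2 / (2 * U ^ 2)) :=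
        Finset.sum_le_sum fun i _ => h1 i
    _ = _ := by
      rw [Finset.sum_add_distrib, ← Finset.sum_div]
      simp

end det

/-- the limiting function -/
noncomputable def gg (v : ℝ) : ℝ := (Real.sqrt (v ^ 2 + 4) - v) / 2

theorem gg_eq (v : ℝ) : gg v * (gg v + v) = 1 := by
  unfold gg
  have h := Real.sq_sqrt (show (0 : ℝ) ≤ v ^ 2 + 4 by positivity)
  nlinarith

theorem gg_pos (v : ℝ) : 0 < gg v := by
  unfold gg
  have h : |v| < Real.sqrt (v ^ 2 + 4) := by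
    rw [← Real.sqrt_sq_eq_abs]
    exact Real.sqrt_lt_sqrt (sq_nonneg _) (by linarith)
  have := le_abs_self v
  linarith

theorem gg_le_one (v : ℝ) (hv : 0 ≤ v) : gg v ≤ 1 := by
  have h1 := gg_eq v
  have h2 := gg_pos v
  by_contra h
  push Not at h
  nlinarith

theorem continuous_gg : Continuous gg := by
  unfold gg
  fun_prop

/-- antiderivative -/
noncomputable def FF (v : ℝ) : ℝ :=
  (v * Real.sqrt (v ^ 2 + 4) - v ^ 2) / 4 + Real.arsinh (v / 2)

theorem hasDerivAt_FF (v : ℝ) : HasDerivAt FF (gg v) v := by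
  have h0 : (0 : ℝ) < v ^ 2 + 4 := by positivity
  have h1 : HasDerivAt (fun v : ℝ => v ^ 2 + 4) (2 * v) v := by
    have := (hasDerivAt_pow 2 v).add_const 4
    simpa using this
  have h2 := h1.sqrt h0.ne'
  have h3 := ((hasDerivAt_id v).mul h2)
  have h4 : HasDerivAt (fun v : ℝ => v / 2) (1 / 2) v := by
    simpa using (hasDerivAt_id v).div_const 2
  have h5 := h4.arsinh
  have h6 : HasDerivAt (fun v : ℝ => v ^ 2) (2 * v) v := by
    simpa using hasDerivAt_pow 2 v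
  have h7 := ((h3.sub h6).div_const 4).add h5
  unfold FF
  refine h7.congr_deriv ?_
  have h8 : Real.sqrt (1 + (v / 2) ^ 2) = Real.sqrt (v ^ 2 + 4) / 2 := by
    rw [show 1 + (v / 2) ^ 2 = (v ^ 2 + 4) / 2 ^ 2 by ring, Real.sqrt_div h0.le,
      Real.sqrt_sq (by norm_num)]
  rw [h8]
  unfold gg
  have h9 := Real.sq_sqrt h0.le
  have h10 : 0 < Real.sqrt (v ^ 2 + 4) := Real.sqrt_pos.mpr h0
  simp only [id_eq, smul_eq_mul]
  field_simp
  nlinarith

theorem integral_gg (s U : ℝ) : ∫ v in s..U, gg v = FF U - FF s := by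
  apply intervalIntegral.integral_eq_sub_of_hasDerivAt
  · intro v _; exact hasDerivAt_FF v
  · exact continuous_gg.intervalIntegrable _ _

theorem FF_zero : FF 0 = 0 := by
  unfold FF; simp

theorem FF_nonneg (s : ℝ) (hs : 0 ≤ s) : 0 ≤ FF s := by
  have h := integral_gg 0 s
  rw [FF_zero, sub_zero] at h
  rw [← h]
  exact intervalIntegral.integral_nonneg hs fun v _ => (gg_pos v).le

theorem FF_le (s : ℝ) (hs : 0 ≤ s) : FF s ≤ s := by
  have h := integral_gg 0 s
  rw [FF_zero, sub_zero] at h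
  rw [← h]
  calc ∫ v in (0:ℝ)..s, gg v ≤ ∫ _ in (0:ℝ)..s, (1 : ℝ) := by
        apply intervalIntegral.integral_mono_on hs (continuous_gg.intervalIntegrable _ _)
          (continuous_const.intervalIntegrable _ _)
        intro v hv
        exact gg_le_one v hv.1
    _ = s := by simp

theorem tendsto_log_sub_FF : Tendsto (fun U : ℝ => Real.log U - FF U) atTop (𝓝 (-1 / 2)) := by
  have h1 : ∀ᶠ U : ℝ in atTop, Real.log U - FF U
      = -(Real.sqrt (1 + 4 * (U⁻¹) ^ 2) + 1)⁻¹ - Real.log (1 / 2 + Real.sqrt ((U⁻¹) ^ 2 + 1 / 4)) := by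
    filter_upwards [eventually_gt_atTop 0] with U hU
    have e1 : Real.sqrt (U ^ 2 + 4) = U * Real.sqrt (1 + 4 * (U⁻¹) ^ 2) := by
      rw [← Real.sqrt_sq hU.le, ← Real.sqrt_mul (by positivity)]
      rw [Real.sqrt_sq hU.le]
      congr 1
      field_simp
    have e2 : Real.sqrt (1 + (U / 2) ^ 2) = U * Real.sqrt ((U⁻¹) ^ 2 + 1 / 4) := by
      rw [← Real.sqrt_sq hU.le, ← Real.sqrt_mul (by positivity)]
      rw [Real.sqrt_sq hU.le]
      congr 1
      field_simp
      ring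
    unfold FF
    rw [Real.arsinh, e2, e1]
    have e3 : U / 2 + U * Real.sqrt ((U⁻¹) ^ 2 + 1 / 4)
        = U * (1 / 2 + Real.sqrt ((U⁻¹) ^ 2 + 1 / 4)) := by ring
    rw [e3, Real.log_mul hU.ne' (by positivity)]
    have e4 : (U * (U * Real.sqrt (1 + 4 * (U⁻¹) ^ 2)) - U ^ 2) / 4
        = (Real.sqrt (1 + 4 * (U⁻¹) ^ 2) + 1)⁻¹ := by
      have h2 : (0 : ℝ) ≤ 1 + 4 * (U⁻¹) ^ 2 := by positivity
      have h3 := Real.sq_sqrt h2
      have h4 : 0 < Real.sqrt (1 + 4 * (U⁻¹) ^ 2) + 1 := by positivity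
      apply eq_inv_of_mul_eq_one_left
      have h5 : U ^ 2 * U⁻¹ ^ 2 = 1 := by field_simp
      nlinarith
    rw [e4]
    ring
  refine Tendsto.congr' (EventuallyEq.symm h1) ?_
  have h2 : Tendsto (fun U : ℝ => U⁻¹) atTop (𝓝 0) := tendsto_inv_atTop_zero
  have h3 : Tendsto (fun x : ℝ => -(Real.sqrt (1 + 4 * x ^ 2) + 1)⁻¹
      - Real.log (1 / 2 + Real.sqrt (x ^ 2 + 1 / 4))) (𝓝 0)
      (𝓝 (-(Real.sqrt (1 + 4 * 0 ^ 2) + 1)⁻¹ - Real.log (1 / 2 + Real.sqrt (0 ^ 2 + 1 / 4)))) := by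
    apply ContinuousAt.tendsto
    apply ContinuousAt.sub
    · apply ContinuousAt.neg
      apply ContinuousAt.inv₀ (by fun_prop)
      positivity
    · apply ContinuousAt.log (by fun_prop)
      positivity
  have h4 : -(Real.sqrt (1 + 4 * 0 ^ 2) + 1)⁻¹ - Real.log (1 / 2 + Real.sqrt (0 ^ 2 + 1 / 4))
      = (-1 / 2 : ℝ) := by
    have : Real.sqrt (0 ^ 2 + 1 / 4) = 1 / 2 := by
      rw [show (0 : ℝ) ^ 2 + 1 / 4 = (1 / 2) ^ 2 by norm_num, Real.sqrt_sq (by norm_num)]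
    rw [this]
    norm_num
  rw [h4] at h3
  exact h3.comp h2

end Pool.Agent.helper97.GUE
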