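import Mathlib
import Pool.Agent.helper97.GUE.LogDet1

set_option autoImplicit false
set_option linter.unusedSectionVars false
open MeasureTheory ProbabilityTheory Filter Topology
open scoped NNReal ENNReal Matrix ComplexOrder

namespace Pool.Agent.helper97.GUE

variable {κ ν : Type*} [Fintype κ] [DecidableEq κ] [Fintype ν] [DecidableEq ν]

theorem continuous_det_sq (a : ν → Matrix κ κ ℂ) (N : ℕ) (v : ℝ) :
    Continuous (fun ξ => (Smat a N ξ * Smat a N ξ
      + ((v : ℂ) ^ 2) • (1 : Matrix (κ × Fin N) (κ × Fin N) ℂ)).det.re) := by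
  have h := continuous_Smat a N
  exact Complex.continuous_re.comp (((h.matrix_mul h).add continuous_const).matrix_det)

theorem continuous_Lf (a : ν → Matrix κ κ ℂ) (ha : ∀ i, (a i).IsHermitian) (N : ℕ) (v : ℝ)
    (hv : v ≠ 0) : Continuous (fun ξ => Lf (Smat a N ξ) v) := by
  unfold Lf
  refine continuous_const.mul (Continuous.log (continuous_det_sq a N v) fun ξ => ?_)
  exact (det_sq_add_pos _ (Smat_isHermitian a ha N ξ) v hv).ne'

theorem continuous_Tf (a : ν → Matrix κ κ ℂ) (ha : ∀ i, (a i).IsHermitian) (N : ℕ) (v : ℝ)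
    (hv : 0 < v) : Continuous (fun ξ => Tf (Smat a N ξ) v) := by
  unfold Tf
  exact Complex.continuous_im.comp (continuous_res a ha N v hv).matrix_trace

theorem Tf_bdd_diff (a : ν → Matrix κ κ ℂ) (ha : ∀ i, (a i).IsHermitian) (N : ℕ) (v : ℝ)
    (hv : 0 < v) (j : Fin N) (ξ ξ' : Idx ν N → ℝ) (h : ∀ c : Idx ν N, c.1 ≠ j → ξ c = ξ' c) :
    |Tf (Smat a N ξ) v - Tf (Smat a N ξ') v| ≤ 4 * Fintype.card κ / v := by
  refine le_trans ?_ (trace_bdd_diff a ha N v hv j ξ ξ' h)
  unfold Tf
  rw [← Complex.sub_im]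
  exact Complex.abs_im_le_norm _

/-- the regularised log determinant difference -/
noncomputable def Phi (a : ν → Matrix κ κ ℂ) (N : ℕ) (s U : ℝ) (ξ : Idx ν N → ℝ) : ℝ :=
  Lf (Smat a N ξ) U - Lf (Smat a N ξ) s

theorem Phi_bdd_diff (a : ν → Matrix κ κ ℂ) (ha : ∀ i, (a i).IsHermitian) (N : ℕ) (s U : ℝ)
    (hs : 0 < s) (hsU : s ≤ U) (j : Fin N) (ξ ξ' : Idx ν N → ℝ)
    (h : ∀ c : Idx ν N, c.1 ≠ j → ξ c = ξ' c) :
    |Phi a N s U ξ - Phi a N s U ξ'| ≤ 4 * Fintype.card κ * Real.log (U / s) := by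
  unfold Phi
  have hH := Smat_isHermitian a ha N
  rw [Lf_sub _ (hH ξ) s U hs hsU, Lf_sub _ (hH ξ') s U hs hsU]
  have hI : ∀ ξ, IntervalIntegrable (fun v => Tf (Smat a N ξ) v) volume s U := by
    intro ξ
    apply ContinuousOn.intervalIntegrable
    rw [Set.uIcc_of_le hsU]
    exact (continuousOn_Tf _ (hH ξ) s hs).mono fun v hv => hv.1
  rw [← intervalIntegral.integral_sub (hI ξ) (hI ξ')]
  have hI2 : IntervalIntegrable (fun v : ℝ => 4 * (Fintype.card κ : ℝ) * v⁻¹) volume s U := by
    apply ContinuousOn.intervalIntegrable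
    rw [Set.uIcc_of_le hsU]
    apply ContinuousOn.mul continuousOn_const
    apply ContinuousOn.inv₀ continuousOn_id
    intro v hv
    exact (lt_of_lt_of_le hs hv.1).ne'
  have h1 := intervalIntegral.norm_integral_le_of_norm_le hsU
    (f := fun v => Tf (Smat a N ξ) v - Tf (Smat a N ξ') v)
    (g := fun v : ℝ => 4 * (Fintype.card κ : ℝ) * v⁻¹) (ae_of_all _ fun v hv => by
      have hv0 : 0 < v := lt_trans hs hv.1
      rw [Real.norm_eq_abs]
      exact (Tf_bdd_diff a ha N v hv0 j ξ ξ' h)) hI2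
  rw [Real.norm_eq_abs] at h1
  refine h1.trans (le_of_eq ?_)
  rw [intervalIntegral.integral_const_mul, integral_inv_of_pos hs (lt_of_lt_of_le hs hsU)]

theorem integral_Phi (a : ν → Matrix κ κ ℂ) (ha : ∀ i, (a i).IsHermitian) (N : ℕ) (s U : ℝ)
    (hs : 0 < s) (hsU : s ≤ U) :
    IntervalIntegrable (fun v => ∫ ξ, Tf (Smat a N ξ) v ∂(gm ν N)) volume s U ∧
    ∫ ξ, Phi a N s U ξ ∂(gm ν N) = ∫ v in s..U, ∫ ξ, Tf (Smat a N ξ) v ∂(gm ν N) := by
  have hH := Smat_isHermitian a ha N
  obtain ⟨T, hT⟩ : ∃ T : (Idx ν N → ℝ) → ℝ → ℝ, ∀ ξ v, T ξ v = Tf (Smat a N ξ) (max v s) :=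
    ⟨fun ξ v => Tf (Smat a N ξ) (max v s), fun _ _ => rfl⟩
  have hmax : ∀ v : ℝ, 0 < max v s := fun v => lt_of_lt_of_le hs (le_max_right _ _)
  have hm : Measurable (Function.uncurry fun (v : ℝ) ξ => T ξ v) := by
    apply measurable_uncurry_of_continuous_of_measurable
    · intro ξ
      simp only [hT]
      have h1 : Continuous (fun v : ℝ => max v s) := by fun_prop
      exact (continuousOn_Tf _ (hH ξ) s hs).comp_continuous h1
        (fun v => Set.mem_Ici.mpr (le_max_right _ _))
    · intro v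
      simp only [hT]
      exact (continuous_Tf a ha N _ (hmax v)).measurable
  have hm' : Measurable (Function.uncurry T) := hm.comp measurable_swap
  have hb : ∀ ξ v, |T ξ v| ≤ Fintype.card (κ × Fin N) / s := by
    intro ξ v
    rw [hT, abs_of_nonneg (Tf_nonneg _ (hH ξ) _ (hmax v))]
    refine (Tf_le _ (hH ξ) _ (hmax v)).trans ?_
    apply div_le_div_of_nonneg_left (by positivity) hs (le_max_right _ _)
  have hint : Integrable (Function.uncurry T) ((gm ν N).prod (volume.restrict (Set.Ioc s U))) := by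
    refine Integrable.of_bound hm'.aestronglyMeasurable (Fintype.card (κ × Fin N) / s)
      (ae_of_all _ fun p => ?_)
    exact hb p.1 p.2
  have hsw := integral_integral_swap hint
  have e1 : ∀ ξ, ∫ v in Set.Ioc s U, T ξ v = Phi a N s U ξ := by
    intro ξ
    unfold Phi
    rw [Lf_sub _ (hH ξ) s U hs hsU, intervalIntegral.integral_of_le hsU]
    apply setIntegral_congr_fun measurableSet_Ioc
    intro v hv
    beta_reduce
    simp only [hT]
    rw [max_eq_left hv.1.le]
  have e2 : ∫ v in Set.Ioc s U, ∫ ξ, T ξ v ∂(gm ν N)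
      = ∫ v in s..U, ∫ ξ, Tf (Smat a N ξ) v ∂(gm ν N) := by
    rw [intervalIntegral.integral_of_le hsU]
    apply setIntegral_congr_fun measurableSet_Ioc
    intro v hv
    beta_reduce
    simp only [hT]
    rw [max_eq_left hv.1.le]
  constructor
  · rw [intervalIntegrable_iff_integrableOn_Ioc_of_le hsU]
    have h3 : Integrable (fun v => ∫ ξ, T ξ v ∂(gm ν N)) (volume.restrict (Set.Ioc s U)) :=
      hint.integral_prod_right
    refine h3.congr ?_
    refine (ae_restrict_iff' measurableSet_Ioc).mpr (ae_of_all _ fun v hv => ?_)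
    beta_reduce
    simp only [hT]
    rw [max_eq_left hv.1.le]
  · rw [← e2, ← hsw]
    refine integral_congr_ae (ae_of_all _ fun ξ => ?_)
    exact (e1 ξ).symm

theorem integral_Phi_close [Nonempty κ] (a : ν → Matrix κ κ ℂ) (ha : ∀ i, (a i).IsHermitian)
    (h1 : ∑ i, a i * a i = 1) (N : ℕ) (hN : 0 < N) (s U : ℝ) (hs : 0 < s) (hs1 : s ≤ 1)
    (hsU : s ≤ U) :
    |∫ ξ, Phi a N s U ξ ∂(gm ν N) - Fintype.card κ * N * (FF U - FF s)|
      ≤ 128 * KK a * (Fintype.card κ : ℝ) ^ 3 / s ^ 3 := by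
  obtain ⟨hI, hE⟩ := integral_Phi a ha N s U hs hsU
  have hN' : (0 : ℝ) < N := by exact_mod_cast hN
  have hcard : (0 : ℝ) < Fintype.card κ := by exact_mod_cast Fintype.card_pos
  rw [hE, ← integral_gg, ← intervalIntegral.integral_const_mul,
    ← intervalIntegral.integral_sub hI ((continuous_gg.intervalIntegrable _ _).const_mul _)]
  set C := KK a * (64 * (Fintype.card κ : ℝ) ^ 2) * Fintype.card κ with hC
  have hC0 : 0 ≤ C := by
    have := KK_nonneg a
    positivity
  have hI2 : IntervalIntegrable (fun v : ℝ => C * (1 / v ^ 2 + 2 / v ^ 4)) volume s U := by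
    apply ContinuousOn.intervalIntegrable
    rw [Set.uIcc_of_le hsU]
    apply ContinuousOn.mul continuousOn_const
    apply ContinuousOn.add
    · apply ContinuousOn.div continuousOn_const (by fun_prop)
      intro v hv
      have := (lt_of_lt_of_le hs hv.1)
      positivity
    · apply ContinuousOn.div continuousOn_const (by fun_prop)
      intro v hv
      have := (lt_of_lt_of_le hs hv.1)
      positivity
  have h2 := intervalIntegral.norm_integral_le_of_norm_le hsU
    (f := fun v => ∫ ξ, Tf (Smat a N ξ) v ∂(gm ν N) - Fintype.card κ * N * gg v)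
    (g := fun v : ℝ => C * (1 / v ^ 2 + 2 / v ^ 4)) (ae_of_all _ fun v hv => by
      have hv0 : 0 < v := lt_trans hs hv.1
      have h3 := trace_close a ha h1 N hN v (gg v) hv0 (gg_pos v) (gg_eq v)
      rw [Real.norm_eq_abs]
      have h4 : ∫ ξ, Tf (Smat a N ξ) v ∂(gm ν N) - Fintype.card κ * N * gg v
          = (Fintype.card κ * N) * ((∫ ξ, (res (Smat a N ξ) v).trace.im ∂(gm ν N)) / (Fintype.card κ * N) - gg v) := by
        unfold Tf
        field_simp
      rw [h4, abs_mul, abs_of_pos (by positivity)]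
      calc (Fintype.card κ * N : ℝ) * _ ≤ (Fintype.card κ * N : ℝ) *
            ((KK a * (64 * (Fintype.card κ : ℝ) ^ 2) / (N * v ^ 2)) * (1 + 2 / v ^ 2)) :=
            mul_le_mul_of_nonneg_left h3 (by positivity)
        _ = C * (1 / v ^ 2 + 2 / v ^ 4) := by
            rw [hC]; field_simp) hI2
  rw [Real.norm_eq_abs] at h2
  refine h2.trans ?_
  rw [intervalIntegral.integral_const_mul]
  have h5 : ∫ v in s..U, (1 / v ^ 2 + 2 / v ^ 4) = (-(1 / U) - 2 / 3 * (1 / U ^ 3))
      - (-(1 / s) - 2 / 3 * (1 / s ^ 3)) := by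
    apply intervalIntegral.integral_eq_sub_of_hasDerivAt (f := fun v : ℝ => -(1 / v) - 2 / 3 * (1 / v ^ 3))
    · intro v hv
      rw [Set.uIcc_of_le hsU] at hv
      have hv0 : 0 < v := lt_of_lt_of_le hs hv.1
      have e1 : HasDerivAt (fun v : ℝ => 1 / v) (-(1 / v ^ 2)) v := by
        have := hasDerivAt_inv hv0.ne'
        simp only [one_div]
        refine this.congr_deriv ?_
        rfl
      have e2 : HasDerivAt (fun v : ℝ => 1 / v ^ 3) (-(3 / v ^ 4)) v := by
        have := (hasDerivAt_pow 3 v).inv (by positivity)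
        simp only [one_div]
        refine this.congr_deriv ?_
        field_simp
        norm_num
        ring
      refine (e1.neg.sub (e2.const_mul (2 / 3))).congr_deriv ?_
      ring
    · apply ContinuousOn.intervalIntegrable
      rw [Set.uIcc_of_le hsU]
      apply ContinuousOn.add
      · apply ContinuousOn.div continuousOn_const (by fun_prop)
        intro v hv
        have := (lt_of_lt_of_le hs hv.1)
        positivity
      · apply ContinuousOn.div continuousOn_const (by fun_prop)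
        intro v hv
        have := (lt_of_lt_of_le hs hv.1)
        positivity
  rw [h5]
  have hU : 0 < U := lt_of_lt_of_le hs hsU
  have h6 : (-(1 / U) - 2 / 3 * (1 / U ^ 3)) - (-(1 / s) - 2 / 3 * (1 / s ^ 3)) ≤ 2 / s ^ 3 := by
    have e1 : 0 < 1 / U := by positivity
    have e2 : 0 < 1 / U ^ 3 := by positivity
    have e3 : 1 / s ≤ 1 / s ^ 3 := by
      apply one_div_le_one_div_of_le (by positivity)
      calc s ^ 3 ≤ s ^ 1 := pow_le_pow_of_le_one hs.le hs1 (by norm_num)
        _ = s := pow_one s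
    have e4 : 2 / s ^ 3 = 2 * (1 / s ^ 3) := by ring
    have e5 : 0 < 1 / s ^ 3 := by positivity
    rw [e4]
    nlinarith
  calc C * _ ≤ C * (2 / s ^ 3) := mul_le_mul_of_nonneg_left h6 hC0
    _ = _ := by rw [hC]; ring

end Pool.Agent.helper97.GUE
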