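import Mathlib
import Pool.Agent.helper97.GUE.LogDet2

set_option autoImplicit false
set_option linter.unusedSectionVars false
open MeasureTheory ProbabilityTheory Filter Topology
open scoped NNReal ENNReal Matrix ComplexOrder

namespace Pool.Agent.helper97.GUE

theorem integral_coord_mul_coord {ι : Type*} [Fintype ι] [DecidableEq ι] (c c' : ι) :
    Integrable (fun x : ι → ℝ => x c * x c') (Measure.pi fun _ : ι => gaussianReal 0 1) ∧
    ∫ x, x c * x c' ∂(Measure.pi fun _ : ι => gaussianReal 0 1) = if c = c' then 1 else 0 := by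
  have hL : ∀ c, MemLp (fun x : ι → ℝ => x c) 2 (Measure.pi fun _ : ι => gaussianReal 0 1) := by
    intro c
    exact (memLp_id_gaussianReal' 2 (by simp)).comp_measurePreserving
      (measurePreserving_eval (fun _ : ι => gaussianReal 0 1) c)
  have hI : Integrable (fun x : ι → ℝ => x c * x c') (Measure.pi fun _ : ι => gaussianReal 0 1) :=
    (hL c).integrable_mul (hL c')
  refine ⟨hI, ?_⟩
  by_cases h : c = c'
  · subst h
    rw [if_pos rfl]
    have h1 : ∫ x : ι → ℝ, x c * x c ∂(Measure.pi fun _ : ι => gaussianReal 0 1)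
        = ∫ t : ℝ, t * t ∂(gaussianReal 0 1) := by
      have hmp := measurePreserving_eval (fun _ : ι => gaussianReal 0 1) c
      conv_rhs => rw [← hmp.map_eq]
      rw [integral_map hmp.measurable.aemeasurable]
      exact (measurable_id.mul measurable_id).aestronglyMeasurable
    rw [h1]
    have h2 := variance_fun_id_gaussianReal (μ := 0) (v := 1)
    rw [variance_of_integral_eq_zero (X := fun x : ℝ => x) measurable_id.aemeasurable
      integral_id_gaussianReal] at h2
    have : (fun t : ℝ => t * t) = fun t => t ^ 2 := by ext t; ring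
    rw [this, h2]
    simp
  · rw [if_neg h]
    have hmp := measurePreserving_update (gaussianReal 0 1) c (ι := ι)
    have h1 : ∫ x, x c * x c' ∂(Measure.pi fun _ : ι => gaussianReal 0 1)
      = ∫ p : (ι → ℝ) × ℝ, p.2 * p.1 c' ∂((Measure.pi fun _ : ι => gaussianReal 0 1).prod (gaussianReal 0 1)) := by
      conv_lhs => rw [← hmp.map_eq]
      rw [integral_map hmp.measurable.aemeasurable]
      · refine integral_congr_ae (ae_of_all _ fun p => ?_)
        simp only [Function.update_self]
        rw [Function.update_of_ne (Ne.symm h)]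
      · rw [hmp.map_eq]
        exact hI.aestronglyMeasurable
    rw [h1]
    have h2 : ∀ p : (ι → ℝ) × ℝ, p.2 * p.1 c' = p.1 c' * p.2 := fun p => mul_comm _ _
    simp_rw [h2]
    rw [integral_prod_mul (fun x : ι → ℝ => x c') (fun t : ℝ => t)]
    rw [integral_id_gaussianReal, mul_zero]

variable {κ ν : Type*} [Fintype κ] [DecidableEq κ] [Fintype ν] [DecidableEq ν]

theorem integral_trace_sq (a : ν → Matrix κ κ ℂ) (h1 : ∑ i, a i * a i = 1) (N : ℕ) (hN : 0 < N) :
    Integrable (fun ξ => (Smat a N ξ * Smat a N ξ).trace.re) (gm ν N) ∧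
    ∫ ξ, (Smat a N ξ * Smat a N ξ).trace.re ∂(gm ν N) = Fintype.card κ * N := by
  have h2 : ∀ ξ, (Smat a N ξ * Smat a N ξ).trace.re
      = ∑ c, ∑ c', (ξ c * ξ c') * (Bc a N c * Bc a N c').trace.re := by
    intro ξ
    rw [Smat_eq, Finset.sum_mul_sum, Matrix.trace_sum, Complex.re_sum]
    refine Finset.sum_congr rfl fun c _ => ?_
    rw [Matrix.trace_sum, Complex.re_sum]
    refine Finset.sum_congr rfl fun c' _ => ?_
    rw [Matrix.smul_mul, Matrix.mul_smul, smul_smul, Matrix.trace_smul, smul_eq_mul,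
      ← Complex.ofReal_mul, Complex.re_ofReal_mul]
  have hI : ∀ c c' : Idx ν N, Integrable (fun ξ : Idx ν N → ℝ => (ξ c * ξ c') * (Bc a N c * Bc a N c').trace.re) (gm ν N) :=
    fun c c' => (integral_coord_mul_coord c c').1.mul_const _
  constructor
  · simp_rw [h2]
    exact integrable_finsetSum _ fun c _ => integrable_finsetSum _ fun c' _ => hI c c'
  · simp_rw [h2]
    rw [integral_finsetSum _ fun c _ => integrable_finsetSum _ fun c' _ => hI c c']
    have h3 : ∀ c : Idx ν N, ∫ ξ, ∑ c', (ξ c * ξ c') * (Bc a N c * Bc a N c').trace.re ∂(gm ν N)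
        = (Bc a N c * Bc a N c).trace.re := by
      intro c
      rw [integral_finsetSum _ fun c' _ => hI c c']
      rw [Finset.sum_eq_single c]
      · rw [integral_mul_const]
        have := (integral_coord_mul_coord c c (ι := Idx ν N)).2
        rw [if_pos rfl] at this
        unfold gm
        rw [this, one_mul]
      · intro c' _ hc'
        rw [integral_mul_const]
        have := (integral_coord_mul_coord c c' (ι := Idx ν N)).2
        rw [if_neg (Ne.symm hc')] at this
        unfold gm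
        rw [this, zero_mul]
      · simp
    rw [Finset.sum_congr rfl fun c _ => h3 c]
    rw [← Complex.re_sum, ← Matrix.trace_sum]
    have h4 := sum_Bc_mul a N (1 : Matrix (κ × Fin N) (κ × Fin N) ℂ)
    simp only [Matrix.mul_one] at h4
    rw [h4, ptr_one hN]
    simp only [Matrix.mul_one]
    rw [h1]
    have h5 : Matrix.kronecker (1 : Matrix κ κ ℂ) (1 : Matrix (Fin N) (Fin N) ℂ) = 1 :=
      Matrix.one_kronecker_one
    rw [h5, Matrix.trace_one, Fintype.card_prod, Fintype.card_fin]
    simp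

/-- the scale of regularisation -/
noncomputable def sN (N : ℕ) : ℝ := (N : ℝ) ^ (-(1 / 8) : ℝ)

theorem sN_pos (N : ℕ) (hN : 0 < N) : 0 < sN N := by
  unfold sN
  exact Real.rpow_pos_of_pos (by exact_mod_cast hN) _

theorem sN_le_one (N : ℕ) (hN : 0 < N) : sN N ≤ 1 := by
  unfold sN
  apply Real.rpow_le_one_of_one_le_of_nonpos
  · exact_mod_cast hN
  · norm_num

theorem tendsto_sN : Tendsto sN atTop (𝓝 0) := by
  unfold sN
  exact (tendsto_rpow_neg_atTop (by norm_num : (0 : ℝ) < 1 / 8)).comp tendsto_natCast_atTop_atTop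

theorem tail_small (C : ℝ) (hC : 0 < C) (θ : ℝ) (hθ : 0 < θ) :
    ∀ᶠ N : ℕ in atTop, 2 * Real.exp (-(C * (N : ℝ) ^ θ)) ≤ 1 / (N : ℝ) ^ 2 := by
  have h1 : Tendsto (fun x : ℝ => x ^ (3 / θ) * Real.exp (-C * x)) atTop (𝓝 0) :=
    tendsto_rpow_mul_exp_neg_mul_atTop_nhds_zero (3 / θ) C hC
  have h2 : Tendsto (fun N : ℕ => (N : ℝ) ^ θ) atTop atTop :=
    (tendsto_rpow_atTop hθ).comp tendsto_natCast_atTop_atTop
  have h3 := h1.comp h2
  have h4 : ∀ᶠ N : ℕ in atTop, ((N : ℝ) ^ θ) ^ (3 / θ) * Real.exp (-C * (N : ℝ) ^ θ) < 1 := by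
    exact (tendsto_order.mp h3).2 1 one_pos
  filter_upwards [h4, eventually_ge_atTop 2] with N hN hN2
  have hN0 : (0 : ℝ) < N := by exact_mod_cast (by omega : 0 < N)
  have hN2' : (2 : ℝ) ≤ N := by exact_mod_cast hN2
  rw [← Real.rpow_mul hN0.le, mul_div_cancel₀ _ hθ.ne'] at hN
  have h5 : (N : ℝ) ^ (3 : ℝ) = (N : ℝ) ^ (3 : ℕ) := by
    rw [← Real.rpow_natCast]; norm_num
  rw [h5] at hN
  rw [le_div_iff₀ (by positivity)]
  have h6 : -(C * (N : ℝ) ^ θ) = -C * (N : ℝ) ^ θ := by ring
  rw [h6]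
  have h7 := Real.exp_pos (-C * (N : ℝ) ^ θ)
  nlinarith

end Pool.Agent.helper97.GUE
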