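import Mathlib
import Pool.Agent.helper97.GUE.LogDet3

set_option autoImplicit false
set_option linter.unusedSectionVars false
open MeasureTheory ProbabilityTheory Filter Topology
open scoped NNReal ENNReal Matrix ComplexOrder

namespace Pool.Agent.helper97.GUE

variable {κ ν : Type*} [Fintype κ] [DecidableEq κ] [Fintype ν] [DecidableEq ν]

/-- the good event for a Hermitian family -/
def Good (a : ν → Matrix κ κ ℂ) (N : ℕ) (δ : ℝ) : Set (Idx ν N → ℝ) :=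
  {ξ | N * (-(Fintype.card κ : ℝ) / 2 - δ) ≤ Lf (Smat a N ξ) (sN N) ∧
    Lf (Smat a N ξ) (sN N) ≤ N * (-(Fintype.card κ : ℝ) / 2 + δ) ∧
    Tf (Smat a N ξ) (sN N) ≤ 3 * Fintype.card κ * N}

theorem sN_pow (N : ℕ) (hN : 0 < N) (k : ℕ) : (sN N) ^ k = (N : ℝ) ^ (-(k / 8) : ℝ) := by
  unfold sN
  rw [← Real.rpow_natCast, ← Real.rpow_mul (Nat.cast_nonneg N)]
  congr 1
  ring

theorem log_div_sN (N : ℕ) (hN : 0 < N) : Real.log (N / sN N) ≤ (9 / 2) * (N : ℝ) ^ (1 / 4 : ℝ) := by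
  have hN' : (0 : ℝ) < N := by exact_mod_cast hN
  rw [Real.log_div hN'.ne' (sN_pos N hN).ne']
  unfold sN
  rw [Real.log_rpow hN']
  have := Real.log_le_rpow_div hN'.le (show (0 : ℝ) < 1 / 4 by norm_num)
  linarith

theorem phi_tail (a : ν → Matrix κ κ ℂ) (ha : ∀ i, (a i).IsHermitian) [Nonempty κ] (ε : ℝ)
    (hε : 0 < ε) : ∀ᶠ N : ℕ in atTop,
    (gm ν N).real {ξ | ε * N ≤ |Phi a N (sN N) N ξ - ∫ ξ, Phi a N (sN N) N ξ ∂(gm ν N)|}
      ≤ 1 / (N : ℝ) ^ 2 := by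
  have hcard : (0 : ℝ) < Fintype.card κ := by exact_mod_cast Fintype.card_pos
  have h1 := tail_small (ε ^ 2 / (648 * (Fintype.card κ : ℝ) ^ 2)) (by positivity) (1 / 2) (by norm_num)
  filter_upwards [h1, eventually_ge_atTop 2] with N hN hN2
  have hN0 : 0 < N := by omega
  have hN' : (0 : ℝ) < N := by exact_mod_cast hN0
  have hN1 : (1 : ℝ) ≤ N := by exact_mod_cast hN0
  have hs := sN_pos N hN0
  have hs1 := sN_le_one N hN0
  have hsU : sN N ≤ N := hs1.trans hN1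
  have hlog0 : 0 ≤ Real.log (N / sN N) := by
    apply Real.log_nonneg
    rw [le_div_iff₀ hs]; linarith
  set c := 4 * Fintype.card κ * Real.log (N / sN N) with hc
  have hc0 : 0 ≤ c := by positivity
  have hf : Measurable (fun ξ => Phi a N (sN N) N ξ) := by
    unfold Phi
    exact ((continuous_Lf a ha N _ hN'.ne').sub (continuous_Lf a ha N _ hs.ne')).measurable
  have h2 := gm_mcdiarmid_tail N (fun ξ => Phi a N (sN N) N ξ) hf c hc0
    (fun j x y hxy => Phi_bdd_diff a ha N (sN N) N hs hsU j x y hxy) (ε * N) (by positivity)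
  refine h2.trans (le_trans ?_ hN)
  apply mul_le_mul_of_nonneg_left _ (by norm_num)
  apply Real.exp_le_exp.mpr
  rw [neg_div, neg_le_neg_iff]
  -- bound c
  have hcb : c ≤ 18 * Fintype.card κ * (N : ℝ) ^ (1 / 4 : ℝ) := by
    rw [hc]
    have := log_div_sN N hN0
    calc 4 * Fintype.card κ * Real.log (N / sN N)
        ≤ 4 * Fintype.card κ * ((9 / 2) * (N : ℝ) ^ (1 / 4 : ℝ)) :=
          mul_le_mul_of_nonneg_left this (by positivity)
      _ = _ := by ring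
  have hc2 : c ^ 2 ≤ 324 * (Fintype.card κ : ℝ) ^ 2 * (N : ℝ) ^ (1 / 2 : ℝ) := by
    calc c ^ 2 ≤ (18 * Fintype.card κ * (N : ℝ) ^ (1 / 4 : ℝ)) ^ 2 := pow_le_pow_left₀ hc0 hcb 2
      _ = 324 * (Fintype.card κ : ℝ) ^ 2 * ((N : ℝ) ^ (1 / 4 : ℝ)) ^ 2 := by ring
      _ = _ := by
        congr 1
        rw [← Real.rpow_natCast, ← Real.rpow_mul hN'.le]
        norm_num
  have hlogpos : 0 < Real.log (N / sN N) := by
    apply Real.log_pos
    rw [lt_div_iff₀ hs]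
    have : (2 : ℝ) ≤ N := by exact_mod_cast hN2
    linarith
  have hcpos : 0 < c := by positivity
  have hhalf : (N : ℝ) ^ (1 / 2 : ℝ) * (N : ℝ) ^ (1 / 2 : ℝ) = N := by
    rw [← Real.rpow_add hN']
    norm_num
  have hh0 : 0 < (N : ℝ) ^ (1 / 2 : ℝ) := Real.rpow_pos_of_pos hN' _
  rw [le_div_iff₀ (by positivity)]
  calc ε ^ 2 / (648 * (Fintype.card κ : ℝ) ^ 2) * (N : ℝ) ^ (1 / 2 : ℝ) * (2 * (N * c ^ 2))
      ≤ ε ^ 2 / (648 * (Fintype.card κ : ℝ) ^ 2) * (N : ℝ) ^ (1 / 2 : ℝ)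
          * (2 * (N * (324 * (Fintype.card κ : ℝ) ^ 2 * (N : ℝ) ^ (1 / 2 : ℝ)))) := by gcongr
    _ = ε ^ 2 * N * ((N : ℝ) ^ (1 / 2 : ℝ) * (N : ℝ) ^ (1 / 2 : ℝ)) := by
        field_simp
        ring
    _ = (ε * N) ^ 2 := by rw [hhalf]; ring

theorem tf_tail (a : ν → Matrix κ κ ℂ) (ha : ∀ i, (a i).IsHermitian) [Nonempty κ] :
    ∀ᶠ N : ℕ in atTop,
    (gm ν N).real {ξ | (Fintype.card κ : ℝ) * N ≤
        |Tf (Smat a N ξ) (sN N) - ∫ ξ, Tf (Smat a N ξ) (sN N) ∂(gm ν N)|}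
      ≤ 1 / (N : ℝ) ^ 2 := by
  have hcard : (0 : ℝ) < Fintype.card κ := by exact_mod_cast Fintype.card_pos
  have h1 := tail_small (1 / 32) (by positivity) (3 / 4) (by norm_num)
  filter_upwards [h1, eventually_ge_atTop 1] with N hN hN2
  have hN0 : 0 < N := by omega
  have hN' : (0 : ℝ) < N := by exact_mod_cast hN0
  have hs := sN_pos N hN0
  have hf : Measurable (fun ξ => Tf (Smat a N ξ) (sN N)) := (continuous_Tf a ha N _ hs).measurable
  have h2 := gm_mcdiarmid_tail N (fun ξ => Tf (Smat a N ξ) (sN N)) hf (4 * Fintype.card κ / sN N)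
    (by positivity) (fun j x y hxy => Tf_bdd_diff a ha N (sN N) hs j x y hxy)
    (Fintype.card κ * N) (by positivity)
  refine h2.trans (le_trans ?_ hN)
  apply mul_le_mul_of_nonneg_left _ (by norm_num)
  apply Real.exp_le_exp.mpr
  rw [neg_div, neg_le_neg_iff]
  have h3 : (sN N) ^ 2 = (N : ℝ) ^ (-(1 / 4) : ℝ) := by
    rw [sN_pow N hN0 2]; norm_num
  have h4 : (Fintype.card κ * N : ℝ) ^ 2 / (2 * (N * (4 * Fintype.card κ / sN N) ^ 2))
      = 1 / 32 * (N * (sN N) ^ 2) := by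
    field_simp
    norm_num
  rw [h4, h3]
  apply le_of_eq
  congr 1
  nth_rewrite 2 [← Real.rpow_one (N : ℝ)]
  rw [← Real.rpow_add hN']
  norm_num

theorem trace_tail (a : ν → Matrix κ κ ℂ) (ha : ∀ i, (a i).IsHermitian) (h1 : ∑ i, a i * a i = 1)
    (ε : ℝ) (hε : 0 < ε) (N : ℕ) (hN : 0 < N) :
    (gm ν N).real {ξ | 2 * ε * (N : ℝ) ^ 3 ≤ (Smat a N ξ * Smat a N ξ).trace.re}
      ≤ (Fintype.card κ / (2 * ε)) / (N : ℝ) ^ 2 := by
  have hN' : (0 : ℝ) < N := by exact_mod_cast hN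
  obtain ⟨hI, hE⟩ := integral_trace_sq a h1 N hN
  have h0 : 0 ≤ᵐ[gm ν N] fun ξ => (Smat a N ξ * Smat a N ξ).trace.re := by
    refine ae_of_all _ fun ξ => ?_
    simp only [Pi.zero_apply]
    rw [trace_sq _ (Smat_isHermitian a ha N ξ), Complex.ofReal_re]
    positivity
  have h2 := mul_meas_ge_le_integral_of_nonneg h0 hI (2 * ε * (N : ℝ) ^ 3)
  rw [hE] at h2
  rw [le_div_iff₀ (by positivity), le_div_iff₀ (by positivity)]
  have h3 : (gm ν N).real {ξ | 2 * ε * (N : ℝ) ^ 3 ≤ (Smat a N ξ * Smat a N ξ).trace.re}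
      * ((N : ℝ) ^ 2 * (2 * ε)) * N ≤ Fintype.card κ * N := by
    calc _ = 2 * ε * (N : ℝ) ^ 3 * (gm ν N).real {ξ | 2 * ε * (N : ℝ) ^ 3 ≤ (Smat a N ξ * Smat a N ξ).trace.re} := by ring
      _ ≤ _ := h2
  have := le_of_mul_le_mul_right h3 hN'
  linarith

theorem eventually_rpow_le (C θ : ℝ) (hθ : θ < 1) (ε : ℝ) (hε : 0 < ε) :
    ∀ᶠ N : ℕ in atTop, C * (N : ℝ) ^ θ ≤ ε * N := by
  have h1 : Tendsto (fun N : ℕ => C * (N : ℝ) ^ (-(1 - θ))) atTop (𝓝 (C * 0)) :=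
    ((tendsto_rpow_neg_atTop (by linarith : (0 : ℝ) < 1 - θ)).comp
      tendsto_natCast_atTop_atTop).const_mul C
  rw [mul_zero] at h1
  have h2 := (tendsto_order.mp h1).2 ε hε
  filter_upwards [h2, eventually_ge_atTop 1] with N hN hN1
  have hN' : (0 : ℝ) < N := by exact_mod_cast (by omega : 0 < N)
  have h3 : (N : ℝ) ^ θ = (N : ℝ) ^ (-(1 - θ)) * N := by
    nth_rewrite 3 [← Real.rpow_one (N : ℝ)]
    rw [← Real.rpow_add hN']
    congr 1
    ring
  rw [h3, ← mul_assoc]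
  exact mul_le_mul_of_nonneg_right hN.le hN'.le

theorem good_event [Nonempty κ] (a : ν → Matrix κ κ ℂ) (ha : ∀ i, (a i).IsHermitian)
    (h1 : ∑ i, a i * a i = 1) (δ : ℝ) (hδ : 0 < δ) :
    ∃ C : ℝ, 0 < C ∧ ∀ᶠ N : ℕ in atTop, gm ν N (Good a N δ)ᶜ ≤ ENNReal.ofReal (C / (N : ℝ) ^ 2) := by
  have hcard : (0 : ℝ) < Fintype.card κ := by exact_mod_cast Fintype.card_pos
  set ε := δ / 5 with hε
  have hε0 : 0 < ε := by positivity
  refine ⟨2 + Fintype.card κ / (2 * ε), by positivity, ?_⟩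
  have hKK := KK_nonneg a
  -- asymptotic conditions
  have c1 := eventually_rpow_le (128 * KK a * (Fintype.card κ : ℝ) ^ 3) (3 / 8) (by norm_num) ε hε0
  have c2 : ∀ᶠ N : ℕ in atTop, Fintype.card κ * |Real.log (N : ℝ) - FF N + 1 / 2| ≤ ε := by
    have h2 : Tendsto (fun N : ℕ => (Fintype.card κ : ℝ) * |Real.log (N : ℝ) - FF N + 1 / 2|) atTop
        (𝓝 (Fintype.card κ * |(-1 / 2 : ℝ) + 1 / 2|)) :=
      (((tendsto_log_sub_FF.comp tendsto_natCast_atTop_atTop).add_const (1 / 2)).abs).const_mul _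
    norm_num at h2
    filter_upwards [(tendsto_order.mp h2).2 ε hε0] with N hN
    exact hN.le
  have c3 : ∀ᶠ N : ℕ in atTop, Fintype.card κ * sN N ≤ ε := by
    have h2 : Tendsto (fun N : ℕ => (Fintype.card κ : ℝ) * sN N) atTop (𝓝 (Fintype.card κ * 0)) :=
      tendsto_sN.const_mul _
    rw [mul_zero] at h2
    filter_upwards [(tendsto_order.mp h2).2 ε hε0] with N hN
    exact hN.le
  have c4 := eventually_rpow_le (KK a * (64 * (Fintype.card κ : ℝ) ^ 2) * 3) (1 / 2) (by norm_num) 1 one_pos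
  filter_upwards [c1, c2, c3, c4, phi_tail a ha ε hε0, tf_tail a ha, eventually_ge_atTop 2]
    with N hc1 hc2 hc3 hc4 hphi htf hN2
  have hN0 : 0 < N := by omega
  have hN' : (0 : ℝ) < N := by exact_mod_cast hN0
  have hN1 : (1 : ℝ) ≤ N := by exact_mod_cast hN0
  have hs := sN_pos N hN0
  have hs1 := sN_le_one N hN0
  have hsU : sN N ≤ N := hs1.trans hN1
  have htr := trace_tail a ha h1 ε hε0 N hN0
  have hE := integral_Phi_close a ha h1 N hN0 (sN N) N hs hs1 hsU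
  have hs3 : 128 * KK a * (Fintype.card κ : ℝ) ^ 3 / (sN N) ^ 3 ≤ ε * N := by
    refine le_trans (le_of_eq ?_) hc1
    rw [sN_pow N hN0 3, Real.rpow_neg hN'.le]
    norm_num
  rw [abs_le] at hE
  have hT := trace_close a ha h1 N hN0 (sN N) (gg (sN N)) hs (gg_pos _) (gg_eq _)
  have hT1 : KK a * (64 * (Fintype.card κ : ℝ) ^ 2) / (N * (sN N) ^ 2) * (1 + 2 / (sN N) ^ 2) ≤ 1 := by
    have e1 : 1 + 2 / (sN N) ^ 2 ≤ 3 / (sN N) ^ 2 := by
      rw [le_div_iff₀ (by positivity), add_mul, div_mul_cancel₀ _ (by positivity)]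
      nlinarith
    have e2 : (sN N) ^ 4 = ((N : ℝ) ^ (1 / 2 : ℝ))⁻¹ := by
      rw [sN_pow N hN0 4, Real.rpow_neg hN'.le]; norm_num
    have e3 : 0 < (N : ℝ) ^ (1 / 2 : ℝ) := Real.rpow_pos_of_pos hN' _
    calc _ ≤ KK a * (64 * (Fintype.card κ : ℝ) ^ 2) / (N * (sN N) ^ 2) * (3 / (sN N) ^ 2) := by
          gcongr
      _ = (KK a * (64 * (Fintype.card κ : ℝ) ^ 2) * 3) / (N * (sN N) ^ 4) := by
          field_simp
      _ = (KK a * (64 * (Fintype.card κ : ℝ) ^ 2) * 3 * (N : ℝ) ^ (1 / 2 : ℝ)) / N := by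
          rw [e2]; field_simp
      _ ≤ 1 := by
          rw [div_le_one hN']
          linarith
  have hgg := gg_le_one (sN N) hs.le
  have hTE : ∫ ξ, Tf (Smat a N ξ) (sN N) ∂(gm ν N) ≤ 2 * Fintype.card κ * N := by
    have e1 := (abs_le.mp (hT.trans hT1)).2
    have e2 : (∫ ξ, (res (Smat a N ξ) (sN N)).trace.im ∂(gm ν N)) / (Fintype.card κ * N) ≤ 2 := by
      linarith
    rw [div_le_iff₀ (by positivity)] at e2
    unfold Tf
    linarith
  -- the complement is covered by three bad events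
  set E1 := {ξ | ε * N ≤ |Phi a N (sN N) N ξ - ∫ ξ, Phi a N (sN N) N ξ ∂(gm ν N)|} with hE1
  set E2 := {ξ | (Fintype.card κ : ℝ) * N ≤
        |Tf (Smat a N ξ) (sN N) - ∫ ξ, Tf (Smat a N ξ) (sN N) ∂(gm ν N)|} with hE2
  set E3 := {ξ | 2 * ε * (N : ℝ) ^ 3 ≤ (Smat a N ξ * Smat a N ξ).trace.re} with hE3
  have hsub : (Good a N δ)ᶜ ⊆ E1 ∪ E2 ∪ E3 := by
    intro ξ hξ
    by_contra hcon
    apply hξ
    simp only [Set.mem_union, not_or] at hcon
    obtain ⟨⟨h1', h2'⟩, h3'⟩ := hcon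
    simp only [hE1, hE2, hE3, Set.mem_ofPred_eq, not_le] at h1' h2' h3'
    rw [abs_lt] at h1' h2'
    have hH := Smat_isHermitian a ha N ξ
    have hL1 := Lf_lower _ hH (N : ℝ) hN'
    have hL2 := Lf_upper _ hH (N : ℝ) hN'
    have hcardp : (Fintype.card (κ × Fin N) : ℝ) = Fintype.card κ * N := by
      rw [Fintype.card_prod, Fintype.card_fin]; push_cast; ring
    rw [hcardp] at hL1 hL2
    have htr2 : (Smat a N ξ * Smat a N ξ).trace.re / (2 * (N : ℝ) ^ 2) ≤ ε * N := by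
      rw [div_le_iff₀ (by positivity)]
      calc _ ≤ 2 * ε * (N : ℝ) ^ 3 := h3'.le
        _ = _ := by ring
    have hPhi : Phi a N (sN N) N ξ = Lf (Smat a N ξ) N - Lf (Smat a N ξ) (sN N) := rfl
    have hFs0 := FF_nonneg (sN N) hs.le
    have hFs1 := FF_le (sN N) hs.le
    have hkF : Fintype.card κ * N * FF (sN N) ≤ ε * N := by
      calc Fintype.card κ * N * FF (sN N) ≤ Fintype.card κ * N * sN N :=
            mul_le_mul_of_nonneg_left hFs1 (by positivity)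
        _ = (Fintype.card κ * sN N) * N := by ring
        _ ≤ ε * N := mul_le_mul_of_nonneg_right hc3 hN'.le
    have hkF0 : 0 ≤ Fintype.card κ * N * FF (sN N) := by positivity
    have hlog : |Fintype.card κ * N * (Real.log N - FF N + 1 / 2)| ≤ ε * N := by
      rw [abs_mul, abs_of_pos (by positivity)]
      calc Fintype.card κ * N * |Real.log N - FF N + 1 / 2|
          = (Fintype.card κ * |Real.log N - FF N + 1 / 2|) * N := by ring
        _ ≤ ε * N := mul_le_mul_of_nonneg_right hc2 hN'.le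
    rw [abs_le] at hlog
    have hδ5 : δ = 5 * ε := by rw [hε]; ring
    rw [hPhi] at h1'
    refine ⟨?_, ?_, ?_⟩
    · rw [hδ5]
      linarith [h1'.1, h1'.2, hE.1, hE.2, hlog.1, hlog.2]
    · rw [hδ5]
      linarith [h1'.1, h1'.2, hE.1, hE.2, hlog.1, hlog.2]
    · linarith [h2'.1, h2'.2]
  calc gm ν N (Good a N δ)ᶜ ≤ gm ν N (E1 ∪ E2 ∪ E3) := measure_mono hsub
    _ ≤ gm ν N E1 + gm ν N E2 + gm ν N E3 :=
        (measure_union_le _ _).trans (add_le_add (measure_union_le _ _) le_rfl)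
    _ = ENNReal.ofReal ((gm ν N).real E1 + (gm ν N).real E2 + (gm ν N).real E3) := by
        rw [ENNReal.ofReal_add (by positivity) (by positivity),
          ENNReal.ofReal_add (by positivity) (by positivity)]
        simp [Measure.real]
    _ ≤ _ := by
        apply ENNReal.ofReal_le_ofReal
        calc _ ≤ 1 / (N : ℝ) ^ 2 + 1 / (N : ℝ) ^ 2 + (Fintype.card κ / (2 * ε)) / (N : ℝ) ^ 2 :=
              add_le_add (add_le_add hphi htf) htr
          _ = _ := by ring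

end Pool.Agent.helper97.GUE
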