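import Mathlib
import Pool.Agent.helper97.GUE.LogDet4

set_option autoImplicit false
set_option linter.unusedSectionVars false
open MeasureTheory ProbabilityTheory Filter Topology
open scoped NNReal ENNReal Matrix ComplexOrder

namespace Pool.Agent.helper97.GUE

section det
variable {ι : Type*} [Fintype ι] [DecidableEq ι]

theorem aat_spec (A : Matrix ι ι ℂ) : ∃ μ : ι → ℝ, (∀ i, 0 ≤ μ i) ∧
    (∀ v : ℝ, (A * Aᴴ + ((v : ℂ) ^ 2) • (1 : Matrix ι ι ℂ)).det = ((∏ i, (μ i + v ^ 2) : ℝ) : ℂ)) ∧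
    (∀ v : ℝ, v ≠ 0 → ((A * Aᴴ + ((v : ℂ) ^ 2) • (1 : Matrix ι ι ℂ))⁻¹).trace
      = ((∑ i, (μ i + v ^ 2)⁻¹ : ℝ) : ℂ)) ∧
    A.rank = Fintype.card {i // μ i ≠ 0} := by
  have hp : (A * Aᴴ).PosSemidef := Matrix.posSemidef_self_mul_conjTranspose A
  have hH := hp.isHermitian
  obtain ⟨U, h2, h1, h⟩ := exists_diag (A * Aᴴ) hH
  have h3 : ∀ v : ℝ, A * Aᴴ + ((v : ℂ) ^ 2) • (1 : Matrix ι ι ℂ)
      = U * Matrix.diagonal (fun i => ((hH.eigenvalues i : ℂ) + (v : ℂ) ^ 2)) * Uᴴ := by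
    intro v
    conv_lhs => rw [h]
    rw [← conj_diag_const U h2, conj_diag_add]
  refine ⟨hH.eigenvalues, hp.eigenvalues_nonneg, ?_, ?_, ?_⟩
  · intro v
    rw [h3 v, conj_diag_det U h1]
    push_cast
    rfl
  · intro v hv
    rw [h3 v, conj_diag_inv U h1 h2, conj_diag_trace U h1]
    · push_cast
      rfl
    · intro i hi
      have h3 : (hH.eigenvalues i + v ^ 2 : ℝ) = 0 := by exact_mod_cast hi
      have h4 := hp.eigenvalues_nonneg i
      have : 0 < hH.eigenvalues i + v ^ 2 := by positivity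
      linarith
  · rw [← Matrix.rank_self_mul_conjTranspose A, hH.rank_eq_card_non_zero_eigs]

/-- regularised determinant -/
noncomputable def Hf (A : Matrix ι ι ℂ) (v : ℝ) : ℝ :=
  (A * Aᴴ + ((v : ℂ) ^ 2) • (1 : Matrix ι ι ℂ)).det.re

/-- regularised corank -/
noncomputable def Cf (A : Matrix ι ι ℂ) (v : ℝ) : ℝ :=
  v ^ 2 * ((A * Aᴴ + ((v : ℂ) ^ 2) • (1 : Matrix ι ι ℂ))⁻¹).trace.re

theorem norm_det_sq_le (A : Matrix ι ι ℂ) (v : ℝ) : ‖A.det‖ ^ 2 ≤ Hf A v := by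
  obtain ⟨μ, hμ, hd, -, -⟩ := aat_spec A
  have h0 := hd 0
  simp only [Complex.ofReal_zero, ne_eq, OfNat.ofNat_ne_zero, not_false_eq_true, zero_pow, zero_smul,
    add_zero, Matrix.det_mul, Matrix.det_conjTranspose] at h0
  have h1 : ‖A.det‖ ^ 2 = ∏ i, μ i := by
    have : A.det * star A.det = ((‖A.det‖ ^ 2 : ℝ) : ℂ) := by
      rw [← Complex.normSq_eq_norm_sq, RCLike.star_def, Complex.mul_conj]
    rw [this] at h0
    exact_mod_cast h0
  unfold Hf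
  rw [hd v, Complex.ofReal_re, h1]
  exact Finset.prod_le_prod (fun i _ => hμ i) (fun i _ => by nlinarith [sq_nonneg v])

theorem card_le_rank_add (A : Matrix ι ι ℂ) (v : ℝ) (hv : v ≠ 0) :
    (Fintype.card ι : ℝ) ≤ A.rank + Cf A v := by
  obtain ⟨μ, hμ, -, ht, hr⟩ := aat_spec A
  unfold Cf
  rw [ht v hv, Complex.ofReal_re, hr, Finset.mul_sum, Fintype.card_subtype]
  have h1 : (Fintype.card ι : ℝ) = ∑ i : ι, ((if μ i ≠ 0 then (1 : ℝ) else 0) + (if μ i = 0 then 1 else 0)) := by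
    rw [← Finset.card_univ, Finset.card_eq_sum_ones]
    push_cast
    refine Finset.sum_congr rfl fun i _ => ?_
    by_cases h : μ i = 0 <;> simp [h]
  rw [h1, Finset.sum_add_distrib]
  apply add_le_add
  · rw [Finset.sum_boole]
  · refine Finset.sum_le_sum fun i _ => ?_
    have hi := hμ i
    by_cases h : μ i = 0
    · rw [if_pos h, h, zero_add, mul_inv_cancel₀ (by positivity)]
    · rw [if_neg h]; positivity

/-- Hermitisation -/
def herm {κ : Type*} (a : Matrix κ κ ℂ) : Matrix (κ ⊕ κ) (κ ⊕ κ) ℂ := Matrix.fromBlocks 0 a aᴴ 0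

theorem herm_isHermitian {κ : Type*} (a : Matrix κ κ ℂ) : (herm a).IsHermitian := by
  unfold herm Matrix.IsHermitian
  rw [Matrix.fromBlocks_conjTranspose]
  simp

theorem herm_sq {κ : Type*} [Fintype κ] (a : Matrix κ κ ℂ) :
    herm a * herm a = Matrix.fromBlocks (a * aᴴ) 0 0 (aᴴ * a) := by
  unfold herm
  rw [Matrix.fromBlocks_multiply]
  simp

theorem det_herm_sq (A : Matrix ι ι ℂ) (v : ℝ) (hv : v ≠ 0) :
    (herm A * herm A + ((v : ℂ) ^ 2) • (1 : Matrix (ι ⊕ ι) (ι ⊕ ι) ℂ)).det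
      = ((Hf A v ^ 2 : ℝ) : ℂ) := by
  have h1 : herm A * herm A + ((v : ℂ) ^ 2) • (1 : Matrix (ι ⊕ ι) (ι ⊕ ι) ℂ)
      = Matrix.fromBlocks (A * Aᴴ + ((v : ℂ) ^ 2) • (1 : Matrix ι ι ℂ)) 0 0
          (Aᴴ * A + ((v : ℂ) ^ 2) • (1 : Matrix ι ι ℂ)) := by
    rw [herm_sq, ← Matrix.fromBlocks_one, Matrix.fromBlocks_smul, Matrix.fromBlocks_add]
    simp
  rw [h1, Matrix.det_fromBlocks_zero₂₁]
  have hv2 : ((v : ℂ) ^ 2) ≠ 0 := by
    have : (v : ℂ) ≠ 0 := by exact_mod_cast hv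
    positivity
  have h2 : (Aᴴ * A + ((v : ℂ) ^ 2) • (1 : Matrix ι ι ℂ)).det
      = (A * Aᴴ + ((v : ℂ) ^ 2) • (1 : Matrix ι ι ℂ)).det := by
    have e1 : Aᴴ * A + ((v : ℂ) ^ 2) • (1 : Matrix ι ι ℂ)
        = ((v : ℂ) ^ 2) • (1 + (((v : ℂ) ^ 2)⁻¹ • Aᴴ) * A) := by
      rw [smul_add, Matrix.smul_mul, smul_smul, mul_inv_cancel₀ hv2, one_smul, add_comm]
    have e2 : A * Aᴴ + ((v : ℂ) ^ 2) • (1 : Matrix ι ι ℂ)
        = ((v : ℂ) ^ 2) • (1 + A * (((v : ℂ) ^ 2)⁻¹ • Aᴴ)) := by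
      rw [smul_add, Matrix.mul_smul, smul_smul, mul_inv_cancel₀ hv2, one_smul, add_comm]
    rw [e1, e2, Matrix.det_smul, Matrix.det_smul, Matrix.det_one_add_mul_comm]
  rw [h2]
  obtain ⟨μ, hμ, hd, -, -⟩ := aat_spec A
  unfold Hf
  rw [hd v, Complex.ofReal_re]
  push_cast
  ring

theorem Hf_pos (A : Matrix ι ι ℂ) (v : ℝ) (hv : v ≠ 0) : 0 < Hf A v := by
  obtain ⟨μ, hμ, hd, -, -⟩ := aat_spec A
  unfold Hf
  rw [hd v, Complex.ofReal_re]
  exact Finset.prod_pos fun i _ => by have := hμ i; positivity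

theorem Lf_herm (A : Matrix ι ι ℂ) (v : ℝ) (hv : v ≠ 0) : Lf (herm A) v = Real.log (Hf A v) := by
  unfold Lf
  rw [det_herm_sq A v hv, Complex.ofReal_re, Real.log_pow]
  push_cast
  ring

theorem Cf_le_herm (A : Matrix ι ι ℂ) (v : ℝ) (hv : 0 < v) : Cf A v ≤ v * Tf (herm A) v := by
  have h1 : herm A * herm A + ((v : ℂ) ^ 2) • (1 : Matrix (ι ⊕ ι) (ι ⊕ ι) ℂ)
      = Matrix.fromBlocks (A * Aᴴ + ((v : ℂ) ^ 2) • (1 : Matrix ι ι ℂ)) 0 0
          (Aᴴ * A + ((v : ℂ) ^ 2) • (1 : Matrix ι ι ℂ)) := by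
    rw [herm_sq, ← Matrix.fromBlocks_one, Matrix.fromBlocks_smul, Matrix.fromBlocks_add]
    simp
  have hT : v * Tf (herm A) v
      = v ^ 2 * ((herm A * herm A + ((v : ℂ) ^ 2) • (1 : Matrix (ι ⊕ ι) (ι ⊕ ι) ℂ))⁻¹).trace.re := by
    rw [Tf_eq _ (herm_isHermitian A) v hv.ne', trace_sq_add_inv _ (herm_isHermitian A) v hv.ne',
      Complex.ofReal_re, Finset.mul_sum, Finset.mul_sum]
    refine Finset.sum_congr rfl fun i _ => ?_
    ring
  rw [hT, h1]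
  obtain ⟨μ, hμ, hd, ht, -⟩ := aat_spec A
  obtain ⟨μ', hμ', hd', ht', -⟩ := aat_spec Aᴴ
  rw [Matrix.conjTranspose_conjTranspose] at hd' ht'
  have u1 : IsUnit (A * Aᴴ + ((v : ℂ) ^ 2) • (1 : Matrix ι ι ℂ)).det := by
    rw [hd v, isUnit_iff_ne_zero]
    have : 0 < ∏ i, (μ i + v ^ 2) := Finset.prod_pos fun i _ => by have := hμ i; positivity
    exact_mod_cast this.ne'
  have u2 : IsUnit (Aᴴ * A + ((v : ℂ) ^ 2) • (1 : Matrix ι ι ℂ)).det := by
    rw [hd' v, isUnit_iff_ne_zero]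
    have : 0 < ∏ i, (μ' i + v ^ 2) := Finset.prod_pos fun i _ => by have := hμ' i; positivity
    exact_mod_cast this.ne'
  have h2 : (Matrix.fromBlocks (A * Aᴴ + ((v : ℂ) ^ 2) • (1 : Matrix ι ι ℂ)) 0 0
          (Aᴴ * A + ((v : ℂ) ^ 2) • (1 : Matrix ι ι ℂ)))⁻¹
      = Matrix.fromBlocks (A * Aᴴ + ((v : ℂ) ^ 2) • (1 : Matrix ι ι ℂ))⁻¹ 0 0
          (Aᴴ * A + ((v : ℂ) ^ 2) • (1 : Matrix ι ι ℂ))⁻¹ := by
    apply Matrix.inv_eq_right_inv
    rw [Matrix.fromBlocks_multiply, Matrix.mul_nonsing_inv _ u1, Matrix.mul_nonsing_inv _ u2]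
    simp
  rw [h2]
  unfold Cf
  apply mul_le_mul_of_nonneg_left _ (by positivity)
  have htb : ∀ B D : Matrix ι ι ℂ, (Matrix.fromBlocks B 0 0 D).trace = B.trace + D.trace := by
    intro B D
    simp [Matrix.trace, Fintype.sum_sum_type]
  rw [htb, Complex.add_re, ht' v hv.ne', Complex.ofReal_re]
  have : 0 ≤ ∑ i, (μ' i + v ^ 2)⁻¹ := Finset.sum_nonneg fun i _ => by have := hμ' i; positivity
  linarith

theorem Lf_submatrix {ι' : Type*} [Fintype ι'] [DecidableEq ι'] (S : Matrix ι ι ℂ) (e : ι' ≃ ι)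
    (v : ℝ) : Lf (S.submatrix e e) v = Lf S v := by
  unfold Lf
  congr 2
  have h1 : S.submatrix e e * S.submatrix e e + ((v : ℂ) ^ 2) • (1 : Matrix ι' ι' ℂ)
      = (S * S + ((v : ℂ) ^ 2) • (1 : Matrix ι ι ℂ)).submatrix e e := by
    rw [Matrix.submatrix_mul_equiv]
    ext x y
    simp [Matrix.one_apply]
  rw [h1, Matrix.det_submatrix_equiv_self]

theorem Tf_submatrix {ι' : Type*} [Fintype ι'] [DecidableEq ι'] (S : Matrix ι ι ℂ) (e : ι' ≃ ι)
    (v : ℝ) : Tf (S.submatrix e e) v = Tf S v := by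
  unfold Tf res
  have h1 : S.submatrix e e - ((v : ℂ) * Complex.I) • (1 : Matrix ι' ι' ℂ)
      = (S - ((v : ℂ) * Complex.I) • (1 : Matrix ι ι ℂ)).submatrix e e := by
    ext x y
    simp [Matrix.one_apply]
  rw [h1, Matrix.inv_submatrix_equiv]
  congr 1
  simp only [Matrix.trace, Matrix.diag, Matrix.submatrix_apply]
  exact Equiv.sum_comp e (fun i => (S - ((v : ℂ) * Complex.I) • (1 : Matrix ι ι ℂ))⁻¹ i i)

end det

variable {κ ν : Type*} [Fintype κ] [DecidableEq κ] [Fintype ν] [DecidableEq ν]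

theorem gue_isHermitian (N : ℕ) (ξ : Idx ν N → ℝ) (i : ν) :
    (gue N (fun c => (ξ c : ℂ)) i).IsHermitian := by
  unfold gue Matrix.IsHermitian
  simp only [Matrix.conjTranspose_sum, Matrix.conjTranspose_smul]
  refine Finset.sum_congr rfl fun j _ => Finset.sum_congr rfl fun k _ =>
    Finset.sum_congr rfl fun b _ => ?_
  rw [(hb_isHermitian N j k b).eq]
  simp

theorem Smat_herm (a : ν → Matrix κ κ ℂ) (N : ℕ) (ξ : Idx ν N → ℝ) :
    (Smat (fun i => herm (a i)) N ξ).submatrix (Equiv.sumProdDistrib κ κ (Fin N)).symm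
      (Equiv.sumProdDistrib κ κ (Fin N)).symm
      = herm (ksum a (gue N (fun c => (ξ c : ℂ)))) := by
  ext x y
  rw [Matrix.submatrix_apply]
  unfold Smat herm
  rcases x with ⟨x, p⟩ | ⟨x, p⟩ <;> rcases y with ⟨y, q⟩ | ⟨y, q⟩
  · simp [ksum_apply]
  · simp [ksum_apply]
  · simp only [Equiv.sumProdDistrib_symm_apply_right, Equiv.sumProdDistrib_symm_apply_left, ksum_apply,
      Matrix.fromBlocks_apply₂₁, Matrix.conjTranspose_apply, star_sum, star_mul']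
    refine Finset.sum_congr rfl fun i _ => ?_
    have := congrFun (congrFun (gue_isHermitian N ξ i).eq p) q
    rw [Matrix.conjTranspose_apply] at this
    rw [this]
  · simp [ksum_apply]

/-- good event for a doubly stochastic family -/
def GoodA (a : ν → Matrix κ κ ℂ) (N : ℕ) (δ : ℝ) : Set (Idx ν N → ℝ) :=
  {ξ | Real.exp (N * (-(Fintype.card κ : ℝ) - δ)) ≤ Hf (ksum a (gue N (fun c => (ξ c : ℂ)))) (sN N) ∧
    Hf (ksum a (gue N (fun c => (ξ c : ℂ)))) (sN N) ≤ Real.exp (N * (-(Fintype.card κ : ℝ) + δ)) ∧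
    Cf (ksum a (gue N (fun c => (ξ c : ℂ)))) (sN N) ≤ 6 * Fintype.card κ * N * sN N}

theorem goodA_event [Nonempty κ] (a : ν → Matrix κ κ ℂ) (h1 : ∑ i, a i * (a i)ᴴ = 1)
    (h2 : ∑ i, (a i)ᴴ * a i = 1) (δ : ℝ) (hδ : 0 < δ) :
    ∃ C : ℝ, 0 < C ∧ ∀ᶠ N : ℕ in atTop,
      gm ν N (GoodA a N δ)ᶜ ≤ ENNReal.ofReal (C / (N : ℝ) ^ 2) := by
  have h3 : ∑ i, herm (a i) * herm (a i) = 1 := by
    simp_rw [herm_sq]
    have : ∑ i, Matrix.fromBlocks (a i * (a i)ᴴ) 0 0 ((a i)ᴴ * a i)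
        = Matrix.fromBlocks (∑ i, a i * (a i)ᴴ) 0 0 (∑ i, (a i)ᴴ * a i) := by
      ext x y
      rw [Matrix.sum_apply]
      rcases x with x | x <;> rcases y with y | y <;> simp [Matrix.sum_apply]
    rw [this, h1, h2, Matrix.fromBlocks_one]
  obtain ⟨C, hC, h4⟩ := good_event (fun i => herm (a i)) (fun i => herm_isHermitian _) h3 δ hδ
  refine ⟨C, hC, ?_⟩
  filter_upwards [h4, eventually_ge_atTop 1] with N hN hN1
  refine le_trans (measure_mono ?_) hN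
  rw [Set.compl_subset_compl]
  intro ξ hξ
  obtain ⟨g1, g2, g3⟩ := hξ
  have hs := sN_pos N (by omega)
  have hcard : (Fintype.card (κ ⊕ κ) : ℝ) = 2 * Fintype.card κ := by
    rw [Fintype.card_sum]; push_cast; ring
  have hL : Lf (Smat (fun i => herm (a i)) N ξ) (sN N)
      = Real.log (Hf (ksum a (gue N (fun c => (ξ c : ℂ)))) (sN N)) := by
    rw [← Lf_herm _ _ hs.ne', ← Smat_herm, Lf_submatrix]
  have hT : Tf (Smat (fun i => herm (a i)) N ξ) (sN N)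
      = Tf (herm (ksum a (gue N (fun c => (ξ c : ℂ))))) (sN N) := by
    rw [← Smat_herm, Tf_submatrix]
  have hH := Hf_pos (ksum a (gue N (fun c => (ξ c : ℂ)))) (sN N) hs.ne'
  rw [hL, hcard] at g1 g2
  rw [hT, hcard] at g3
  refine ⟨?_, ?_, ?_⟩
  · rw [← Real.le_log_iff_exp_le hH]
    refine le_trans (le_of_eq ?_) g1
    ring
  · rw [← Real.log_le_iff_le_exp hH]
    refine g2.trans (le_of_eq ?_)
    ring
  · refine (Cf_le_herm _ _ hs).trans ?_
    calc sN N * Tf (herm (ksum a (gue N (fun c => (ξ c : ℂ))))) (sN N)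
        ≤ sN N * (3 * (2 * Fintype.card κ) * N) := mul_le_mul_of_nonneg_left g3 hs.le
      _ = _ := by ring

/-- some member of the model has small corank -/
theorem exists_small_corank [Nonempty κ] (a : ν → Matrix κ κ ℂ) (h1 : ∑ i, a i * (a i)ᴴ = 1)
    (h2 : ∑ i, (a i)ᴴ * a i = 1) :
    ∃ (N : ℕ) (X : ν → Matrix (Fin N) (Fin N) ℂ), 0 < N ∧
      Fintype.card κ * N < (ksum a X).rank + N := by
  obtain ⟨C, hC, h4⟩ := goodA_event a h1 h2 1 one_pos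
  have h5 : ∀ᶠ N : ℕ in atTop, 6 * Fintype.card κ * sN N < 1 := by
    have h2 : Tendsto (fun N : ℕ => (6 * Fintype.card κ : ℝ) * sN N) atTop (𝓝 (6 * Fintype.card κ * 0)) :=
      tendsto_sN.const_mul _
    rw [mul_zero] at h2
    exact (tendsto_order.mp h2).2 1 one_pos
  have h6 : ∀ᶠ N : ℕ in atTop, C / (N : ℝ) ^ 2 < 1 := by
    have : Tendsto (fun N : ℕ => C / (N : ℝ) ^ 2) atTop (𝓝 0) := by
      apply Tendsto.div_atTop tendsto_const_nhds
      exact (tendsto_pow_atTop two_ne_zero).comp tendsto_natCast_atTop_atTop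
    exact (tendsto_order.mp this).2 1 one_pos
  obtain ⟨N, hN4, hN5, hN6, hN1⟩ := (h4.and (h5.and (h6.and (eventually_ge_atTop 1)))).exists
  have hN' : (0 : ℝ) < N := by exact_mod_cast (by omega : 0 < N)
  have hne : (GoodA a N 1).Nonempty := by
    by_contra hcon
    rw [Set.not_nonempty_iff_eq_empty] at hcon
    rw [hcon, Set.compl_empty, measure_univ] at hN4
    have : ENNReal.ofReal (C / (N : ℝ) ^ 2) < 1 := by
      rw [← ENNReal.ofReal_one]
      exact (ENNReal.ofReal_lt_ofReal_iff one_pos).mpr hN6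
    exact absurd hN4 (not_le.mpr this)
  obtain ⟨ξ, -, -, g3⟩ := hne
  refine ⟨N, gue N (fun c => (ξ c : ℂ)), by omega, ?_⟩
  have h7 := card_le_rank_add (ksum a (gue N (fun c => (ξ c : ℂ)))) (sN N) (sN_pos N (by omega)).ne'
  rw [Fintype.card_prod, Fintype.card_fin] at h7
  push_cast at h7
  have h8 : 6 * Fintype.card κ * N * sN N < N := by
    calc 6 * Fintype.card κ * N * sN N = (6 * Fintype.card κ * sN N) * N := by ring
      _ < 1 * N := mul_lt_mul_of_pos_right hN5 hN'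
      _ = N := one_mul _
  have h9 : (Fintype.card κ : ℝ) * N < (ksum a (gue N (fun c => (ξ c : ℂ)))).rank + N := by linarith
  exact_mod_cast h9

end Pool.Agent.helper97.GUE
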