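import Mathlib
import Pool.Agent.helper97.GUE.Model

set_option autoImplicit false
open MeasureTheory ProbabilityTheory Filter Topology
open scoped NNReal ENNReal Matrix ComplexOrder

namespace Pool.Agent.helper97.GUE

/-- law-level statement with exponent `ℓ` -/
def LawT {κ ν : Type} [Fintype κ] [DecidableEq κ] [Fintype ν] (a : ν → Matrix κ κ ℂ) (ℓ : ℝ) :
    Prop :=
  ∀ δ : ℝ, 0 < δ → ∃ C : ℝ, ∀ᶠ N : ℕ in atTop,
      (gm ν N) {ξ | ¬ (Real.exp (N * (ℓ - δ)) ≤ ‖(ksum a (gue N fun c => (ξ c : ℂ))).det‖ ∧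
        ‖(ksum a (gue N fun c => (ξ c : ℂ))).det‖ ≤ Real.exp (N * (ℓ + δ)))}
        ≤ ENNReal.ofReal (C / (N : ℝ) ^ 2)

end Pool.Agent.helper97.GUE
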