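import Mathlib
import Pool.Agent.helper97.GUE.Herm
import Pool.Agent.helper97.GUE.LawDef

set_option autoImplicit false
set_option linter.unusedSectionVars false
open MeasureTheory ProbabilityTheory Filter Topology
open scoped NNReal ENNReal Matrix ComplexOrder

namespace Pool.Agent.helper97.GUE

/-- AM-GM for the determinant -/
theorem det_amgm {ι : Type*} [Fintype ι] [DecidableEq ι] [Nonempty ι] (A : Matrix ι ι ℂ) :
    (‖A.det‖ ^ (1 / (Fintype.card ι : ℝ))) ^ 2 ≤ (A * Aᴴ).trace.re / Fintype.card ι := by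
  have hp : (A * Aᴴ).PosSemidef := Matrix.posSemidef_self_mul_conjTranspose A
  have hH := hp.isHermitian
  have hn : (0 : ℝ) < Fintype.card ι := by exact_mod_cast Fintype.card_pos
  have h1 : ‖A.det‖ ^ 2 = ∏ i, hH.eigenvalues i := by
    have h2 := hH.det_eq_prod_eigenvalues
    rw [Matrix.det_mul, Matrix.det_conjTranspose] at h2
    have : A.det * star A.det = ((‖A.det‖ ^ 2 : ℝ) : ℂ) := by
      rw [← Complex.normSq_eq_norm_sq, RCLike.star_def, Complex.mul_conj]
    rw [this] at h2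
    have h3 : ((‖A.det‖ ^ 2 : ℝ) : ℂ) = ((∏ i, hH.eigenvalues i : ℝ) : ℂ) := by
      rw [h2]; push_cast; rfl
    exact_mod_cast h3
  have h2 : (A * Aᴴ).trace.re = ∑ i, hH.eigenvalues i := by
    rw [hH.trace_eq_sum_eigenvalues, Complex.re_sum]
    rfl
  have h3 := Real.geom_mean_le_arith_mean_weighted Finset.univ (fun _ : ι => 1 / (Fintype.card ι : ℝ))
    hH.eigenvalues (fun i _ => by positivity) (by simp [hn.ne']) (fun i _ => hp.eigenvalues_nonneg i)
  have h4 : (‖A.det‖ ^ (1 / (Fintype.card ι : ℝ))) ^ 2 = ∏ i, hH.eigenvalues i ^ (1 / (Fintype.card ι : ℝ)) := by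
    rw [← Real.rpow_natCast, ← Real.rpow_mul (norm_nonneg _), mul_comm,
      Real.rpow_mul (norm_nonneg _), Real.rpow_natCast, h1,
      Real.finsetProd_rpow _ _ (fun i _ => hp.eigenvalues_nonneg i)]
  rw [h4, h2]
  refine h3.trans (le_of_eq ?_)
  rw [← Finset.mul_sum]
  ring

variable {κ ν : Type*} [Fintype κ] [DecidableEq κ] [Fintype ν] [DecidableEq ν]

theorem integral_trace_sq' (a : ν → Matrix κ κ ℂ) (N : ℕ) (hN : 0 < N) :
    Integrable (fun ξ => (Smat a N ξ * Smat a N ξ).trace.re) (gm ν N) ∧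
    ∫ ξ, (Smat a N ξ * Smat a N ξ).trace.re ∂(gm ν N) = (∑ i, a i * a i).trace.re * N := by
  have h2 : ∀ ξ, (Smat a N ξ * Smat a N ξ).trace.re
      = ∑ c, ∑ c', (ξ c * ξ c') * (Bc a N c * Bc a N c').trace.re := by
    intro ξ
    rw [Smat_eq, Finset.sum_mul_sum, Matrix.trace_sum, Complex.re_sum]
    refine Finset.sum_congr rfl fun c _ => ?_
    rw [Matrix.trace_sum, Complex.re_sum]
    refine Finset.sum_congr rfl fun c' _ => ?_
    rw [Matrix.smul_mul, Matrix.mul_smul, smul_smul, Matrix.trace_smul, smul_eq_mul,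
      ← Complex.ofReal_mul, Complex.re_ofReal_mul]
  have hI : ∀ c c' : Idx ν N, Integrable (fun ξ : Idx ν N → ℝ => (ξ c * ξ c') * (Bc a N c * Bc a N c').trace.re) (gm ν N) :=
    fun c c' => (integral_coord_mul_coord c c').1.mul_const _
  constructor
  · simp_rw [h2]
    exact integrable_finsetSum _ fun c _ => integrable_finsetSum _ fun c' _ => hI c c'
  · simp_rw [h2]
    rw [integral_finsetSum _ fun c _ => integrable_finsetSum _ fun c' _ => hI c c']
    have h3 : ∀ c : Idx ν N, ∫ ξ, ∑ c', (ξ c * ξ c') * (Bc a N c * Bc a N c').trace.re ∂(gm ν N)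
        = (Bc a N c * Bc a N c).trace.re := by
      intro c
      rw [integral_finsetSum _ fun c' _ => hI c c']
      rw [Finset.sum_eq_single c]
      · rw [integral_mul_const]
        have := (integral_coord_mul_coord c c (ι := Idx ν N)).2
        rw [if_pos rfl] at this
        unfold gm
        rw [this, one_mul]
      · intro c' _ hc'
        rw [integral_mul_const]
        have := (integral_coord_mul_coord c c' (ι := Idx ν N)).2
        rw [if_neg (Ne.symm hc')] at this
        unfold gm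
        rw [this, zero_mul]
      · simp
    rw [Finset.sum_congr rfl fun c _ => h3 c]
    rw [← Complex.re_sum, ← Matrix.trace_sum]
    have h4 := sum_Bc_mul a N (1 : Matrix (κ × Fin N) (κ × Fin N) ℂ)
    simp only [Matrix.mul_one] at h4
    rw [h4, ptr_one hN]
    simp only [Matrix.mul_one]
    rw [Matrix.kronecker, Matrix.trace_kronecker, Matrix.trace_one, Fintype.card_fin]
    simp

theorem integral_trace_aat (a : ν → Matrix κ κ ℂ) (N : ℕ) (hN : 0 < N) :
    Integrable (fun ξ => (ksum a (gue N (fun c => (ξ c : ℂ))) *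
      (ksum a (gue N (fun c => (ξ c : ℂ))))ᴴ).trace.re) (gm ν N) ∧
    ∫ ξ, (ksum a (gue N (fun c => (ξ c : ℂ))) *
      (ksum a (gue N (fun c => (ξ c : ℂ))))ᴴ).trace.re ∂(gm ν N)
      = (∑ i, herm (a i) * herm (a i)).trace.re * N / 2 := by
  obtain ⟨hI, hE⟩ := integral_trace_sq' (fun i => herm (a i)) N hN
  have h1 : ∀ ξ, (ksum a (gue N (fun c => (ξ c : ℂ))) *
      (ksum a (gue N (fun c => (ξ c : ℂ))))ᴴ).trace.re
      = (1 / 2) * (Smat (fun i => herm (a i)) N ξ * Smat (fun i => herm (a i)) N ξ).trace.re := by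
    intro ξ
    set A := ksum a (gue N (fun c => (ξ c : ℂ))) with hA
    set S := Smat (fun i => herm (a i)) N ξ with hS
    set e := (Equiv.sumProdDistrib κ κ (Fin N)).symm with he
    have h2 : (S * S).trace = (herm A * herm A).trace := by
      rw [hA, ← Smat_herm a N ξ, ← hS, ← he, Matrix.submatrix_mul_equiv]
      simp only [Matrix.trace, Matrix.diag, Matrix.submatrix_apply]
      exact (Equiv.sum_comp e (fun i => (S * S) i i)).symm
    rw [h2, herm_sq]
    have htb : ∀ B D : Matrix (κ × Fin N) (κ × Fin N) ℂ,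
        (Matrix.fromBlocks B 0 0 D).trace = B.trace + D.trace := by
      intro B D
      simp [Matrix.trace, Fintype.sum_sum_type]
    rw [htb, Matrix.trace_mul_comm Aᴴ A, Complex.add_re]
    ring
  constructor
  · simp_rw [h1]
    exact hI.const_mul _
  · simp_rw [h1]
    rw [integral_const_mul, hE]
    ring

/-- the normalised determinant in the model -/
noncomputable def fN (a : ν → Matrix κ κ ℂ) (N : ℕ) (ξ : Idx ν N → ℝ) : ℝ :=
  ‖(ksum a (gue N (fun c => (ξ c : ℂ)))).det‖ ^ (1 / ((Fintype.card κ : ℝ) * (N : ℝ)))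

theorem fN_nonneg (a : ν → Matrix κ κ ℂ) (N : ℕ) (ξ : Idx ν N → ℝ) : 0 ≤ fN a N ξ :=
  Real.rpow_nonneg (norm_nonneg _) _

theorem continuous_fN (a : ν → Matrix κ κ ℂ) (N : ℕ) : Continuous (fN a N) := by
  unfold fN
  exact ((continuous_Smat a N).matrix_det.norm).rpow_const (fun _ => Or.inr (by positivity))

theorem fN_sq_le [Nonempty κ] (a : ν → Matrix κ κ ℂ) (N : ℕ) (hN : 0 < N) (ξ : Idx ν N → ℝ) :
    fN a N ξ ^ 2 ≤ (ksum a (gue N (fun c => (ξ c : ℂ))) *
      (ksum a (gue N (fun c => (ξ c : ℂ))))ᴴ).trace.re / (Fintype.card κ * N) := by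
  have : Nonempty (Fin N) := ⟨⟨0, hN⟩⟩
  have := det_amgm (ksum a (gue N (fun c => (ξ c : ℂ))))
  rw [Fintype.card_prod, Fintype.card_fin] at this
  push_cast at this
  exact this

theorem integral_fN_sq_le [Nonempty κ] (a : ν → Matrix κ κ ℂ) (N : ℕ) (hN : 0 < N) :
    Integrable (fun ξ => fN a N ξ ^ 2) (gm ν N) ∧
    ∫ ξ, fN a N ξ ^ 2 ∂(gm ν N) ≤ (∑ i, herm (a i) * herm (a i)).trace.re / (2 * Fintype.card κ) := by
  obtain ⟨hI, hE⟩ := integral_trace_aat a N hN
  have hN' : (0 : ℝ) < N := by exact_mod_cast hN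
  have hcard : (0 : ℝ) < Fintype.card κ := by exact_mod_cast Fintype.card_pos
  have hI2 := hI.div_const (Fintype.card κ * N : ℝ)
  have hint : Integrable (fun ξ => fN a N ξ ^ 2) (gm ν N) := by
    refine hI2.mono ((continuous_fN a N).pow 2).aestronglyMeasurable (ae_of_all _ fun ξ => ?_)
    rw [Real.norm_eq_abs, Real.norm_eq_abs, abs_of_nonneg (sq_nonneg _)]
    exact (fN_sq_le a N hN ξ).trans (le_abs_self _)
  refine ⟨hint, ?_⟩
  calc ∫ ξ, fN a N ξ ^ 2 ∂(gm ν N) ≤ ∫ ξ, (ksum a (gue N (fun c => (ξ c : ℂ))) *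
      (ksum a (gue N (fun c => (ξ c : ℂ))))ᴴ).trace.re / (Fintype.card κ * N) ∂(gm ν N) :=
        integral_mono hint hI2 (fun ξ => fN_sq_le a N hN ξ)
    _ = _ := by
        rw [integral_div, hE]
        field_simp

end Pool.Agent.helper97.GUE
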