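import Mathlib
import Pool.Agent.helper97.GUE.Mean1

set_option autoImplicit false
set_option linter.unusedSectionVars false
open MeasureTheory ProbabilityTheory Filter Topology
open scoped NNReal ENNReal Matrix ComplexOrder

namespace Pool.Agent.helper97.GUE

theorem root_bounds (m N : ℕ) (hm : 0 < m) (hN : 0 < N) (D ℓ δ : ℝ)
    (h1 : Real.exp (N * (ℓ - δ)) ≤ D) (h2 : D ≤ Real.exp (N * (ℓ + δ))) :
    Real.exp ((ℓ - δ) / m) ≤ D ^ (1 / ((m : ℝ) * (N : ℝ))) ∧
    D ^ (1 / ((m : ℝ) * (N : ℝ))) ≤ Real.exp ((ℓ + δ) / m) := by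
  have hm' : (0 : ℝ) < m := by exact_mod_cast hm
  have hN' : (0 : ℝ) < N := by exact_mod_cast hN
  have hD : 0 < D := lt_of_lt_of_le (Real.exp_pos _) h1
  have e : ∀ t : ℝ, Real.exp (N * t) ^ (1 / ((m : ℝ) * (N : ℝ))) = Real.exp (t / m) := by
    intro t
    rw [← Real.exp_mul]
    congr 1
    field_simp
  constructor
  · rw [← e]
    exact Real.rpow_le_rpow (Real.exp_pos _).le h1 (by positivity)
  · rw [← e]
    exact Real.rpow_le_rpow hD.le h2 (by positivity)

variable {κ ν : Type} [Fintype κ] [DecidableEq κ] [Fintype ν] [DecidableEq ν]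

/-- convergence of the means in the model -/
theorem mean_gm [Nonempty κ] (a : ν → Matrix κ κ ℂ) (ℓ : ℝ) (hlaw : LawT a ℓ) :
    Tendsto (fun N : ℕ => ∫ ξ, fN a N ξ ∂(gm ν N)) atTop
      (𝓝 (Real.exp (ℓ / Fintype.card κ))) := by
  set m := Fintype.card κ with hm
  have hm0 : 0 < m := Fintype.card_pos
  have hm' : (0 : ℝ) < m := by exact_mod_cast hm0
  set L := Real.exp (ℓ / m) with hL
  have hL0 : 0 < L := Real.exp_pos _
  set C₀ := (∑ i, herm (a i) * herm (a i)).trace.re / (2 * m) with hC₀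
  have hC₀0 : 0 ≤ C₀ := by
    have h := (integral_fN_sq_le a 1 one_pos).2
    exact le_trans (integral_nonneg fun ξ => sq_nonneg _) h
  rw [Metric.tendsto_atTop]
  intro ε hε
  -- choose δ such that exp((ℓ ± δ)/m) is ε/4 close to L
  have hcont : Tendsto (fun δ : ℝ => Real.exp ((ℓ + δ) / m)) (𝓝 0) (𝓝 L) := by
    have : Continuous (fun δ : ℝ => Real.exp ((ℓ + δ) / m)) := by fun_prop
    have h := this.tendsto 0
    simpa using h
  obtain ⟨δ, hδ0, hδ1, hδ2⟩ : ∃ δ : ℝ, 0 < δ ∧ Real.exp ((ℓ + δ) / m) ≤ L + ε / 4 ∧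
      L - ε / 4 ≤ Real.exp ((ℓ - δ) / m) := by
    rw [Metric.tendsto_nhds_nhds] at hcont
    obtain ⟨r, hr, h⟩ := hcont (ε / 4) (by positivity)
    refine ⟨r / 2, by positivity, ?_, ?_⟩
    · have := h (x := r / 2) (by rw [Real.dist_eq, sub_zero, abs_of_pos (by positivity)]; linarith)
      rw [Real.dist_eq, abs_lt] at this
      linarith [this.2]
    · have := h (x := -(r / 2)) (by
        rw [Real.dist_eq, sub_zero, abs_neg, abs_of_pos (by positivity)]; linarith)
      rw [Real.dist_eq, abs_lt] at this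
      rw [sub_eq_add_neg ℓ]
      linarith [this.1]
  obtain ⟨C, hC⟩ := hlaw δ hδ0
  -- choose t with t * C₀ ≤ ε/8
  set t := ε / (8 * (C₀ + 1)) with ht
  have ht0 : 0 < t := by positivity
  have htC : t * C₀ ≤ ε / 8 := by
    rw [ht, div_mul_eq_mul_div, div_le_div_iff₀ (by positivity) (by norm_num)]
    nlinarith
  -- N large
  have hlim : Tendsto (fun N : ℕ => (1 / (4 * t) + L) * (|C| / (N : ℝ) ^ 2)) atTop (𝓝 0) := by
    have h1 : Tendsto (fun N : ℕ => |C| / (N : ℝ) ^ 2) atTop (𝓝 0) := by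
      apply Tendsto.div_atTop tendsto_const_nhds
      exact (tendsto_pow_atTop two_ne_zero).comp tendsto_natCast_atTop_atTop
    simpa using h1.const_mul (1 / (4 * t) + L)
  have hlim2 := (tendsto_order.mp hlim).2 (ε / 8) (by positivity)
  obtain ⟨N₀, hN₀⟩ := eventually_atTop.mp (hC.and (hlim2.and (eventually_ge_atTop 1)))
  refine ⟨N₀, fun N hN => ?_⟩
  obtain ⟨h1, h2, h3⟩ := hN₀ N hN
  have hN0 : 0 < N := by omega
  obtain ⟨hI2, hE2⟩ := integral_fN_sq_le a N hN0
  set B := {ξ : Idx ν N → ℝ | ¬ (Real.exp (N * (ℓ - δ)) ≤ ‖(ksum a (gue N fun c => (ξ c : ℂ))).det‖ ∧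
        ‖(ksum a (gue N fun c => (ξ c : ℂ))).det‖ ≤ Real.exp (N * (ℓ + δ)))} with hB
  have hdc : Continuous (fun ξ : Idx ν N → ℝ => ‖(ksum a (gue N fun c => (ξ c : ℂ))).det‖) :=
    (continuous_Smat a N).matrix_det.norm
  have hBm : MeasurableSet B := by
    apply MeasurableSet.compl
    exact (measurableSet_le measurable_const hdc.measurable).inter
      (measurableSet_le hdc.measurable measurable_const)
  have hBr : (gm ν N).real B ≤ |C| / (N : ℝ) ^ 2 := by
    unfold Measure.real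
    apply ENNReal.toReal_le_of_le_ofReal (by positivity)
    refine h1.trans (ENNReal.ofReal_le_ofReal ?_)
    apply div_le_div_of_nonneg_right (le_abs_self C) (by positivity)
  have hfI : Integrable (fN a N) (gm ν N) := by
    have hL2 : MemLp (fN a N) 2 (gm ν N) := by
      rw [memLp_two_iff_integrable_sq (continuous_fN a N).aestronglyMeasurable]
      exact hI2
    exact hL2.integrable (by norm_num)
  -- pointwise bound
  have hpt : ∀ ξ, |fN a N ξ - L| ≤ ε / 4 + (t * fN a N ξ ^ 2 + B.indicator (fun _ => 1 / (4 * t) + L) ξ) := by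
    intro ξ
    by_cases hξ : ξ ∈ B
    · rw [Set.indicator_of_mem hξ]
      have h5 : |fN a N ξ - L| ≤ fN a N ξ + L := by
        rw [abs_le]
        have := fN_nonneg a N ξ
        constructor <;> linarith
      have h6 : fN a N ξ ≤ t * fN a N ξ ^ 2 + 1 / (4 * t) := by
        have h7 : 0 ≤ t * (fN a N ξ - 1 / (2 * t)) ^ 2 := by positivity
        have h8 : t * (fN a N ξ - 1 / (2 * t)) ^ 2 = t * fN a N ξ ^ 2 - fN a N ξ + 1 / (4 * t) := by
          field_simp
          ring
        linarith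
      linarith
    · rw [Set.indicator_of_notMem hξ]
      simp only [hB, Set.mem_ofPred_eq, not_not] at hξ
      obtain ⟨g1, g2⟩ := root_bounds m N hm0 hN0 _ ℓ δ hξ.1 hξ.2
      have h9 : 0 ≤ t * fN a N ξ ^ 2 := by positivity
      have h10 : |fN a N ξ - L| ≤ ε / 4 := by
        rw [abs_le]
        unfold fN
        constructor <;> linarith
      linarith
  have hIind : Integrable (B.indicator (fun _ => 1 / (4 * t) + L)) (gm ν N) :=
    (integrable_const _).indicator hBm
  have hIt : Integrable (fun ξ => t * fN a N ξ ^ 2) (gm ν N) := hI2.const_mul t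
  have hIs : Integrable (fun ξ => t * fN a N ξ ^ 2 + B.indicator (fun _ => 1 / (4 * t) + L) ξ) (gm ν N) :=
    hIt.add hIind
  rw [Real.dist_eq]
  have hsub : ∫ ξ, fN a N ξ ∂(gm ν N) - L = ∫ ξ, (fN a N ξ - L) ∂(gm ν N) := by
    rw [integral_sub hfI (integrable_const _)]
    simp
  rw [hsub]
  calc |∫ ξ, (fN a N ξ - L) ∂(gm ν N)| ≤ ∫ ξ, |fN a N ξ - L| ∂(gm ν N) := abs_integral_le_integral_abs
    _ ≤ ∫ ξ, (ε / 4 + (t * fN a N ξ ^ 2 + B.indicator (fun _ => 1 / (4 * t) + L) ξ)) ∂(gm ν N) :=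
        integral_mono (hfI.sub (integrable_const _)).abs ((integrable_const _).add hIs) hpt
    _ = ε / 4 + (t * ∫ ξ, fN a N ξ ^ 2 ∂(gm ν N) + (gm ν N).real B * (1 / (4 * t) + L)) := by
        rw [integral_add (integrable_const _) hIs, integral_add hIt hIind, integral_const_mul,
          integral_indicator_const _ hBm]
        simp
    _ ≤ ε / 4 + (ε / 8 + ε / 8) := by
        have h11 : t * ∫ ξ, fN a N ξ ^ 2 ∂(gm ν N) ≤ ε / 8 :=
          (mul_le_mul_of_nonneg_left hE2 ht0.le).trans htC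
        have h12 : (gm ν N).real B * (1 / (4 * t) + L) ≤ ε / 8 := by
          calc (gm ν N).real B * (1 / (4 * t) + L) ≤ |C| / (N : ℝ) ^ 2 * (1 / (4 * t) + L) :=
                mul_le_mul_of_nonneg_right hBr (by positivity)
            _ = (1 / (4 * t) + L) * (|C| / (N : ℝ) ^ 2) := by ring
            _ ≤ ε / 8 := h2.le
        linarith
    _ < ε := by linarith

/-- Borel-Cantelli with the bound `C / N²` for large `N` -/
theorem borel_cantelli' {Ω : Type*} [MeasurableSpace Ω] (P : Measure Ω) [IsProbabilityMeasure P]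
    (s : ℕ → Set Ω) (C : ℝ) (h : ∀ᶠ N : ℕ in atTop, P (s N) ≤ ENNReal.ofReal (C / (N : ℝ) ^ 2)) :
    ∀ᵐ ω ∂P, ∀ᶠ N in atTop, ω ∉ s N := by
  obtain ⟨N₀, hN₀⟩ := eventually_atTop.mp h
  have hsum : (∑' N, P (s (N + N₀))) ≠ ∞ := by
    have h1 : ∀ N, P (s (N + N₀)) ≤ ENNReal.ofReal (|C| / ((N + N₀ : ℕ) : ℝ) ^ 2) := by
      intro N
      refine (hN₀ (N + N₀) (by omega)).trans (ENNReal.ofReal_le_ofReal ?_)
      exact div_le_div_of_nonneg_right (le_abs_self C) (by positivity)
    refine ne_top_of_le_ne_top ?_ (ENNReal.tsum_le_tsum h1)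
    have hs : Summable (fun N : ℕ => |C| / ((N + N₀ : ℕ) : ℝ) ^ 2) := by
      have h2 : Summable (fun N : ℕ => |C| / (N : ℝ) ^ 2) := by
        simp_rw [div_eq_mul_inv]
        exact ((Real.summable_nat_pow_inv).mpr (by norm_num)).mul_left _
      exact (summable_nat_add_iff N₀).mpr h2
    rw [← ENNReal.ofReal_tsum_of_nonneg (fun N => by positivity) hs]
    exact ENNReal.ofReal_ne_top
  filter_upwards [ae_eventually_notMem hsum] with ω hω
  obtain ⟨M, hM⟩ := eventually_atTop.mp hω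
  refine eventually_atTop.mpr ⟨M + N₀, fun N hN => ?_⟩
  have := hM (N - N₀) (by omega)
  rwa [Nat.sub_add_cancel (by omega)] at this

end Pool.Agent.helper97.GUE
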