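import Mathlib
import Pool.Agent.helper97.GUE.Mean2
import Pool.Agent.helper97.GUE.LawTransfer

set_option autoImplicit false
set_option linter.unusedSectionVars false
open MeasureTheory ProbabilityTheory Filter Topology
open scoped NNReal ENNReal Matrix ComplexOrder

namespace Pool.Agent.helper97.GUE

/-- final assembly -/
theorem final_of_law (m n : ℕ) (hm : 1 ≤ m) (a : Fin n → Matrix (Fin m) (Fin m) ℂ) (ℓ : ℝ)
    (hlaw : LawT a ℓ)
    (Ω : Type) [MeasurableSpace Ω] (P : Measure Ω) [IsProbabilityMeasure P]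
    (X : (N : ℕ) → Fin n → Ω → Matrix (Fin N) (Fin N) ℂ)
    (hH : ∀ N i ω, (X N i ω).IsHermitian)
    (hI : ∀ N, iIndepFun
          (fun p : {p : Fin n × Fin N × Fin N // p.2.1 ≤ p.2.2} =>
            fun ω => X N p.1.1 ω p.1.2.1 p.1.2.2) P)
    (hd : ∀ N i (j : Fin N), P.map (fun ω => X N i ω j j)
          = (gaussianReal 0 (1 / (N : ℝ≥0))).map (fun x : ℝ => (x : ℂ)))
    (ho : ∀ N i (j k : Fin N), j < k → P.map (fun ω => X N i ω j k)
          = ((gaussianReal 0 (1 / (2 * (N : ℝ≥0)))).prod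
              (gaussianReal 0 (1 / (2 * (N : ℝ≥0))))).map
              (fun x : ℝ × ℝ => Complex.equivRealProd.symm x)) :
    (∀ᵐ ω ∂P, ∀ᶠ N in atTop, IsUnit (ksum a (fun i => X N i ω)).det) ∧
    (∀ᵐ ω ∂P, Tendsto (fun N : ℕ => ‖(ksum a (fun i => X N i ω)).det‖ ^ (1 / ((m : ℝ) * (N : ℝ))))
      atTop (𝓝 (Real.exp (ℓ / m)))) ∧
    Tendsto (fun N : ℕ => ∫ ω, ‖(ksum a (fun i => X N i ω)).det‖ ^ (1 / ((m : ℝ) * (N : ℝ))) ∂P)
      atTop (𝓝 (Real.exp (ℓ / m))) := by
  have hm0 : 0 < m := hm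
  have hm' : (0 : ℝ) < m := by exact_mod_cast hm0
  have : Nonempty (Fin m) := ⟨⟨0, hm0⟩⟩
  have hcont : ∀ N : ℕ, Continuous (fun Y : Fin n → Matrix (Fin N) (Fin N) ℂ => ‖(ksum a Y).det‖) := by
    intro N
    have : Continuous (fun Y : Fin n → Matrix (Fin N) (Fin N) ℂ => ksum a Y) := by
      apply continuous_matrix
      intro x y
      simp only [ksum_apply]
      refine continuous_finsetSum _ fun i _ => continuous_const.mul ?_
      exact Continuous.matrix_elem (continuous_apply i) _ _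
    exact this.matrix_det.norm
  -- almost sure statement for every δ
  have hae : ∀ δ : ℝ, 0 < δ → ∀ᵐ ω ∂P, ∀ᶠ N : ℕ in atTop,
      Real.exp (N * (ℓ - δ)) ≤ ‖(ksum a (fun i => X N i ω)).det‖ ∧
        ‖(ksum a (fun i => X N i ω)).det‖ ≤ Real.exp (N * (ℓ + δ)) := by
    intro δ hδ
    obtain ⟨C, hC⟩ := hlaw δ hδ
    have h1 : ∀ N : ℕ, P {ω | ¬ (Real.exp (N * (ℓ - δ)) ≤ ‖(ksum a (fun i => X N i ω)).det‖ ∧
        ‖(ksum a (fun i => X N i ω)).det‖ ≤ Real.exp (N * (ℓ + δ)))}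
        = (gm (Fin n) N) {ξ | ¬ (Real.exp (N * (ℓ - δ)) ≤ ‖(ksum a (gue N fun c => (ξ c : ℂ))).det‖ ∧
        ‖(ksum a (gue N fun c => (ξ c : ℂ))).det‖ ≤ Real.exp (N * (ℓ + δ)))} := by
      intro N
      obtain ⟨hmeas, hmap⟩ := law_transfer P (X N) (hH N) (hI N) (hd N) (ho N)
        (fun Y => ‖(ksum a Y).det‖) (hcont N)
      set S : Set ℝ := (Set.Icc (Real.exp (N * (ℓ - δ))) (Real.exp (N * (ℓ + δ))))ᶜ with hS
      have hSm : MeasurableSet S := measurableSet_Icc.compl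
      have e1 : (P.map (fun ω => ‖(ksum a (fun i => X N i ω)).det‖)) S
          = ((gm (Fin n) N).map (fun ξ => ‖(ksum a (gue N (fun c => (ξ c : ℂ)))).det‖)) S := by
        rw [hmap]
      rw [Measure.map_apply_of_aemeasurable hmeas hSm, Measure.map_apply _ hSm] at e1
      · exact e1
      · exact ((continuous_Smat a N).matrix_det.norm).measurable
    have h2 := borel_cantelli' P (fun N : ℕ => {ω | ¬ (Real.exp (N * (ℓ - δ)) ≤ ‖(ksum a (fun i => X N i ω)).det‖ ∧
        ‖(ksum a (fun i => X N i ω)).det‖ ≤ Real.exp (N * (ℓ + δ)))}) C (by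
      filter_upwards [hC] with N hN
      rw [h1 N]
      exact hN)
    filter_upwards [h2] with ω hω
    filter_upwards [hω] with N hN
    simpa using hN
  refine ⟨?_, ?_, ?_⟩
  · filter_upwards [hae 1 one_pos] with ω hω
    filter_upwards [hω] with N hN
    rw [isUnit_iff_ne_zero]
    intro h0
    rw [h0, norm_zero] at hN
    exact absurd hN.1 (not_le.mpr (Real.exp_pos _))
  · have hall : ∀ᵐ ω ∂P, ∀ k : ℕ, ∀ᶠ N : ℕ in atTop,
      Real.exp (N * (ℓ - 1 / ((k : ℝ) + 1))) ≤ ‖(ksum a (fun i => X N i ω)).det‖ ∧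
        ‖(ksum a (fun i => X N i ω)).det‖ ≤ Real.exp (N * (ℓ + 1 / ((k : ℝ) + 1))) := by
      rw [ae_all_iff]
      intro k
      exact hae _ (by positivity)
    filter_upwards [hall] with ω hω
    rw [tendsto_order]
    have hlim1 : Tendsto (fun k : ℕ => Real.exp ((ℓ - 1 / ((k : ℝ) + 1)) / m)) atTop (𝓝 (Real.exp (ℓ / m))) := by
      have h3 : Tendsto (fun x : ℝ => Real.exp ((ℓ - x) / m)) (𝓝 0) (𝓝 (Real.exp ((ℓ - 0) / m))) := by
        apply Continuous.tendsto
        fun_prop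
      rw [sub_zero] at h3
      exact h3.comp tendsto_one_div_add_atTop_nhds_zero_nat
    have hlim2 : Tendsto (fun k : ℕ => Real.exp ((ℓ + 1 / ((k : ℝ) + 1)) / m)) atTop (𝓝 (Real.exp (ℓ / m))) := by
      have h3 : Tendsto (fun x : ℝ => Real.exp ((ℓ + x) / m)) (𝓝 0) (𝓝 (Real.exp ((ℓ + 0) / m))) := by
        apply Continuous.tendsto
        fun_prop
      rw [add_zero] at h3
      exact h3.comp tendsto_one_div_add_atTop_nhds_zero_nat
    constructor
    · intro b hb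
      obtain ⟨k, hk⟩ := ((tendsto_order.mp hlim1).1 b hb).exists
      filter_upwards [hω k, eventually_ge_atTop 1] with N hN hN1
      obtain ⟨g1, g2⟩ := root_bounds m N hm0 (by omega) _ ℓ _ hN.1 hN.2
      exact lt_of_lt_of_le hk g1
    · intro b hb
      obtain ⟨k, hk⟩ := ((tendsto_order.mp hlim2).2 b hb).exists
      filter_upwards [hω k, eventually_ge_atTop 1] with N hN hN1
      obtain ⟨g1, g2⟩ := root_bounds m N hm0 (by omega) _ ℓ _ hN.1 hN.2
      exact lt_of_le_of_lt g2 hk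
  · have h4 := mean_gm a ℓ hlaw
    rw [Fintype.card_fin] at h4
    refine h4.congr ?_
    intro N
    have hcont2 : Continuous (fun Y : Fin n → Matrix (Fin N) (Fin N) ℂ =>
        ‖(ksum a Y).det‖ ^ (1 / ((m : ℝ) * (N : ℝ)))) :=
      (hcont N).rpow_const (fun _ => Or.inr (by positivity))
    obtain ⟨hmeas, hmap⟩ := law_transfer P (X N) (hH N) (hI N) (hd N) (ho N) _ hcont2
    have e1 : ∫ ω, ‖(ksum a (fun i => X N i ω)).det‖ ^ (1 / ((m : ℝ) * (N : ℝ))) ∂P
        = ∫ x, x ∂(P.map (fun ω => ‖(ksum a (fun i => X N i ω)).det‖ ^ (1 / ((m : ℝ) * (N : ℝ))))) := by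
      exact (integral_map hmeas (f := fun x : ℝ => x) aestronglyMeasurable_id).symm
    have e2 : ∫ ξ, fN a N ξ ∂(gm (Fin n) N)
        = ∫ x, x ∂((gm (Fin n) N).map (fun ξ => ‖(ksum a (gue N (fun c => (ξ c : ℂ)))).det‖ ^ (1 / ((m : ℝ) * (N : ℝ))))) := by
      have hm2 := (continuous_fN a N).measurable.aemeasurable (μ := gm (Fin n) N)
      have hf : fN a N = fun ξ => ‖(ksum a (gue N (fun c => (ξ c : ℂ)))).det‖ ^ (1 / ((m : ℝ) * (N : ℝ))) := by
        ext ξ
        unfold fN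
        rw [Fintype.card_fin]
      rw [hf] at hm2 ⊢
      exact (integral_map hm2 (f := fun x : ℝ => x) aestronglyMeasurable_id).symm
    rw [e1, e2, hmap]

end Pool.Agent.helper97.GUE
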