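import Mathlib
import Pool.Agent.helper97.GUE.LawDef
import Pool.Agent.helper75.RndBlock
import Pool.Agent.helper16.GUE.Cap
import Pool.Agent.helper16.GUE.CapBlocks
import Pool.Agent.helper16.GUE.Scaling

set_option autoImplicit false
set_option linter.unusedSectionVars false
open MeasureTheory ProbabilityTheory Filter Topology
open scoped NNReal ENNReal Matrix ComplexOrder

namespace Pool.Agent.helper97.GUE

section alg

theorem det_ksum_blocks {κ₁ κ₂ ν ι : Type*} [Fintype κ₁] [DecidableEq κ₁] [Fintype κ₂]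
    [DecidableEq κ₂] [Fintype ν] [Fintype ι] [DecidableEq ι] (a : ν → Matrix κ₁ κ₁ ℂ)
    (b : ν → Matrix κ₁ κ₂ ℂ) (d : ν → Matrix κ₂ κ₂ ℂ) (X : ν → Matrix ι ι ℂ) :
    (ksum (fun i => Matrix.fromBlocks (a i) (b i) 0 (d i)) X).det
      = (ksum a X).det * (ksum d X).det := by
  rw [← Matrix.det_submatrix_equiv_self (Equiv.sumProdDistrib κ₁ κ₂ ι).symm]
  have h : (ksum (fun i => Matrix.fromBlocks (a i) (b i) 0 (d i)) X).submatrix
      (Equiv.sumProdDistrib κ₁ κ₂ ι).symm (Equiv.sumProdDistrib κ₁ κ₂ ι).symm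
      = Matrix.fromBlocks (ksum a X) (Matrix.of fun x y => ∑ i, b i x.1 y.1 * X i x.2 y.2) 0
          (ksum d X) := by
    ext x y
    rw [Matrix.submatrix_apply, ksum_apply]
    rcases x with ⟨x, p⟩ | ⟨x, p⟩ <;> rcases y with ⟨y, q⟩ | ⟨y, q⟩ <;> simp [ksum_apply]
  rw [h, Matrix.det_fromBlocks_zero₂₁]

theorem det_ksum_mul {κ ν ι : Type*} [Fintype κ] [DecidableEq κ] [Fintype ν] [Fintype ι]
    [DecidableEq ι] (a : ν → Matrix κ κ ℂ) (p q : Matrix κ κ ℂ) (X : ν → Matrix ι ι ℂ) :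
    (ksum (fun i => p * a i * q) X).det
      = p.det ^ Fintype.card ι * q.det ^ Fintype.card ι * (ksum a X).det := by
  have h : ksum (fun i => p * a i * q) X
      = Matrix.kronecker p (1 : Matrix ι ι ℂ) * ksum a X * Matrix.kronecker q (1 : Matrix ι ι ℂ) := by
    unfold ksum
    rw [Finset.mul_sum, Finset.sum_mul]
    refine Finset.sum_congr rfl fun i _ => ?_
    simp only [Matrix.kronecker]
    rw [← Matrix.mul_kronecker_mul, ← Matrix.mul_kronecker_mul, Matrix.one_mul, Matrix.mul_one]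
  rw [h, Matrix.det_mul, Matrix.det_mul]
  simp only [Matrix.kronecker]
  rw [Matrix.det_kronecker, Matrix.det_kronecker]
  simp
  ring

theorem det_ksum_reindex {κ κ' ν ι : Type*} [Fintype κ] [DecidableEq κ] [Fintype κ']
    [DecidableEq κ'] [Fintype ν] [Fintype ι]
    [DecidableEq ι] (a : ν → Matrix κ κ ℂ) (e : κ ≃ κ') (X : ν → Matrix ι ι ℂ) :
    (ksum (fun i => (a i).reindex e e) X).det = (ksum a X).det := by
  rw [← Matrix.det_submatrix_equiv_self (Equiv.prodCongr e (Equiv.refl ι))]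
  congr 1
  ext x y
  rw [Matrix.submatrix_apply, ksum_apply, ksum_apply]
  simp

theorem cap_reindex_le {κ κ' ν : Type*} [Fintype κ] [DecidableEq κ] [Fintype κ']
    [DecidableEq κ'] [Fintype ν] (a : ν → Matrix κ κ ℂ) (e : κ ≃ κ') :
    {c : ℝ | ∃ b : Matrix κ κ ℂ, b.PosDef ∧ c = (∑ i, a i * b * (a i)ᴴ).det.re / b.det.re}
      ⊆ {c : ℝ | ∃ b : Matrix κ' κ' ℂ, b.PosDef ∧
        c = (∑ i, (a i).reindex e e * b * ((a i).reindex e e)ᴴ).det.re / b.det.re} := by
  rintro c ⟨b, hb, rfl⟩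
  refine ⟨b.reindex e e, ?_, ?_⟩
  · exact hb.submatrix e.symm.injective
  · have h1 : ∑ i, (a i).reindex e e * b.reindex e e * ((a i).reindex e e)ᴴ
        = (∑ i, a i * b * (a i)ᴴ).reindex e e := by
      have h2 : ∀ i, (a i).reindex e e * b.reindex e e * ((a i).reindex e e)ᴴ
          = (a i * b * (a i)ᴴ).reindex e e := by
        intro i
        simp only [Matrix.reindex_apply, Matrix.conjTranspose_submatrix]
        rw [Matrix.submatrix_mul_equiv, Matrix.submatrix_mul_equiv]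
      simp_rw [h2]
      ext x y
      simp [Matrix.sum_apply]
    rw [h1, Matrix.det_reindex_self, Matrix.det_reindex_self]

theorem cap_reindex {κ κ' ν : Type*} [Fintype κ] [DecidableEq κ] [Fintype κ']
    [DecidableEq κ'] [Fintype ν] (a : ν → Matrix κ κ ℂ) (e : κ ≃ κ') :
    cap (fun i => (a i).reindex e e) = cap a := by
  unfold cap
  congr 1
  apply Set.Subset.antisymm
  · have h := cap_reindex_le (fun i => (a i).reindex e e) e.symm
    refine h.trans (le_of_eq ?_)
    simp [Matrix.submatrix_submatrix]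
  · exact cap_reindex_le a e

theorem map_mul_mul {κ : Type*} [Fintype κ] [DecidableEq κ] {ν : Type*}
    (a : ν → Matrix κ κ ℂ) (p q : Matrix κ κ ℂ) (V : Submodule ℂ (κ → ℂ)) :
    (⨆ i, V.map (Matrix.toLin' (p * a i * q)) : Submodule ℂ (κ → ℂ))
      = (⨆ i, (V.map (Matrix.toLin' q)).map (Matrix.toLin' (a i)) : Submodule ℂ (κ → ℂ)).map
          (Matrix.toLin' p) := by
  rw [Submodule.map_iSup]
  congr 1
  ext1 i
  rw [Matrix.toLin'_mul, Matrix.toLin'_mul, Submodule.map_comp, Submodule.map_comp]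

theorem toLin_inj {κ : Type*} [Fintype κ] [DecidableEq κ] (p : Matrix κ κ ℂ) (hp : IsUnit p.det) :
    Function.Injective (Matrix.toLin' p) := by
  rw [Matrix.toLin'_apply', Matrix.coe_mulVecLin, Matrix.mulVec_injective_iff_isUnit,
    Matrix.isUnit_iff_isUnit_det]
  exact hp

theorem finrank_map_unit {κ : Type*} [Fintype κ] [DecidableEq κ] (p : Matrix κ κ ℂ)
    (hp : IsUnit p.det) (V : Submodule ℂ (κ → ℂ)) :
    Module.finrank ℂ (V.map (Matrix.toLin' p)) = Module.finrank ℂ V :=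
  (Submodule.equivMapOfInjective _ (toLin_inj p hp) V).finrank_eq.symm

theorem rnd_mul {κ : Type*} [Fintype κ] [DecidableEq κ] {ν : Type*}
    (a : ν → Matrix κ κ ℂ) (p q : Matrix κ κ ℂ) (hp : IsUnit p.det) (hq : IsUnit q.det)
    (ha : RND a) : RND (fun i => p * a i * q) := by
  intro V
  rw [map_mul_mul, finrank_map_unit p hp]
  have := ha (V.map (Matrix.toLin' q))
  rwa [finrank_map_unit q hq] at this

theorem irr_mul {κ : Type*} [Fintype κ] [DecidableEq κ] {ν : Type*}
    (a : ν → Matrix κ κ ℂ) (p q : Matrix κ κ ℂ) (hp : IsUnit p.det) (hq : IsUnit q.det)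
    (ha : Irr a) : Irr (fun i => p * a i * q) := by
  refine ⟨rnd_mul a p q hp hq ha.1, ?_⟩
  intro V hV0 hV1
  rw [map_mul_mul, finrank_map_unit p hp]
  have h0 : V.map (Matrix.toLin' q) ≠ ⊥ := by
    intro h
    apply hV0
    rw [← LinearMap.le_ker_iff_map, LinearMap.ker_eq_bot.mpr (toLin_inj q hq)] at h
    exact le_bot_iff.mp h
  have h1 : V.map (Matrix.toLin' q) ≠ ⊤ := by
    intro h
    apply hV1
    apply Submodule.eq_top_of_finrank_eq
    rw [← finrank_map_unit q hq V, h, finrank_top]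
  have := ha.2 (V.map (Matrix.toLin' q)) h0 h1
  rwa [finrank_map_unit q hq] at this

end alg

end Pool.Agent.helper97.GUE
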