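import Mathlib

set_option autoImplicit false
open scoped Matrix

namespace Pool.Agent.helper97.GUE

/-- degree of the determinant along a pencil supported on few rows and columns -/
theorem det_pencil {ι : Type*} [Fintype ι] [DecidableEq ι] (M₀ M₁ : Matrix ι ι ℂ)
    (P : ι → Prop) [DecidablePred P] (h : ∀ x y, ¬ P x → ¬ P y → M₁ x y = 0) :
    ∃ p : Polynomial ℂ, p.natDegree ≤ 2 * Fintype.card {x // P x} ∧
      ∀ t : ℂ, (M₀ + t • M₁).det = p.eval t := by
  refine ⟨∑ σ : Equiv.Perm ι, Polynomial.C ((Equiv.Perm.sign σ : ℤ) : ℂ) *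
    ∏ i, (Polynomial.C (M₀ (σ i) i) + Polynomial.X * Polynomial.C (M₁ (σ i) i)), ?_, ?_⟩
  · apply Polynomial.natDegree_sum_le_of_forall_le
    intro σ _
    refine (Polynomial.natDegree_C_mul_le _ _).trans ?_
    refine (Polynomial.natDegree_prod_le _ _).trans ?_
    have h1 : ∀ i, (Polynomial.C (M₀ (σ i) i) + Polynomial.X * Polynomial.C (M₁ (σ i) i)).natDegree
        ≤ (if P (σ i) then 1 else 0) + (if P i then 1 else 0) := by
      intro i
      by_cases h1 : P (σ i)
      · rw [if_pos h1]
        refine le_trans ?_ (Nat.le_add_right 1 _)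
        refine (Polynomial.natDegree_add_le _ _).trans (max_le ?_ ?_)
        · rw [Polynomial.natDegree_C]; omega
        · rw [mul_comm]
          exact (Polynomial.natDegree_C_mul_le _ _).trans Polynomial.natDegree_X_le
      · by_cases h2 : P i
        · rw [if_pos h2]
          refine le_trans ?_ (Nat.le_add_left 1 _)
          refine (Polynomial.natDegree_add_le _ _).trans (max_le ?_ ?_)
          · rw [Polynomial.natDegree_C]; omega
          · rw [mul_comm]
            exact (Polynomial.natDegree_C_mul_le _ _).trans Polynomial.natDegree_X_le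
        · rw [h _ _ h1 h2]
          simp
    refine (Finset.sum_le_sum fun i _ => h1 i).trans ?_
    rw [Finset.sum_add_distrib]
    have h2 : ∑ i, (if P (σ i) then 1 else 0) = ∑ i, (if P i then 1 else 0) :=
      Equiv.sum_comp σ (fun i => if P i then 1 else 0)
    rw [h2, Finset.sum_boole, ← Fintype.card_subtype]
    simp
    omega
  · intro t
    rw [Matrix.det_apply', Polynomial.eval_finsetSum]
    refine Finset.sum_congr rfl fun σ _ => ?_
    rw [Polynomial.eval_mul, Polynomial.eval_prod, Polynomial.eval_C]
    congr 1
    refine Finset.prod_congr rfl fun i _ => ?_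
    simp
    ring

end Pool.Agent.helper97.GUE
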