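import Mathlib
import Pool.Agent.helper97.GUE.Herm
import Pool.Agent.helper97.GUE.Pencil
import Pool.Agent.helper33.GUECoords
import Pool.Agent.helper64.Anticoncentration
import Pool.Agent.helper75.Extend
import Pool.Agent.helper75.LargeMinor

set_option autoImplicit false
set_option linter.unusedSectionVars false
open MeasureTheory ProbabilityTheory Filter Topology
open scoped NNReal ENNReal Matrix ComplexOrder

namespace Pool.Agent.helper97.GUE

variable {κ ν : Type} [Fintype κ] [DecidableEq κ] [Fintype ν] [DecidableEq ν]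

theorem gue_congr_max (N : ℕ) (z z' : Idx ν N → ℂ) (i : ν) (p q : Fin N)
    (h : ∀ c : Idx ν N, c.1 = max p q → z c = z' c) : gue N z i p q = gue N z' i p q := by
  rcases lt_trichotomy q p with hqp | hqp | hqp
  · rw [gue_apply_lt N z i p q hqp, gue_apply_lt N z' i p q hqp]
    rw [h _ (by simp [max_eq_left hqp.le]), h _ (by simp [max_eq_left hqp.le])]
  · subst hqp
    rw [gue_apply_diag, gue_apply_diag, h _ (by simp)]
  · rw [gue_apply_gt N z i p q hqp, gue_apply_gt N z' i p q hqp]
    rw [h _ (by simp [max_eq_right hqp.le]), h _ (by simp [max_eq_right hqp.le])]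

/-- merging two coordinate vectors -/
def merge {R : Type*} {N : ℕ} (N' : ℕ) (x y : Idx ν N → R) (c : Idx ν N) : R :=
  if (c.1 : ℕ) < N' then x c else y c

theorem gue_add_smul (N : ℕ) (z z' : Idx ν N → ℂ) (t : ℂ) (i : ν) :
    gue N (z + t • z') i = gue N z i + t • gue N z' i := by
  unfold gue
  simp only [Pi.add_apply, Pi.smul_apply, smul_eq_mul, add_smul, Finset.sum_add_distrib,
    Finset.smul_sum, mul_smul]

theorem ksum_add_smul {ι : Type*} (a : ν → Matrix κ κ ℂ) (X Y : ν → Matrix ι ι ℂ) (t : ℂ) :
    ksum a (fun i => X i + t • Y i) = ksum a X + t • ksum a Y := by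
  ext x y
  simp only [ksum_apply, Matrix.add_apply, Matrix.smul_apply, smul_eq_mul, mul_add,
    Finset.sum_add_distrib, Finset.mul_sum]
  congr 1
  refine Finset.sum_congr rfl fun i _ => ?_
  ring

/-- the determinant as a function of the fresh coordinates -/
noncomputable def Qf (a : ν → Matrix κ κ ℂ) (N N' : ℕ) (x : Idx ν N → ℝ) (y : Idx ν N → ℂ) : ℂ :=
  (ksum a (gue N (merge N' (fun c => (x c : ℂ)) y))).det

theorem Qf_deg (a : ν → Matrix κ κ ℂ) (N N' p : ℕ) (hN : N = N' + p) (x : Idx ν N → ℝ)
    (y y' : Idx ν N → ℂ) : ∃ P : Polynomial ℂ, P.natDegree ≤ 2 * (Fintype.card κ * p) ∧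
      ∀ t : ℂ, Qf a N N' x (y + t • y') = P.eval t := by
  obtain ⟨P, hP1, hP2⟩ := det_pencil (ksum a (gue N (merge N' (fun c => (x c : ℂ)) y)))
    (ksum a (gue N (merge N' 0 y'))) (fun w => N' ≤ (w.2 : ℕ)) (by
      intro w w' hw hw'
      push Not at hw hw'
      rw [ksum_apply]
      apply Finset.sum_eq_zero
      intro i _
      have : gue N (merge N' 0 y') i w.2 w'.2 = gue N 0 i w.2 w'.2 := by
        apply gue_congr_max
        intro c hc
        have hlt : (c.1 : ℕ) < N' := by
          rw [hc]
          rcases max_choice w.2 w'.2 with h | h <;> rw [h] <;> assumption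
        simp [merge, hlt]
      rw [this]
      have h0 : gue N (0 : Idx ν N → ℂ) i = 0 := by
        unfold gue; simp
      rw [h0]
      simp)
  refine ⟨P, hP1.trans ?_, ?_⟩
  · apply Nat.mul_le_mul_left
    have h1 : Fintype.card {w : κ × Fin N // N' ≤ (w.2 : ℕ)} ≤ Fintype.card (κ × Fin p) := by
      apply Fintype.card_le_of_injective (fun w => (w.1.1, (⟨(w.1.2 : ℕ) - N', by
        have h1 := w.1.2.isLt
        have h2 := w.2
        omega⟩ : Fin p)))
      rintro ⟨⟨w1, w2⟩, hw⟩ ⟨⟨w1', w2'⟩, hw'⟩ heq
      simp only [Prod.mk.injEq, Fin.mk.injEq] at heq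
      simp only at hw hw'
      obtain ⟨h1, h2⟩ := heq
      subst h1
      have : w2 = w2' := by
        apply Fin.ext; omega
      subst this
      rfl
    rw [Fintype.card_prod, Fintype.card_fin] at h1
    exact h1
  · intro t
    rw [← hP2 t]
    unfold Qf
    congr 1
    rw [← ksum_add_smul]
    congr 1
    ext1 i
    rw [← gue_add_smul]
    congr 2
    ext c
    simp only [merge, Pi.add_apply, Pi.smul_apply, Pi.zero_apply]
    split_ifs <;> simp

theorem continuous_gue (N : ℕ) (i : ν) : Continuous (fun z : Idx ν N → ℂ => gue N z i) := by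
  unfold gue
  refine continuous_finsetSum _ fun j _ => continuous_finsetSum _ fun k _ =>
    continuous_finsetSum _ fun b _ => ?_
  exact (continuous_apply _).smul continuous_const

theorem continuous_ksum {ι : Type*} {T : Type*} [TopologicalSpace T] (a : ν → Matrix κ κ ℂ)
    (X : T → ν → Matrix ι ι ℂ) (hX : ∀ i, Continuous fun t => X t i) :
    Continuous (fun t => ksum a (X t)) := by
  apply continuous_matrix
  intro x y
  simp only [ksum_apply]
  refine continuous_finsetSum _ fun i _ => continuous_const.mul ?_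
  exact Continuous.matrix_elem (hX i) _ _

theorem Qf_continuous (a : ν → Matrix κ κ ℂ) (N N' : ℕ) (x : Idx ν N → ℝ) :
    Continuous (Qf a N N' x) := by
  unfold Qf
  apply Continuous.matrix_det
  apply continuous_ksum a (fun y => gue N (merge N' (fun c => (x c : ℂ)) y))
  intro i
  have h : Continuous (fun y : Idx ν N → ℂ => merge N' (fun c => (x c : ℂ)) y) := by
    rw [continuous_pi_iff]
    intro c
    unfold merge
    split_ifs
    · exact continuous_const
    · exact continuous_apply c
  exact (continuous_gue N i).comp h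

end Pool.Agent.helper97.GUE
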