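import Mathlib
import Pool.Agent.helper97.GUE.Fiber1

set_option autoImplicit false
set_option linter.unusedSectionVars false
open MeasureTheory ProbabilityTheory Filter Topology
open scoped NNReal ENNReal Matrix ComplexOrder

namespace Pool.Agent.helper97.GUE

variable {κ ν : Type} [Fintype κ] [DecidableEq κ] [Fintype ν] [DecidableEq ν]

theorem exists_point (a : ν → Matrix κ κ ℂ) (K : ℕ) (c C : ℝ) (hc : 0 < c) (hC : 0 < C)
    (hext : ∀ (q : ℕ) (ι : Type) [Fintype ι] [DecidableEq ι]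
      (X : ν → Matrix ι ι ℂ) (R S : Finset (κ × ι)) (e : R ≃ S),
      Fintype.card (κ × ι) ≤ R.card + q →
      ∃ X' : ν → Matrix (ι ⊕ Fin (K * q)) (ι ⊕ Fin (K * q)) ℂ,
        (∀ i, (X' i).toBlocks₁₁ = X i) ∧
        (∀ i x y, (x.isRight ∨ y.isRight) → ‖X' i x y‖ ≤ C) ∧
        c ^ q * ‖(Matrix.of fun (i j : R) => ksum a X i (e j)).det‖ ≤ ‖(ksum a X').det‖)
    (N' q N : ℕ) (hN' : 0 < N') (hN : N = N' + K * q) (h : N' ≤ N) (x : Idx ν N → ℝ) (s : ℝ)
    (hs : 0 < s) (hs1 : s ≤ 1)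
    (hCf : 2 * Cf (ksum a (gue N' (fun c => (x (emb h c) : ℂ)))) s ≤ q) :
    ∃ z : Idx ν N → ℂ, (∀ k, ‖z k‖ ≤ Real.sqrt (2 * N) * (2 * C)) ∧
      c ^ (2 * q) * ((N' : ℝ) / N) ^ (Fintype.card κ * N') *
          Hf (ksum a (gue N' (fun c => (x (emb h c) : ℂ)))) s
        ≤ 4 * ((Fintype.card κ * N' : ℕ) + 1 : ℝ) ^ (2 * q + 2) * ‖Qf a N N' x z‖ ^ 2 := by
  set B₀ := ksum a (gue N' (fun c => (x (emb h c) : ℂ))) with hB₀
  obtain ⟨R, S, hRS, hcard, e, hle⟩ := Pool.Agent.helper75.LargeMinor.exists_large_minor B₀ s hs hs1 q hCf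
  have hN0 : (0 : ℝ) < N := by exact_mod_cast lt_of_lt_of_le hN' h
  have hN'0 : (0 : ℝ) < N' := by exact_mod_cast hN'
  set θ : ℝ := Real.sqrt (N' / N) with hθ
  have hθ0 : 0 < θ := Real.sqrt_pos.mpr (by positivity)
  have hθ2 : θ ^ 2 = (N' : ℝ) / N := Real.sq_sqrt (by positivity)
  set X : ν → Matrix (Fin N') (Fin N') ℂ := fun i => (θ : ℂ) • gue N' (fun c => (x (emb h c) : ℂ)) i with hX
  have hkX : ksum a X = (θ : ℂ) • B₀ := by
    ext w w'
    rw [hB₀, Matrix.smul_apply, ksum_apply, ksum_apply, smul_eq_mul, Finset.mul_sum]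
    refine Finset.sum_congr rfl fun i _ => ?_
    simp only [hX, Matrix.smul_apply, smul_eq_mul]
    ring
  obtain ⟨X', h11, hbd, hdet⟩ := hext q (Fin N') X R S e hcard
  set e' : Fin N' ⊕ Fin (K * q) ≃ Fin N := finSumFinEquiv.trans (finCongr hN.symm) with he'
  have he'l : ∀ p : Fin N', e'.symm (Fin.castLE h p) = Sum.inl p := by
    intro p
    rw [Equiv.symm_apply_eq]
    apply Fin.ext
    simp [he']
  have he'r : ∀ p : Fin N, N' ≤ (p : ℕ) → (e'.symm p).isRight := by
    intro p hp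
    obtain ⟨w, hw⟩ := e'.surjective p
    rw [← hw, Equiv.symm_apply_apply]
    rcases w with w | w
    · exfalso
      have : (p : ℕ) = w := by rw [← hw]; simp [he']
      have := w.isLt
      omega
    · rfl
  set Y : ν → Matrix (Fin N) (Fin N) ℂ := fun i => (X' i).submatrix e'.symm e'.symm with hY
  obtain ⟨z₁, hz, hzb⟩ := exists_coords Y
  set z : Idx ν N → ℂ := fun c => if (c.1 : ℕ) < N' then 0 else z₁ c with hzdef
  have hgue : gue N (merge N' (fun c => (x c : ℂ)) z) = Y := by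
    ext1 i
    ext p r
    by_cases hpr : ((max p r : Fin N) : ℕ) < N'
    · have hp : (p : ℕ) < N' := lt_of_le_of_lt (by exact_mod_cast le_max_left p r) hpr
      have hr : (r : ℕ) < N' := lt_of_le_of_lt (by exact_mod_cast le_max_right p r) hpr
      have e1 : gue N (merge N' (fun c => (x c : ℂ)) z) i p r = gue N (fun c => (x c : ℂ)) i p r := by
        apply gue_congr_max
        intro c hc
        have : (c.1 : ℕ) < N' := by rw [hc]; exact hpr
        simp [merge, this]
      rw [e1]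
      have ep : p = Fin.castLE h ⟨p, hp⟩ := by ext; rfl
      have er : r = Fin.castLE h ⟨r, hr⟩ := by ext; rfl
      rw [ep, er, gue_leading hN' h]
      simp only [hY, Matrix.submatrix_apply]
      rw [he'l, he'l]
      have := congrFun (congrFun (h11 i) ⟨p, hp⟩) ⟨r, hr⟩
      simp only [Matrix.toBlocks₁₁, Matrix.of_apply] at this
      rw [this]
      simp only [hX, Matrix.smul_apply, smul_eq_mul]
      rfl
    · rw [← hz i]
      apply gue_congr_max
      intro c hc
      have : ¬ (c.1 : ℕ) < N' := by rw [hc]; exact hpr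
      simp [merge, hzdef, this]
  refine ⟨z, ?_, ?_⟩
  · intro k
    simp only [hzdef]
    split_ifs with hk
    · simp; positivity
    · push Not at hk
      obtain ⟨j, i, k', b⟩ := k
      refine (hzb j k' i b).trans ?_
      apply mul_le_mul_of_nonneg_left _ (Real.sqrt_nonneg _)
      have h1 : ‖Y i j k'‖ ≤ C := hbd i _ _ (Or.inl (he'r j hk))
      have h2 : ‖Y i k' j‖ ≤ C := hbd i _ _ (Or.inr (he'r j hk))
      linarith
  · have hQ : Qf a N N' x z = (ksum a X').det := by
      unfold Qf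
      rw [hgue]
      have : ksum a Y = (ksum a X').submatrix (Equiv.prodCongr (Equiv.refl κ) e'.symm)
          (Equiv.prodCongr (Equiv.refl κ) e'.symm) := by
        ext w w'
        rw [Matrix.submatrix_apply, ksum_apply, ksum_apply]
        rfl
      rw [this, Matrix.det_submatrix_equiv_self]
    rw [hQ]
    have hminor : (Matrix.of fun (i j : R) => ksum a X i (e j)).det
        = (θ : ℂ) ^ R.card * (Matrix.of fun (i j : R) => B₀ i (e j)).det := by
      have : (Matrix.of fun (i j : R) => ksum a X i (e j))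
          = (θ : ℂ) • (Matrix.of fun (i j : R) => B₀ i (e j)) := by
        ext i j
        simp [hkX]
      rw [this, Matrix.det_smul]
      simp
    rw [hminor, norm_mul, norm_pow, Complex.norm_real, Real.norm_eq_abs, abs_of_pos hθ0] at hdet
    set M := ‖(Matrix.of fun (i j : R) => B₀ i (e j)).det‖ with hM
    have hM0 : 0 ≤ M := norm_nonneg _
    have hsq : c ^ (2 * q) * ((N' : ℝ) / N) ^ R.card * M ^ 2 ≤ ‖(ksum a X').det‖ ^ 2 := by
      have := pow_le_pow_left₀ (by positivity) hdet 2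
      calc c ^ (2 * q) * ((N' : ℝ) / N) ^ R.card * M ^ 2 = (c ^ q * (θ ^ R.card * M)) ^ 2 := by
            rw [← hθ2]; ring
        _ ≤ _ := this
    have hRle : R.card ≤ Fintype.card κ * N' := by
      have := R.card_le_univ
      rwa [Fintype.card_prod, Fintype.card_fin] at this
    have hratio : ((N' : ℝ) / N) ^ (Fintype.card κ * N') ≤ ((N' : ℝ) / N) ^ R.card := by
      apply pow_le_pow_of_le_one (by positivity) _ hRle
      rw [div_le_one hN0]
      exact_mod_cast h
    have hH : Hf B₀ s ≤ 4 * ((Fintype.card κ * N' : ℕ) + 1 : ℝ) ^ (2 * q + 2) * M ^ 2 := by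
      have h5 := hle
      rw [Fintype.card_prod, Fintype.card_fin] at h5
      unfold Hf
      exact_mod_cast h5
    have hHpos := (Hf_pos B₀ s hs.ne').le
    calc c ^ (2 * q) * ((N' : ℝ) / N) ^ (Fintype.card κ * N') * Hf B₀ s
        ≤ c ^ (2 * q) * ((N' : ℝ) / N) ^ R.card * (4 * ((Fintype.card κ * N' : ℕ) + 1 : ℝ) ^ (2 * q + 2) * M ^ 2) := by
          gcongr
      _ = 4 * ((Fintype.card κ * N' : ℕ) + 1 : ℝ) ^ (2 * q + 2) * (c ^ (2 * q) * ((N' : ℝ) / N) ^ R.card * M ^ 2) := by ring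
      _ ≤ _ := mul_le_mul_of_nonneg_left hsq (by positivity)

end Pool.Agent.helper97.GUE
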