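import Mathlib
import Pool.Agent.helper97.GUE.Fiber2

set_option autoImplicit false
set_option linter.unusedSectionVars false
open MeasureTheory ProbabilityTheory Filter Topology
open scoped NNReal ENNReal Matrix ComplexOrder

namespace Pool.Agent.helper97.GUE

/-- number of repair steps -/
noncomputable def qN (m : ℕ) (N : ℕ) : ℕ := ⌈12 * (m : ℝ) * (N : ℝ) ^ (7 / 8 : ℝ)⌉₊

theorem qN_le (m N : ℕ) (hN : 0 < N) : (qN m N : ℝ) ≤ (12 * m + 1) * (N : ℝ) ^ (7 / 8 : ℝ) := by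
  have h1 : (1 : ℝ) ≤ (N : ℝ) ^ (7 / 8 : ℝ) := Real.one_le_rpow (by exact_mod_cast hN) (by norm_num)
  have h2 := Nat.ceil_lt_add_one (show 0 ≤ 12 * (m : ℝ) * (N : ℝ) ^ (7 / 8 : ℝ) by positivity)
  unfold qN
  nlinarith

theorem le_qN (m N : ℕ) : 12 * (m : ℝ) * (N : ℝ) ^ (7 / 8 : ℝ) ≤ qN m N := Nat.le_ceil _

theorem qN_pos (m N : ℕ) (hm : 0 < m) (hN : 0 < N) : 0 < qN m N := by
  have h1 : (1 : ℝ) ≤ (N : ℝ) ^ (7 / 8 : ℝ) := Real.one_le_rpow (by exact_mod_cast hN) (by norm_num)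
  have h2 := le_qN m N
  have hm' : (1 : ℝ) ≤ m := by exact_mod_cast hm
  have : (0 : ℝ) < qN m N := by nlinarith
  exact_mod_cast this

/-- all the error terms are `o(N)` -/
theorem numeric (m K v : ℕ) (hm : 0 < m) (c C Ca : ℝ) (hc : 0 < c) (hC : 0 < C)
    (hCa : 0 < Ca) (δ : ℝ) (hδ : 0 < δ) :
    ∀ᶠ N : ℕ in atTop, 2 * (K * qN m N) ≤ N ∧
      ∀ N' : ℕ, 0 < N' → N = N' + K * qN m N →
      2 * (qN m N) * |Real.log c| + m * N' * Real.log (N / N') + Real.log 4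
        + (2 * qN m N + 2) * Real.log (m * N' + 1)
        + 2 * ((2 * (m * (K * qN m N)) : ℕ) : ℝ) *
          Real.log ((N : ℝ) ^ 2 * (Ca * ((2 * (m * (K * qN m N)) : ℕ) : ℝ) ^ 2 *
            ((2 * v * N ^ 2 : ℕ) + ((2 * v * N ^ 2 : ℕ) * (8 * N * C ^ 2) + 1)) + 1)) ≤ δ * N := by
  set Q₀ : ℝ := 12 * m + 1 with hQ₀
  have hQ₀0 : 0 < Q₀ := by positivity
  set D₁ : ℝ := 2 * m * K * Q₀ with hD₁
  have hD₁0 : 0 ≤ D₁ := by positivity
  set D : ℝ := Ca * D₁ ^ 2 * (2 * v + 16 * v * C ^ 2 + 1) + 1 with hD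
  have hD0 : 1 ≤ D := by
    have : 0 ≤ Ca * D₁ ^ 2 * (2 * v + 16 * v * C ^ 2 + 1) := by positivity
    linarith
  have hlogD : 0 ≤ Real.log D := Real.log_nonneg hD0
  set A : ℝ := Q₀ * (2 * |Real.log c| + m * K) + 2 + 4 * Q₀ * (16 * (m + 1)) +
    4 * m * K * Q₀ * (Real.log D + 112) with hA
  have hKq : ∀ᶠ N : ℕ in atTop, 2 * K * Q₀ * (N : ℝ) ^ (7 / 8 : ℝ) ≤ 1 * N :=
    eventually_rpow_le _ _ (by norm_num) 1 one_pos
  have hAN : ∀ᶠ N : ℕ in atTop, A * (N : ℝ) ^ (15 / 16 : ℝ) ≤ δ * N :=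
    eventually_rpow_le _ _ (by norm_num) δ hδ
  filter_upwards [hKq, hAN, eventually_ge_atTop 1] with N h1 h2 hN1
  have hN0 : 0 < N := by omega
  have hN' : (0 : ℝ) < N := by exact_mod_cast hN0
  have hN1' : (1 : ℝ) ≤ N := by exact_mod_cast hN0
  have hq := qN_le m N hN0
  have hqpos : 0 < qN m N := qN_pos m N hm hN0
  have hq1 : (1 : ℝ) ≤ qN m N := by exact_mod_cast hqpos
  set q := qN m N with hqdef
  have hx0 : (0 : ℝ) < (N : ℝ) ^ (7 / 8 : ℝ) := Real.rpow_pos_of_pos hN' _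
  have hy0 : (0 : ℝ) < (N : ℝ) ^ (1 / 16 : ℝ) := Real.rpow_pos_of_pos hN' _
  have hy1 : (1 : ℝ) ≤ (N : ℝ) ^ (1 / 16 : ℝ) := Real.one_le_rpow hN1' (by norm_num)
  have hz0 : (0 : ℝ) < (N : ℝ) ^ (15 / 16 : ℝ) := Real.rpow_pos_of_pos hN' _
  have hz1 : (1 : ℝ) ≤ (N : ℝ) ^ (15 / 16 : ℝ) := Real.one_le_rpow hN1' (by norm_num)
  have hxy : (N : ℝ) ^ (7 / 8 : ℝ) * (N : ℝ) ^ (1 / 16 : ℝ) = (N : ℝ) ^ (15 / 16 : ℝ) := by
    rw [← Real.rpow_add hN']; norm_num
  have hxz : (N : ℝ) ^ (7 / 8 : ℝ) ≤ (N : ℝ) ^ (15 / 16 : ℝ) :=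
    Real.rpow_le_rpow_of_exponent_le hN1' (by norm_num)
  have hxN : (N : ℝ) ^ (7 / 8 : ℝ) ≤ N := by
    calc (N : ℝ) ^ (7 / 8 : ℝ) ≤ (N : ℝ) ^ (1 : ℝ) :=
          Real.rpow_le_rpow_of_exponent_le hN1' (by norm_num)
      _ = N := Real.rpow_one _
  set x := (N : ℝ) ^ (7 / 8 : ℝ) with hx
  set y := (N : ℝ) ^ (1 / 16 : ℝ) with hy
  set z := (N : ℝ) ^ (15 / 16 : ℝ) with hz
  have hm1 : (1 : ℝ) ≤ m := by exact_mod_cast hm
  refine ⟨?_, ?_⟩
  · have : (2 * (K * q) : ℝ) ≤ N := by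
      calc (2 * (K * q) : ℝ) ≤ 2 * (K * (Q₀ * x)) := by gcongr
        _ = 2 * K * Q₀ * x := by ring
        _ ≤ 1 * N := h1
        _ = N := one_mul _
    exact_mod_cast this
  · intro N' hN'0 hNN
    have hN'r : (0 : ℝ) < N' := by exact_mod_cast hN'0
    have hNNr : (N : ℝ) = N' + K * q := by exact_mod_cast hNN
    have hN'le : (N' : ℝ) ≤ N := by
      have : (0 : ℝ) ≤ K * q := by positivity
      linarith
    -- logarithm of N
    have hlogN : Real.log N ≤ 16 * y := by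
      have := Real.log_le_rpow_div hN'.le (show (0 : ℝ) < 1 / 16 by norm_num)
      rw [← hy] at this
      linarith
    -- term (ii)
    have t2 : m * N' * Real.log (N / N') ≤ m * K * Q₀ * z := by
      have e1 : Real.log (N / N') ≤ N / N' - 1 := Real.log_le_sub_one_of_pos (by positivity)
      have e2 : N' * Real.log (N / N') ≤ K * q := by
        calc (N' : ℝ) * Real.log (N / N') ≤ N' * (N / N' - 1) :=
              mul_le_mul_of_nonneg_left e1 hN'r.le
          _ = N - N' := by field_simp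
          _ = K * q := by rw [hNNr]; ring
      calc m * N' * Real.log (N / N') = m * (N' * Real.log (N / N')) := by ring
        _ ≤ m * (K * q) := mul_le_mul_of_nonneg_left e2 (by positivity)
        _ ≤ m * (K * (Q₀ * z)) := by
            have : (q : ℝ) ≤ Q₀ * z := hq.trans (mul_le_mul_of_nonneg_left hxz hQ₀0.le)
            gcongr
        _ = _ := by ring
    have t1 : 2 * q * |Real.log c| ≤ Q₀ * (2 * |Real.log c|) * z := by
      have : (q : ℝ) ≤ Q₀ * z := hq.trans (mul_le_mul_of_nonneg_left hxz hQ₀0.le)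
      calc 2 * q * |Real.log c| ≤ 2 * (Q₀ * z) * |Real.log c| := by gcongr
        _ = _ := by ring
    have hzz : (1 : ℝ) ≤ z := hz1
    have t3 : Real.log 4 ≤ 2 * z := by
      have e1 : Real.log 4 ≤ 2 := by
        have : Real.log 4 = 2 * Real.log 2 := by
          rw [show (4 : ℝ) = 2 ^ 2 by norm_num, Real.log_pow]; norm_num
        rw [this]
        have := Real.log_two_lt_d9
        linarith
      linarith
    have t4 : (2 * q + 2) * Real.log (m * N' + 1) ≤ 4 * Q₀ * (16 * (m + 1)) * z := by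
      have e1 : Real.log (m * N' + 1) ≤ 16 * (m + 1) * y := by
        have e2 : Real.log (m * N' + 1) ≤ Real.log ((m + 1) * N) := by
          apply Real.log_le_log (by positivity)
          have := mul_le_mul_of_nonneg_left hN'le (show (0 : ℝ) ≤ m by positivity)
          linarith
        have e3 : Real.log ((m + 1) * N) = Real.log (m + 1) + Real.log N :=
          Real.log_mul (by positivity) (by positivity)
        have e4 : Real.log (m + 1) ≤ m := by
          have := Real.log_le_sub_one_of_pos (x := (m : ℝ) + 1) (by positivity)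
          linarith
        have e5 : Real.log (m * N' + 1) ≤ m + 16 * y := by linarith
        have e6 : (m : ℝ) ≤ m * y := le_mul_of_one_le_right (by positivity) hy1
        have e7 : (0 : ℝ) ≤ m * y := by positivity
        linarith
      have e6 : (2 * q + 2 : ℝ) ≤ 4 * (Q₀ * x) := by linarith
      have e7 : 0 ≤ Real.log (m * N' + 1) := by
        apply Real.log_nonneg
        have : (0 : ℝ) ≤ m * N' := by positivity
        linarith
      calc (2 * q + 2) * Real.log (m * N' + 1) ≤ (4 * (Q₀ * x)) * (16 * (m + 1) * y) := by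
            apply mul_le_mul e6 e1 e7 (by positivity)
        _ = 4 * Q₀ * (16 * (m + 1)) * (x * y) := by ring
        _ = _ := by rw [hxy]
    have hd : ((2 * (m * (K * q)) : ℕ) : ℝ) ≤ D₁ * x := by
      push_cast
      calc (2 * (m * (K * q)) : ℝ) ≤ 2 * (m * (K * (Q₀ * x))) := by gcongr
        _ = _ := by rw [hD₁]; ring
    have t5 : 2 * ((2 * (m * (K * q)) : ℕ) : ℝ) *
          Real.log ((N : ℝ) ^ 2 * (Ca * ((2 * (m * (K * q)) : ℕ) : ℝ) ^ 2 *
            ((2 * v * N ^ 2 : ℕ) + ((2 * v * N ^ 2 : ℕ) * (8 * N * C ^ 2) + 1)) + 1))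
        ≤ 4 * m * K * Q₀ * (Real.log D + 112) * z := by
      have e1 : (N : ℝ) ^ 2 * (Ca * ((2 * (m * (K * q)) : ℕ) : ℝ) ^ 2 *
            ((2 * v * N ^ 2 : ℕ) + ((2 * v * N ^ 2 : ℕ) * (8 * N * C ^ 2) + 1)) + 1)
          ≤ D * (N : ℝ) ^ 7 := by
        have f1 : ((2 * (m * (K * q)) : ℕ) : ℝ) ^ 2 ≤ (D₁ * N) ^ 2 := by
          apply pow_le_pow_left₀ (Nat.cast_nonneg _)
          exact hd.trans (mul_le_mul_of_nonneg_left hxN hD₁0)
        have f2 : ((2 * v * N ^ 2 : ℕ) : ℝ) + ((2 * v * N ^ 2 : ℕ) * (8 * N * C ^ 2) + 1)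
            ≤ (2 * v + 16 * v * C ^ 2 + 1) * (N : ℝ) ^ 3 := by
          push_cast
          have g1 : (N : ℝ) ^ 2 ≤ (N : ℝ) ^ 3 := pow_le_pow_right₀ hN1' (by norm_num)
          have g2 : (1 : ℝ) ≤ (N : ℝ) ^ 3 := one_le_pow₀ hN1'
          have g3 : (0 : ℝ) ≤ 2 * v := by positivity
          have g4 := mul_le_mul_of_nonneg_left g1 g3
          calc 2 * (v : ℝ) * (N : ℝ) ^ 2 + (2 * v * (N : ℝ) ^ 2 * (8 * N * C ^ 2) + 1)
              = 2 * (v : ℝ) * (N : ℝ) ^ 2 + 16 * v * C ^ 2 * (N : ℝ) ^ 3 + 1 := by ring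
            _ ≤ 2 * (v : ℝ) * (N : ℝ) ^ 3 + 16 * v * C ^ 2 * (N : ℝ) ^ 3 + (N : ℝ) ^ 3 := by linarith
            _ = _ := by ring
        have f3 : (0 : ℝ) ≤ ((2 * v * N ^ 2 : ℕ) : ℝ) + ((2 * v * N ^ 2 : ℕ) * (8 * N * C ^ 2) + 1) := by
          positivity
        calc _ ≤ (N : ℝ) ^ 2 * (Ca * (D₁ * N) ^ 2 * ((2 * v + 16 * v * C ^ 2 + 1) * (N : ℝ) ^ 3) + (N : ℝ) ^ 5) := by
              have g5 : (1 : ℝ) ≤ (N : ℝ) ^ 5 := one_le_pow₀ hN1'
              gcongr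
          _ = D * (N : ℝ) ^ 7 := by rw [hD]; ring
      have e2 : 0 < (N : ℝ) ^ 2 * (Ca * ((2 * (m * (K * q)) : ℕ) : ℝ) ^ 2 *
            ((2 * v * N ^ 2 : ℕ) + ((2 * v * N ^ 2 : ℕ) * (8 * N * C ^ 2) + 1)) + 1) := by
        positivity
      have e3 := Real.log_le_log e2 e1
      have e3' : Real.log (D * (N : ℝ) ^ 7) = Real.log D + 7 * Real.log N := by
        rw [Real.log_mul (by positivity) (by positivity), Real.log_pow]
        push_cast
        ring
      have e4 : Real.log (D * (N : ℝ) ^ 7) ≤ (Real.log D + 112) * y := by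
        rw [e3']
        have := le_mul_of_one_le_right hlogD hy1
        linarith
      have e5 : 0 ≤ (Real.log D + 112) * y := by positivity
      calc _ ≤ 2 * ((2 * (m * (K * q)) : ℕ) : ℝ) * ((Real.log D + 112) * y) :=
            mul_le_mul_of_nonneg_left (e3.trans e4) (by positivity)
        _ ≤ 2 * (D₁ * x) * ((Real.log D + 112) * y) := by gcongr
        _ = 2 * D₁ * (Real.log D + 112) * (x * y) := by ring
        _ = _ := by rw [hxy, hD₁]; ring
    calc _ ≤ Q₀ * (2 * |Real.log c|) * z + m * K * Q₀ * z + 2 * z + 4 * Q₀ * (16 * (m + 1)) * z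
          + 4 * m * K * Q₀ * (Real.log D + 112) * z :=
          add_le_add (add_le_add (add_le_add (add_le_add t1 t2) t3) t4) t5
      _ = A * z := by rw [hA]; ring
      _ ≤ δ * N := h2

end Pool.Agent.helper97.GUE
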