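import Mathlib
import Pool.Agent.helper97.GUE.Numeric
import Pool.Agent.helper75.GadgetSpan
import Pool.Agent.helper89.DetNeZero
import Pool.Agent.helper97.GUE.LawDef

set_option autoImplicit false
set_option linter.unusedSectionVars false
open MeasureTheory ProbabilityTheory Filter Topology
open scoped NNReal ENNReal Matrix ComplexOrder

namespace Pool.Agent.helper97.GUE

variable {κ ν : Type} [Fintype κ] [DecidableEq κ] [Fintype ν] [DecidableEq ν]

/-- the constants of the gadget extension -/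
theorem exists_ext [Nonempty κ] (a : ν → Matrix κ κ ℂ) (ha : Irr a)
    (h1 : ∑ i, a i * (a i)ᴴ = 1) (h2 : ∑ i, (a i)ᴴ * a i = 1) :
    ∃ (K : ℕ) (c C : ℝ), 0 < K ∧ 0 < c ∧ 0 < C ∧
      ∀ (q : ℕ) (ι : Type) [Fintype ι] [DecidableEq ι]
      (X : ν → Matrix ι ι ℂ) (R S : Finset (κ × ι)) (e : R ≃ S),
      Fintype.card (κ × ι) ≤ R.card + q →
      ∃ X' : ν → Matrix (ι ⊕ Fin (K * q)) (ι ⊕ Fin (K * q)) ℂ,
        (∀ i, (X' i).toBlocks₁₁ = X i) ∧
        (∀ i x y, (x.isRight ∨ y.isRight) → ‖X' i x y‖ ≤ C) ∧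
        c ^ q * ‖(Matrix.of fun (i j : R) => ksum a X i (e j)).det‖ ≤ ‖(ksum a X').det‖ := by
  obtain ⟨N, X, hN, hX⟩ := exists_small_corank a h1 h2
  obtain ⟨Y, hY⟩ := Pool.Agent.helper89.QT.exists_det_ne_zero a N hN X hX
  obtain ⟨K, hK, hspan⟩ := Pool.Agent.helper75.GadgetSpan.gadget_span a ha N hN Y hY
  obtain ⟨c, C, hc, hC, hext⟩ := Pool.Agent.helper75.Extend.extend a K hK hspan
  exact ⟨K, c, C, hK, hc, hC, hext⟩

/-- conditional estimate: given a good leading block, the determinant is rarely small -/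
theorem fiber_bound [Nonempty κ] (a : ν → Matrix κ κ ℂ) (K : ℕ) (c C Ca : ℝ) (hK : 0 < K)
    (hc : 0 < c) (hC : 0 < C) (hCa0 : 0 < Ca)
    (hext : ∀ (q : ℕ) (ι : Type) [Fintype ι] [DecidableEq ι]
      (X : ν → Matrix ι ι ℂ) (R S : Finset (κ × ι)) (e : R ≃ S),
      Fintype.card (κ × ι) ≤ R.card + q →
      ∃ X' : ν → Matrix (ι ⊕ Fin (K * q)) (ι ⊕ Fin (K * q)) ℂ,
        (∀ i, (X' i).toBlocks₁₁ = X i) ∧
        (∀ i x y, (x.isRight ∨ y.isRight) → ‖X' i x y‖ ≤ C) ∧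
        c ^ q * ‖(Matrix.of fun (i j : R) => ksum a X i (e j)).det‖ ≤ ‖(ksum a X').det‖)
    (hanti : ∀ {κ : Type} [Fintype κ] (Q : (κ → ℂ) → ℂ) (d : ℕ) (_hd : 1 ≤ d)
      (_hQ : ∀ x y : κ → ℂ, ∃ P : Polynomial ℂ, P.natDegree ≤ d ∧
        ∀ t : ℂ, Q (x + t • y) = P.eval t)
      (_hQm : Continuous Q) (z : κ → ℂ) (_hz : Q z ≠ 0) (ρ : ℝ) (_hρ : ∑ k, ‖z k‖ ^ 2 ≤ ρ)
      (_hρ0 : 1 ≤ ρ) (η : ℝ) (_hη : 0 < η) (_hη1 : η ≤ 1),
      (Measure.pi (fun _ : κ => gaussianReal 0 1))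
        {x : κ → ℝ | ‖Q (fun k => (x k : ℂ))‖ ≤
          ‖Q z‖ * (η / (Ca * d ^ 2 * (Fintype.card κ + ρ))) ^ d}
        ≤ ENNReal.ofReal (Ca * η))
    (δ : ℝ) (N N' : ℕ) (hN' : 0 < N') (hN : N = N' + K * qN (Fintype.card κ) N) (h : N' ≤ N)
    (hnum : 2 * (qN (Fintype.card κ) N) * |Real.log c| + Fintype.card κ * N' * Real.log (N / N') + Real.log 4
        + (2 * qN (Fintype.card κ) N + 2) * Real.log (Fintype.card κ * N' + 1)
        + 2 * ((2 * (Fintype.card κ * (K * qN (Fintype.card κ) N)) : ℕ) : ℝ) *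
          Real.log ((N : ℝ) ^ 2 * (Ca * ((2 * (Fintype.card κ * (K * qN (Fintype.card κ) N)) : ℕ) : ℝ) ^ 2 *
            ((2 * Fintype.card ν * N ^ 2 : ℕ) + ((2 * Fintype.card ν * N ^ 2 : ℕ) * (8 * N * C ^ 2) + 1)) + 1)) ≤ δ * N)
    (hδ : 0 < δ) (x : Idx ν N → ℝ) (hx : (fun c => x (emb h c)) ∈ GoodA a N' δ) :
    gm ν N {y | ‖Qf a N N' x (fun k => (y k : ℂ))‖ ≤
        Real.exp (N * (-(Fintype.card κ : ℝ) / 2 - δ))} ≤ ENNReal.ofReal (Ca / (N : ℝ) ^ 2) := by
  obtain ⟨g1, -, g3⟩ := hx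
  set m := Fintype.card κ with hm
  have hm0 : 0 < m := Fintype.card_pos
  set q := qN m N with hq
  have hNpos : 0 < N := lt_of_lt_of_le hN' h
  have hN0 : (0 : ℝ) < N := by exact_mod_cast hNpos
  have hN1 : (1 : ℝ) ≤ N := by exact_mod_cast hNpos
  have hN'0 : (0 : ℝ) < N' := by exact_mod_cast hN'
  have hNN' : (N' : ℝ) ≤ N := by exact_mod_cast h
  have hqpos : 0 < q := qN_pos m N hm0 hNpos
  set B₀ := ksum a (gue N' (fun c => (x (emb h c) : ℂ))) with hB₀
  have hs := sN_pos N' hN'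
  have hs1 := sN_le_one N' hN'
  have hCf : 2 * Cf B₀ (sN N') ≤ q := by
    have e1 : (N' : ℝ) * sN N' = (N' : ℝ) ^ (7 / 8 : ℝ) := by
      unfold sN
      nth_rewrite 1 [← Real.rpow_one (N' : ℝ)]
      rw [← Real.rpow_add hN'0]
      norm_num
    have e2 : (N' : ℝ) ^ (7 / 8 : ℝ) ≤ (N : ℝ) ^ (7 / 8 : ℝ) :=
      Real.rpow_le_rpow hN'0.le hNN' (by norm_num)
    calc 2 * Cf B₀ (sN N') ≤ 2 * (6 * m * N' * sN N') := by linarith
      _ = 12 * m * (N' * sN N') := by ring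
      _ ≤ 12 * m * (N : ℝ) ^ (7 / 8 : ℝ) := by
          rw [e1]
          exact mul_le_mul_of_nonneg_left e2 (by positivity)
      _ ≤ q := le_qN m N
  obtain ⟨z, hz, hzQ⟩ := exists_point a K c C hc hC hext N' q N hN' hN h x (sN N') hs hs1 hCf
  rw [← hB₀, ← hm] at hzQ
  set Hv := Hf B₀ (sN N') with hHv
  have hHpos : 0 < Hv := Hf_pos B₀ _ hs.ne'
  set d : ℕ := 2 * (m * (K * q)) with hd
  have hd1 : 1 ≤ d := by
    have : 0 < m * (K * q) := by positivity
    omega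
  have hcard : Fintype.card (Idx ν N) = 2 * Fintype.card ν * N ^ 2 := by
    simp only [Fintype.card_prod, Fintype.card_fin, Fintype.card_bool]
    ring
  set ρ : ℝ := (2 * Fintype.card ν * N ^ 2 : ℕ) * (8 * N * C ^ 2) + 1 with hρ
  have hρ1 : 1 ≤ ρ := by
    rw [hρ]
    have : (0 : ℝ) ≤ (2 * Fintype.card ν * N ^ 2 : ℕ) * (8 * N * C ^ 2) := by positivity
    linarith
  have hρz : ∑ k, ‖z k‖ ^ 2 ≤ ρ := by
    calc ∑ k, ‖z k‖ ^ 2 ≤ ∑ _k : Idx ν N, 8 * N * C ^ 2 := by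
          refine Finset.sum_le_sum fun k _ => ?_
          calc ‖z k‖ ^ 2 ≤ (Real.sqrt (2 * N) * (2 * C)) ^ 2 :=
                pow_le_pow_left₀ (norm_nonneg _) (hz k) 2
            _ = 8 * N * C ^ 2 := by
                rw [mul_pow, Real.sq_sqrt (by positivity)]; ring
      _ = (Fintype.card (Idx ν N) : ℝ) * (8 * N * C ^ 2) := by simp
      _ ≤ ρ := by rw [hcard, hρ]; linarith
  have hzQ0 : Qf a N N' x z ≠ 0 := by
    intro h0
    rw [h0] at hzQ
    simp only [norm_zero, ne_eq, OfNat.ofNat_ne_zero, not_false_eq_true, zero_pow, mul_zero] at hzQ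
    have : 0 < c ^ (2 * q) * ((N' : ℝ) / N) ^ (m * N') * Hv := by positivity
    linarith
  have hQnorm : 0 < ‖Qf a N N' x z‖ := norm_pos_iff.mpr hzQ0
  set η : ℝ := 1 / (N : ℝ) ^ 2 with hη
  have hη0 : 0 < η := by positivity
  have hη1 : η ≤ 1 := by
    rw [hη, div_le_one (by positivity)]
    exact one_le_pow₀ hN1
  have hAC := hanti (Qf a N N' x) d hd1 (fun y y' => by
    have := Qf_deg a N N' (K * q) hN x y y'
    exact this) (Qf_continuous a N N' x) z hzQ0 ρ hρz hρ1 η hη0 hη1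
  rw [hcard] at hAC
  have hCaη : Ca * η = Ca / (N : ℝ) ^ 2 := by rw [hη]; ring
  rw [hCaη] at hAC
  refine le_trans (measure_mono ?_) hAC
  intro y hy
  simp only [Set.mem_ofPred_eq] at hy ⊢
  refine hy.trans ?_
  -- the numeric inequality
  set ε₀ : ℝ := η / (Ca * d ^ 2 * ((2 * Fintype.card ν * N ^ 2 : ℕ) + ρ)) with hε₀
  set W : ℝ := (N : ℝ) ^ 2 * (Ca * (d : ℝ) ^ 2 * ((2 * Fintype.card ν * N ^ 2 : ℕ) + ρ) + 1) with hW
  have hd0 : (0 : ℝ) < d := by exact_mod_cast hd1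
  have hWpos : 0 < W := by positivity
  have hε₀W : W⁻¹ ≤ ε₀ := by
    rw [hε₀, hη, div_div]
    rw [← one_div]
    apply one_div_le_one_div_of_le (by positivity)
    rw [hW]
    apply mul_le_mul_of_nonneg_left _ (by positivity)
    linarith
  have hε₀pos : 0 < ε₀ := lt_of_lt_of_le (inv_pos.mpr hWpos) hε₀W
  have hkey : Real.exp (N * (-(m : ℝ) / 2 - δ)) ≤ ‖Qf a N N' x z‖ * (W⁻¹) ^ d := by
    have hpos2 : 0 < ‖Qf a N N' x z‖ * (W⁻¹) ^ d := by positivity
    rw [← Real.le_log_iff_exp_le hpos2]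
    have e1 : Real.log (‖Qf a N N' x z‖ * (W⁻¹) ^ d) = Real.log ‖Qf a N N' x z‖ - d * Real.log W := by
      rw [Real.log_mul hQnorm.ne' (by positivity), Real.log_pow, Real.log_inv]
      ring
    rw [e1]
    have e2 := Real.log_le_log (by positivity) hzQ
    have e3 : Real.log (c ^ (2 * q) * ((N' : ℝ) / N) ^ (m * N') * Hv)
        = 2 * q * Real.log c + m * N' * Real.log (N' / N) + Real.log Hv := by
      rw [Real.log_mul (by positivity) hHpos.ne', Real.log_mul (by positivity) (by positivity),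
        Real.log_pow, Real.log_pow]
      push_cast
      ring
    have e4 : Real.log (4 * ((m * N' : ℕ) + 1 : ℝ) ^ (2 * q + 2) * ‖Qf a N N' x z‖ ^ 2)
        = Real.log 4 + (2 * q + 2) * Real.log (m * N' + 1) + 2 * Real.log ‖Qf a N N' x z‖ := by
      rw [Real.log_mul (by positivity) (by positivity), Real.log_mul (by norm_num) (by positivity),
        Real.log_pow, Real.log_pow]
      push_cast
      ring
    rw [e3, e4] at e2
    have e5 : Real.log ((N' : ℝ) / N) = - Real.log (N / N') := by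
      rw [← Real.log_inv, inv_div]
    have e6 : (N' : ℝ) * (-(m : ℝ) - δ) ≤ Real.log Hv := by
      rw [Real.le_log_iff_exp_le hHpos]; exact g1
    have e7 : (N : ℝ) * (-(m : ℝ) - δ) ≤ (N' : ℝ) * (-(m : ℝ) - δ) := by
      have : 0 ≤ (N - N' : ℝ) * (m + δ) := by
        apply mul_nonneg (by linarith) (by positivity)
      linarith
    have e8 : -(2 * q * |Real.log c|) ≤ 2 * q * Real.log c := by
      have := neg_abs_le (Real.log c)
      have h9 : (0 : ℝ) ≤ 2 * q := by positivity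
      have := mul_le_mul_of_nonneg_left this h9
      linarith
    rw [e5] at e2
    linarith
  refine hkey.trans ?_
  apply mul_le_mul_of_nonneg_left _ hQnorm.le
  exact pow_le_pow_left₀ (inv_nonneg.mpr hWpos.le) hε₀W d

theorem continuous_det_ksum (a : ν → Matrix κ κ ℂ) (N : ℕ) :
    Continuous (fun ξ : Idx ν N → ℝ => (ksum a (gue N (fun c => (ξ c : ℂ)))).det) :=
  (continuous_Smat a N).matrix_det

/-- lower tail for doubly stochastic irreducible families -/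
theorem lower_tail [Nonempty κ] (a : ν → Matrix κ κ ℂ) (ha : Irr a)
    (h1 : ∑ i, a i * (a i)ᴴ = 1) (h2 : ∑ i, (a i)ᴴ * a i = 1) (δ : ℝ) (hδ : 0 < δ) :
    ∃ C : ℝ, 0 < C ∧ ∀ᶠ N : ℕ in atTop,
      gm ν N {ξ | ‖(ksum a (gue N (fun c => (ξ c : ℂ)))).det‖ ≤
        Real.exp (N * (-(Fintype.card κ : ℝ) / 2 - δ))} ≤ ENNReal.ofReal (C / (N : ℝ) ^ 2) := by
  obtain ⟨K, c, C, hK, hc, hC, hext⟩ := exists_ext a ha h1 h2
  obtain ⟨Ca, hCa0, hanti⟩ := Pool.Agent.helper64.Anti.anticoncentration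
  obtain ⟨Cg, hCg, hgood⟩ := goodA_event a h1 h2 δ hδ
  have hm : 0 < Fintype.card κ := Fintype.card_pos
  refine ⟨4 * Cg + Ca, by positivity, ?_⟩
  have hnum := numeric (Fintype.card κ) K (Fintype.card ν) hm c C Ca hc hC hCa0 δ hδ
  -- the size of the leading block tends to infinity
  have htend : Tendsto (fun N : ℕ => N - K * qN (Fintype.card κ) N) atTop atTop := by
    have h3 : ∀ᶠ N : ℕ in atTop, N / 2 ≤ N - K * qN (Fintype.card κ) N := by
      filter_upwards [hnum] with N hN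
      have := hN.1
      omega
    exact tendsto_atTop_mono' _ h3 (Nat.tendsto_div_const_atTop two_ne_zero)
  filter_upwards [hnum, htend.eventually hgood, eventually_ge_atTop 2] with N hN hNgood hN2
  obtain ⟨hN3, hN4⟩ := hN
  set q := qN (Fintype.card κ) N with hq
  set N' := N - K * q with hN'def
  have hN' : 0 < N' := by omega
  have hNN : N = N' + K * q := by omega
  have h : N' ≤ N := by omega
  have hnum2 := hN4 N' hN' hNN
  have hN0 : (0 : ℝ) < N := by exact_mod_cast (by omega : 0 < N)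
  have hN'0 : (0 : ℝ) < N' := by exact_mod_cast hN'
  set E : Set (Idx ν N → ℝ) := {ξ | ‖(ksum a (gue N (fun c => (ξ c : ℂ)))).det‖ ≤
        Real.exp (N * (-(Fintype.card κ : ℝ) / 2 - δ))} with hE
  have hEm : MeasurableSet E :=
    (isClosed_le (continuous_det_ksum a N).norm continuous_const).measurableSet
  have hmp := measurePreserving_merge (ν := ν) N N'
  have hmr := measurePreserving_restrict (ν := ν) h
  set T : (Idx ν N → ℝ) × (Idx ν N → ℝ) → (Idx ν N → ℝ) :=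
    fun p c => if (c.1 : ℕ) < N' then p.1 c else p.2 c with hT
  have hTm : MeasurableSet (T ⁻¹' E) := hmp.measurable hEm
  have hEprod : gm ν N E = ∫⁻ x, gm ν N (Prod.mk x ⁻¹' (T ⁻¹' E)) ∂(gm ν N) := by
    rw [← hmp.measure_preimage hEm.nullMeasurableSet, Measure.prod_apply hTm]
  -- the bad set for the leading block
  set M := toMeasurable (gm ν N') (GoodA a N' δ)ᶜ with hM
  have hMm : MeasurableSet M := measurableSet_toMeasurable _ _
  set M' := (fun (ξ : Idx ν N → ℝ) (c : Idx ν N') => ξ (emb h c)) ⁻¹' M with hM'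
  have hM'm : MeasurableSet M' := hmr.measurable hMm
  have hM'le : gm ν N M' ≤ ENNReal.ofReal (4 * Cg / (N : ℝ) ^ 2) := by
    rw [hM', hmr.measure_preimage hMm.nullMeasurableSet, hM, measure_toMeasurable]
    refine hNgood.trans ?_
    apply ENNReal.ofReal_le_ofReal
    rw [div_le_div_iff₀ (by positivity) (by positivity)]
    have h5 : (N : ℝ) ≤ 2 * N' := by exact_mod_cast (by omega : N ≤ 2 * N')
    have h6 : (N : ℝ) ^ 2 ≤ (2 * N') ^ 2 := pow_le_pow_left₀ hN0.le h5 2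
    calc Cg * (N : ℝ) ^ 2 ≤ Cg * (2 * N') ^ 2 := mul_le_mul_of_nonneg_left h6 hCg.le
      _ = 4 * Cg * (N' : ℝ) ^ 2 := by ring
  have hfib : ∀ x : Idx ν N → ℝ, gm ν N (Prod.mk x ⁻¹' (T ⁻¹' E))
      ≤ M'.indicator (fun _ => (1 : ℝ≥0∞)) x + ENNReal.ofReal (Ca / (N : ℝ) ^ 2) := by
    intro x
    by_cases hx : x ∈ M'
    · rw [Set.indicator_of_mem hx]
      exact le_trans prob_le_one (le_add_right le_rfl)
    · rw [Set.indicator_of_notMem hx, zero_add]
      have hxg : (fun c => x (emb h c)) ∈ GoodA a N' δ := by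
        by_contra hcon
        exact hx (subset_toMeasurable _ _ hcon)
      have hfb := fiber_bound a K c C Ca hK hc hC hCa0 hext hanti δ N N' hN' hNN h hnum2 hδ x hxg
      refine le_trans (measure_mono ?_) hfb
      intro y hy
      simp only [Set.mem_preimage, hE, hT, Set.mem_ofPred_eq] at hy ⊢
      have : Qf a N N' x (fun k => (y k : ℂ))
          = (ksum a (gue N (fun c => ((if (c.1 : ℕ) < N' then x c else y c : ℝ) : ℂ)))).det := by
        unfold Qf merge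
        congr 3
        ext c
        split_ifs <;> rfl
      rw [this]
      exact hy
  rw [hEprod]
  calc ∫⁻ x, gm ν N (Prod.mk x ⁻¹' (T ⁻¹' E)) ∂(gm ν N)
      ≤ ∫⁻ x, (M'.indicator (fun _ => (1 : ℝ≥0∞)) x + ENNReal.ofReal (Ca / (N : ℝ) ^ 2)) ∂(gm ν N) :=
        lintegral_mono hfib
    _ = gm ν N M' + ENNReal.ofReal (Ca / (N : ℝ) ^ 2) := by
        rw [lintegral_add_right _ measurable_const, lintegral_const, measure_univ, mul_one,
          lintegral_indicator_const hM'm, one_mul]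
    _ ≤ ENNReal.ofReal (4 * Cg / (N : ℝ) ^ 2) + ENNReal.ofReal (Ca / (N : ℝ) ^ 2) :=
        add_le_add hM'le le_rfl
    _ = _ := by
        rw [← ENNReal.ofReal_add (by positivity) (by positivity)]
        congr 1
        ring

/-- upper tail for doubly stochastic families -/
theorem upper_tail [Nonempty κ] (a : ν → Matrix κ κ ℂ)
    (h1 : ∑ i, a i * (a i)ᴴ = 1) (h2 : ∑ i, (a i)ᴴ * a i = 1) (δ : ℝ) (hδ : 0 < δ) :
    ∃ C : ℝ, 0 < C ∧ ∀ᶠ N : ℕ in atTop,
      gm ν N {ξ | Real.exp (N * (-(Fintype.card κ : ℝ) / 2 + δ)) <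
        ‖(ksum a (gue N (fun c => (ξ c : ℂ)))).det‖} ≤ ENNReal.ofReal (C / (N : ℝ) ^ 2) := by
  obtain ⟨Cg, hCg, hgood⟩ := goodA_event a h1 h2 δ hδ
  refine ⟨Cg, hCg, ?_⟩
  filter_upwards [hgood] with N hN
  refine le_trans (measure_mono ?_) hN
  intro ξ hξ hg
  obtain ⟨-, g2, -⟩ := hg
  simp only [Set.mem_ofPred_eq] at hξ
  have h3 := norm_det_sq_le (ksum a (gue N (fun c => (ξ c : ℂ)))) (sN N)
  have h4 : ‖(ksum a (gue N (fun c => (ξ c : ℂ)))).det‖ ^ 2
      ≤ Real.exp (N * (-(Fintype.card κ : ℝ) / 2 + δ / 2)) ^ 2 := by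
    refine (h3.trans g2).trans (le_of_eq ?_)
    rw [← Real.exp_nat_mul]
    congr 1
    push_cast
    ring
  have h5 := (pow_le_pow_iff_left₀ (norm_nonneg _) (Real.exp_pos _).le two_ne_zero).mp h4
  have h6 : Real.exp (N * (-(Fintype.card κ : ℝ) / 2 + δ / 2))
      ≤ Real.exp (N * (-(Fintype.card κ : ℝ) / 2 + δ)) := by
    apply Real.exp_le_exp.mpr
    have : (0 : ℝ) ≤ N := Nat.cast_nonneg _
    nlinarith
  linarith

/-- the law-level statement for doubly stochastic irreducible families -/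
theorem law_ds [Nonempty κ] (a : ν → Matrix κ κ ℂ) (ha : Irr a)
    (h1 : ∑ i, a i * (a i)ᴴ = 1) (h2 : ∑ i, (a i)ᴴ * a i = 1) :
    LawT a (-(Fintype.card κ : ℝ) / 2) := by
  intro δ hδ
  obtain ⟨C1, hC1, hl⟩ := lower_tail a ha h1 h2 δ hδ
  obtain ⟨C2, hC2, hu⟩ := upper_tail a h1 h2 δ hδ
  refine ⟨C1 + C2, ?_⟩
  filter_upwards [hl, hu, eventually_ge_atTop 1] with N hNl hNu hN1
  have hN0 : (0 : ℝ) < N := by exact_mod_cast (by omega : 0 < N)
  calc _ ≤ gm ν N ({ξ | ‖(ksum a (gue N (fun c => (ξ c : ℂ)))).det‖ ≤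
        Real.exp (N * (-(Fintype.card κ : ℝ) / 2 - δ))} ∪
        {ξ | Real.exp (N * (-(Fintype.card κ : ℝ) / 2 + δ)) <
        ‖(ksum a (gue N (fun c => (ξ c : ℂ)))).det‖}) := by
        apply measure_mono
        intro ξ hξ
        simp only [Set.mem_ofPred_eq, Set.mem_union] at hξ ⊢
        by_contra hcon
        push Not at hcon
        exact hξ ⟨hcon.1.le, hcon.2⟩
    _ ≤ ENNReal.ofReal (C1 / (N : ℝ) ^ 2) + ENNReal.ofReal (C2 / (N : ℝ) ^ 2) :=
        (measure_union_le _ _).trans (add_le_add hNl hNu)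
    _ = _ := by
        rw [← ENNReal.ofReal_add (by positivity) (by positivity)]
        congr 1
        ring

end Pool.Agent.helper97.GUE
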