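import Mathlib
import Pool.Agent.helper97.GUE.Alg
import Pool.Agent.helper97.GUE.LawDS

set_option autoImplicit false
set_option linter.unusedSectionVars false
open MeasureTheory ProbabilityTheory Filter Topology
open scoped NNReal ENNReal Matrix ComplexOrder

namespace Pool.Agent.helper97.GUE

theorem lawT_scale {κ ν : Type} [Fintype κ] [DecidableEq κ] [Fintype ν] (a : ν → Matrix κ κ ℂ)
    (p q : Matrix κ κ ℂ) (hp : IsUnit p.det) (hq : IsUnit q.det) (ℓ : ℝ)
    (h : LawT (fun i => p * a i * q) ℓ) :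
    LawT a (ℓ - Real.log ‖p.det‖ - Real.log ‖q.det‖) := by
  intro δ hδ
  obtain ⟨C, hC⟩ := h δ hδ
  refine ⟨C, ?_⟩
  filter_upwards [hC] with N hN
  refine le_trans (le_of_eq ?_) hN
  congr 1
  ext ξ
  simp only [Set.mem_ofPred_eq]
  apply not_congr
  set D := ‖(ksum a (gue N fun c => (ξ c : ℂ))).det‖ with hD
  have hp0 : 0 < ‖p.det‖ := norm_pos_iff.mpr hp.ne_zero
  have hq0 : 0 < ‖q.det‖ := norm_pos_iff.mpr hq.ne_zero
  have e1 : ‖(ksum (fun i => p * a i * q) (gue N fun c => (ξ c : ℂ))).det‖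
      = Real.exp (N * (Real.log ‖p.det‖ + Real.log ‖q.det‖)) * D := by
    rw [det_ksum_mul, norm_mul, norm_mul, norm_pow, norm_pow, Fintype.card_fin, mul_add,
      Real.exp_add, Real.exp_nat_mul, Real.exp_nat_mul, Real.exp_log hp0, Real.exp_log hq0]
  rw [e1]
  have e2 : ∀ t : ℝ, Real.exp (N * (ℓ + t)) = Real.exp (N * (Real.log ‖p.det‖ + Real.log ‖q.det‖)) *
      Real.exp (N * (ℓ - Real.log ‖p.det‖ - Real.log ‖q.det‖ + t)) := by
    intro t
    rw [← Real.exp_add]
    congr 1
    ring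
  rw [sub_eq_add_neg ℓ δ, e2, e2, sub_eq_add_neg _ δ]
  have hpos : 0 < Real.exp (N * (Real.log ‖p.det‖ + Real.log ‖q.det‖)) := Real.exp_pos _
  rw [mul_le_mul_iff_right₀ hpos, mul_le_mul_iff_right₀ hpos]

theorem lawT_reindex {κ κ' ν : Type} [Fintype κ] [DecidableEq κ] [Fintype κ'] [DecidableEq κ']
    [Fintype ν] (a : ν → Matrix κ κ ℂ) (e : κ ≃ κ') (ℓ : ℝ)
    (h : LawT (fun i => (a i).reindex e e) ℓ) : LawT a ℓ := by
  intro δ hδ
  obtain ⟨C, hC⟩ := h δ hδ
  refine ⟨C, ?_⟩
  filter_upwards [hC] with N hN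
  simp_rw [det_ksum_reindex] at hN
  exact hN

theorem lawT_blocks {κ₁ κ₂ ν : Type} [Fintype κ₁] [DecidableEq κ₁] [Fintype κ₂] [DecidableEq κ₂]
    [Fintype ν] (a : ν → Matrix κ₁ κ₁ ℂ) (b : ν → Matrix κ₁ κ₂ ℂ) (d : ν → Matrix κ₂ κ₂ ℂ)
    (ℓ₁ ℓ₂ : ℝ) (h1 : LawT a ℓ₁) (h2 : LawT d ℓ₂) :
    LawT (fun i => Matrix.fromBlocks (a i) (b i) 0 (d i)) (ℓ₁ + ℓ₂) := by
  intro δ hδ
  obtain ⟨C1, hC1⟩ := h1 (δ / 2) (by positivity)
  obtain ⟨C2, hC2⟩ := h2 (δ / 2) (by positivity)
  refine ⟨|C1| + |C2|, ?_⟩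
  filter_upwards [hC1, hC2] with N hN1 hN2
  set B1 := {ξ : Idx ν N → ℝ | ¬ (Real.exp (N * (ℓ₁ - δ / 2)) ≤ ‖(ksum a (gue N fun c => (ξ c : ℂ))).det‖ ∧
        ‖(ksum a (gue N fun c => (ξ c : ℂ))).det‖ ≤ Real.exp (N * (ℓ₁ + δ / 2)))} with hB1
  set B2 := {ξ : Idx ν N → ℝ | ¬ (Real.exp (N * (ℓ₂ - δ / 2)) ≤ ‖(ksum d (gue N fun c => (ξ c : ℂ))).det‖ ∧
        ‖(ksum d (gue N fun c => (ξ c : ℂ))).det‖ ≤ Real.exp (N * (ℓ₂ + δ / 2)))} with hB2
  calc _ ≤ (gm ν N) (B1 ∪ B2) := by
        apply measure_mono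
        intro ξ hξ
        by_contra hcon
        apply hξ
        simp only [hB1, hB2, Set.mem_union, Set.mem_ofPred_eq, not_or, not_not] at hcon
        obtain ⟨⟨g1, g2⟩, g3, g4⟩ := hcon
        rw [det_ksum_blocks, norm_mul]
        constructor
        · calc Real.exp (N * (ℓ₁ + ℓ₂ - δ)) = Real.exp (N * (ℓ₁ - δ / 2)) * Real.exp (N * (ℓ₂ - δ / 2)) := by
                rw [← Real.exp_add]; congr 1; ring
            _ ≤ _ := mul_le_mul g1 g3 (Real.exp_pos _).le (norm_nonneg _)
        · calc _ ≤ Real.exp (N * (ℓ₁ + δ / 2)) * Real.exp (N * (ℓ₂ + δ / 2)) :=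
                mul_le_mul g2 g4 (norm_nonneg _) (Real.exp_pos _).le
            _ = Real.exp (N * (ℓ₁ + ℓ₂ + δ)) := by
                rw [← Real.exp_add]; congr 1; ring
    _ ≤ ENNReal.ofReal (|C1| / (N : ℝ) ^ 2) + ENNReal.ofReal (|C2| / (N : ℝ) ^ 2) := by
        refine (measure_union_le _ _).trans (add_le_add (hN1.trans ?_) (hN2.trans ?_))
        · exact ENNReal.ofReal_le_ofReal (div_le_div_of_nonneg_right (le_abs_self _) (by positivity))
        · exact ENNReal.ofReal_le_ofReal (div_le_div_of_nonneg_right (le_abs_self _) (by positivity))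
    _ = _ := by
        rw [← ENNReal.ofReal_add (by positivity) (by positivity)]
        congr 1
        ring

theorem cap_ds {κ ν : Type} [Fintype κ] [DecidableEq κ] [Fintype ν] (a : ν → Matrix κ κ ℂ)
    (h1 : ∑ i, a i * (a i)ᴴ = 1) (h2 : ∑ i, (a i)ᴴ * a i = 1) : cap a = 1 := by
  unfold cap
  apply le_antisymm
  · apply csInf_le
    · refine ⟨1, ?_⟩
      rintro c ⟨b, hb, rfl⟩
      have hd : 0 < b.det.re := by
        have := hb.det_pos
        exact (Complex.pos_iff.mp this).1
      rw [le_div_iff₀ hd, one_mul]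
      exact Pool.Agent.helper16.GUE.det_ge_of_ds a h1 h2 b hb
    · refine ⟨1, Matrix.PosDef.one, ?_⟩
      simp only [Matrix.mul_one]
      rw [h1]
      simp
  · apply le_csInf
    · exact ⟨_, 1, Matrix.PosDef.one, rfl⟩
    · rintro c ⟨b, hb, rfl⟩
      have hd : 0 < b.det.re := by
        have := hb.det_pos
        exact (Complex.pos_iff.mp this).1
      rw [le_div_iff₀ hd, one_mul]
      exact Pool.Agent.helper16.GUE.det_ge_of_ds a h1 h2 b hb

theorem law_all_aux (k : ℕ) : ∀ (κ ν : Type) [Fintype κ] [DecidableEq κ] [Fintype ν] [DecidableEq ν]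
    (a : ν → Matrix κ κ ℂ), Fintype.card κ = k → RND a →
    0 < cap a ∧ LawT a ((1 / 2) * Real.log (cap a) - (Fintype.card κ : ℝ) / 2) := by
  induction k using Nat.strong_induction_on with
  | _ k ih =>
    intro κ ν _ _ _ _ a hk ha
    rcases isEmpty_or_nonempty κ with hemp | hne
    · -- empty case
      have hcap : cap a = 1 := by
        unfold cap
        have : {c : ℝ | ∃ b : Matrix κ κ ℂ, b.PosDef ∧
            c = (∑ i, a i * b * (a i)ᴴ).det.re / b.det.re} = {1} := by
          ext c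
          simp only [Set.mem_ofPred_eq, Set.mem_singleton_iff, Matrix.det_isEmpty]
          constructor
          · rintro ⟨b, -, hc⟩
            simpa using hc
          · intro hc
            exact ⟨1, Matrix.PosDef.one, by simpa using hc⟩
        rw [this, csInf_singleton]
      refine ⟨by rw [hcap]; norm_num, ?_⟩
      rw [hcap, Fintype.card_eq_zero]
      intro δ hδ
      refine ⟨0, Filter.Eventually.of_forall fun N => ?_⟩
      have : {ξ : Idx ν N → ℝ | ¬ (Real.exp (N * ((1 / 2) * Real.log 1 - ((0 : ℕ) : ℝ) / 2 - δ)) ≤ ‖(ksum a (gue N fun c => (ξ c : ℂ))).det‖ ∧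
        ‖(ksum a (gue N fun c => (ξ c : ℂ))).det‖ ≤ Real.exp (N * ((1 / 2) * Real.log 1 - ((0 : ℕ) : ℝ) / 2 + δ)))} = ∅ := by
        rw [Set.eq_empty_iff_forall_notMem]
        intro ξ hξ
        apply hξ
        rw [Matrix.det_isEmpty]
        simp only [Real.log_one, mul_zero, Nat.cast_zero, zero_div, sub_zero, zero_sub, zero_add,
          norm_one, mul_neg]
        have h0 : (0 : ℝ) ≤ N * δ := by positivity
        constructor
        · rw [Real.exp_le_one_iff]; linarith
        · exact Real.one_le_exp h0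
      rw [this]
      simp
    · rcases Pool.Agent.helper75.RndBlock.irr_or_block a ha with hirr | hblock
      · obtain ⟨p, q, hp, hq, h1, h2⟩ := Pool.Agent.helper16.GUE.exists_scaling a hirr
        have hirr' := irr_mul a p q hp hq hirr
        have hlaw := law_ds (fun i => p * a i * q) hirr' h1 h2
        have hcap := Pool.Agent.helper16.GUE.cap_mul a p q hp hq
        rw [cap_ds _ h1 h2] at hcap
        have hp0 : 0 < ‖p.det‖ := norm_pos_iff.mpr hp.ne_zero
        have hq0 : 0 < ‖q.det‖ := norm_pos_iff.mpr hq.ne_zero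
        have hpq : 0 < ‖p.det‖ ^ 2 * ‖q.det‖ ^ 2 := by positivity
        have hcap0 : 0 < cap a := by
          by_contra hcon
          push Not at hcon
          have : ‖p.det‖ ^ 2 * ‖q.det‖ ^ 2 * cap a ≤ 0 := mul_nonpos_of_nonneg_of_nonpos hpq.le hcon
          linarith
        refine ⟨hcap0, ?_⟩
        have hlog : Real.log (cap a) = - 2 * Real.log ‖p.det‖ - 2 * Real.log ‖q.det‖ := by
          have h3 := congrArg Real.log hcap
          rw [Real.log_one, Real.log_mul hpq.ne' hcap0.ne', Real.log_mul (by positivity) (by positivity),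
            Real.log_pow, Real.log_pow] at h3
          push_cast at h3
          linarith
        have h4 := lawT_scale a p q hp hq _ hlaw
        have h5 : -(Fintype.card κ : ℝ) / 2 - Real.log ‖p.det‖ - Real.log ‖q.det‖
            = (1 / 2) * Real.log (cap a) - (Fintype.card κ : ℝ) / 2 := by
          rw [hlog]; ring
        rw [h5] at h4
        exact h4
      · obtain ⟨κ₁, κ₂, f1, d1, f2, d2, e, p, q, a₁, b, a₂, hp, hq, hc1, hc2, hr1, hr2, heq⟩ := hblock
        have i1 := ih (Fintype.card κ₁) (by omega) κ₁ ν a₁ rfl hr1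
        have i2 := ih (Fintype.card κ₂) (by omega) κ₂ ν a₂ rfl hr2
        have hcapb := Pool.Agent.helper16.GUE.cap_fromBlocks a₁ b a₂
        have hcap := Pool.Agent.helper16.GUE.cap_mul a p q hp hq
        have hcapr := cap_reindex (fun i => p * a i * q) e
        simp_rw [heq] at hcapr
        rw [hcapb] at hcapr
        have hp0 : 0 < ‖p.det‖ := norm_pos_iff.mpr hp.ne_zero
        have hq0 : 0 < ‖q.det‖ := norm_pos_iff.mpr hq.ne_zero
        have hpq : 0 < ‖p.det‖ ^ 2 * ‖q.det‖ ^ 2 := by positivity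
        rw [← hcapr] at hcap
        have hprod : 0 < cap a₁ * cap a₂ := mul_pos i1.1 i2.1
        have hcap0 : 0 < cap a := by
          by_contra hcon
          push Not at hcon
          have : ‖p.det‖ ^ 2 * ‖q.det‖ ^ 2 * cap a ≤ 0 := mul_nonpos_of_nonneg_of_nonpos hpq.le hcon
          linarith
        refine ⟨hcap0, ?_⟩
        have hlaw := lawT_blocks a₁ b a₂ _ _ i1.2 i2.2
        have hfun : (fun i => Matrix.fromBlocks (a₁ i) (b i) 0 (a₂ i))
            = fun i => (p * a i * q).reindex e e := by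
          ext1 i; exact (heq i).symm
        rw [hfun] at hlaw
        have hlaw2 := lawT_reindex (fun i => p * a i * q) e _ hlaw
        have h4 := lawT_scale a p q hp hq _ hlaw2
        have hcard : (Fintype.card κ : ℝ) = Fintype.card κ₁ + Fintype.card κ₂ := by
          rw [Fintype.card_congr e, Fintype.card_sum]; push_cast; ring
        have hlog : Real.log (cap a₁) + Real.log (cap a₂)
            = 2 * Real.log ‖p.det‖ + 2 * Real.log ‖q.det‖ + Real.log (cap a) := by
          have h3 := congrArg Real.log hcap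
          have h6 : Real.log (‖p.det‖ ^ 2 * ‖q.det‖ ^ 2) = 2 * Real.log ‖p.det‖ + 2 * Real.log ‖q.det‖ := by
            rw [Real.log_mul (by positivity) (by positivity), Real.log_pow, Real.log_pow]
            push_cast
            ring
          rw [Real.log_mul hpq.ne' hcap0.ne', h6, Real.log_mul i1.1.ne' i2.1.ne'] at h3
          exact h3
        have h5 : (1 / 2) * Real.log (cap a₁) - (Fintype.card κ₁ : ℝ) / 2
              + ((1 / 2) * Real.log (cap a₂) - (Fintype.card κ₂ : ℝ) / 2)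
              - Real.log ‖p.det‖ - Real.log ‖q.det‖
            = (1 / 2) * Real.log (cap a) - (Fintype.card κ : ℝ) / 2 := by
          rw [hcard]
          linarith
        rw [h5] at h4
        exact h4

theorem law_all (κ ν : Type) [Fintype κ] [DecidableEq κ] [Fintype ν] [DecidableEq ν]
    (a : ν → Matrix κ κ ℂ) (ha : RND a) :
    0 < cap a ∧ LawT a ((1 / 2) * Real.log (cap a) - (Fintype.card κ : ℝ) / 2) :=
  law_all_aux _ κ ν a rfl ha

end Pool.Agent.helper97.GUE
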